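import Pool.Agent.CoWL.Defs

/-!
The two structures: points, global maps, relations, goodness.
-/

namespace Pool.Agent.CoWL

open Finset Classical

/-- the ground set: `a` pairs -/
abbrev E (a : ℕ) : Type := Fin a × Bool

/-- the points of the structures -/
inductive Pt (a : ℕ) : Type
  | el (i : E a) : Pt a
  | p2 (i : E a) (Z : Finset (E a)) (v : ZMod 2) : Pt a
  | p3 (A B : Finset (E a)) (v : ZMod 3) : Pt a
  deriving Fintype

variable {a : ℕ}

/-! ### Permutations and sets -/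

/-- image of a set under a permutation -/
def im (π : Equiv.Perm (E a)) (Z : Finset (E a)) : Finset (E a) := Z.map π.toEmbedding

lemma mem_im {π : Equiv.Perm (E a)} {Z : Finset (E a)} {j : E a} : j ∈ im π Z ↔ π.symm j ∈ Z := by
  unfold im; rw [Finset.mem_map_equiv]

lemma apply_mem_im {π : Equiv.Perm (E a)} {Z : Finset (E a)} {j : E a} :
    π j ∈ im π Z ↔ j ∈ Z := by
  rw [mem_im]; simp

@[simp] lemma im_one (Z : Finset (E a)) : im 1 Z = Z := by
  ext j; rw [mem_im]; rfl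

lemma im_mul (π ρ : Equiv.Perm (E a)) (Z : Finset (E a)) : im (π * ρ) Z = im π (im ρ Z) := by
  ext j; rw [mem_im, mem_im, mem_im]; rfl

@[simp] lemma im_inv_im (π : Equiv.Perm (E a)) (Z : Finset (E a)) : im π⁻¹ (im π Z) = Z := by
  rw [← im_mul]; simp

@[simp] lemma im_im_inv (π : Equiv.Perm (E a)) (Z : Finset (E a)) : im π (im π⁻¹ Z) = Z := by
  rw [← im_mul]; simp

@[simp] lemma card_im (π : Equiv.Perm (E a)) (Z : Finset (E a)) : (im π Z).card = Z.card := by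
  unfold im; simp

@[simp] lemma im_empty (π : Equiv.Perm (E a)) : im π (∅ : Finset (E a)) = ∅ := by
  ext j; simp [mem_im]

@[simp] lemma im_univ (π : Equiv.Perm (E a)) : im π (univ : Finset (E a)) = univ := by
  ext j; simp [mem_im]

@[simp] lemma im_singleton (π : Equiv.Perm (E a)) (j : E a) : im π {j} = {π j} := by
  ext i; simp [mem_im, Equiv.symm_apply_eq]

@[simp] lemma im_insert (π : Equiv.Perm (E a)) (j : E a) (Z : Finset (E a)) :
    im π (insert j Z) = insert (π j) (im π Z) := by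
  ext i; simp [mem_im, Equiv.symm_apply_eq]

lemma im_union (π : Equiv.Perm (E a)) (A B : Finset (E a)) :
    im π (A ∪ B) = im π A ∪ im π B := by
  ext i; simp [mem_im]

@[simp] lemma im_erase (π : Equiv.Perm (E a)) (j : E a) (Z : Finset (E a)) :
    im π (Z.erase j) = (im π Z).erase (π j) := by
  ext i; simp [mem_im, Equiv.symm_apply_eq]

/-! ### Layer 2 (over `F₂`) -/

/-- an injective numbering of the ground set -/
noncomputable def key (i : E a) : ℕ := (Fintype.equivFin (E a) i).val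

lemma key_inj {i j : E a} (h : key i = key j) : i = j :=
  (Fintype.equivFin (E a)).injective (Fin.ext h)

/-- the tournament on the ground set -/
noncomputable def tt (i j : E a) : ZMod 2 := if key i < key j then 1 else 0

lemma tt_self (i : E a) : tt i i = 0 := by simp [tt]

lemma tt_add {i j : E a} (h : i ≠ j) : tt i j + tt j i = 1 := by
  unfold tt
  rcases lt_trichotomy (key i) (key j) with h1 | h1 | h1
  · simp [h1, not_lt.2 h1.le]
  · exact absurd (key_inj h1) h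
  · simp [h1, not_lt.2 h1.le]

/-- partial sums -/
def P2 (x : E a → E a → ZMod 2) (i : E a) (Z : Finset (E a)) : ZMod 2 := ∑ j ∈ Z, x i j

/-- link equations of layer 2 -/
def Lnk (π : Equiv.Perm (E a)) (x : E a → E a → ZMod 2) : Prop :=
  ∀ i j, i ≠ j → x i j + x j i = tt (π i) (π j) + tt i j

/-- the node equation of layer 2 at `i` -/
def Nod (ch ch' : E a → ZMod 2) (π : Equiv.Perm (E a)) (x : E a → E a → ZMod 2) (i : E a) :
    Prop := P2 x i (univ.erase i) = ch' (π i) + ch i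

/-! ### Layer 3 (over `F₃`) -/

/-- sums over intervals -/
def X3 (A B : Finset (E a)) (w : Finset (E a) → ZMod 3) : ZMod 3 := ∑ J ∈ B.powerset, w (A ∪ J)

/-- the function `∏ (x_l - y_l)` -/
def cc (ω : Finset (E a)) : ZMod 3 :=
  ∏ l : Fin a, ((if (l, true) ∈ ω then 1 else 0) - (if (l, false) ∈ ω then 1 else 0))

/-- perfect solutions of layer 3 for `π` -/
def P3 (π : Equiv.Perm (E a)) : Set (Finset (E a) → ZMod 3) :=
  {w | (∀ A, A.card = a → w A = 0) ∧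
    ∀ ω, ω.card = a → X3 ∅ ω w = cc (im π ω) - cc ω}

/-! ### Global maps -/

/-- the permutation of the points given by `π` and shifts -/
def act (π : Equiv.Perm (E a)) (s2 : E a → Finset (E a) → ZMod 2)
    (s3 : Finset (E a) → Finset (E a) → ZMod 3) : Pt a ≃ Pt a where
  toFun
    | Pt.el i => Pt.el (π i)
    | Pt.p2 i Z v => Pt.p2 (π i) (im π Z) (v + s2 i Z)
    | Pt.p3 A B v => Pt.p3 (im π A) (im π B) (v + s3 A B)
  invFun
    | Pt.el i => Pt.el (π⁻¹ i)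
    | Pt.p2 i Z v => Pt.p2 (π⁻¹ i) (im π⁻¹ Z) (v - s2 (π⁻¹ i) (im π⁻¹ Z))
    | Pt.p3 A B v => Pt.p3 (im π⁻¹ A) (im π⁻¹ B) (v - s3 (im π⁻¹ A) (im π⁻¹ B))
  left_inv := by rintro (i | ⟨i, Z, v⟩ | ⟨A, B, v⟩) <;> simp
  right_inv := by rintro (i | ⟨i, Z, v⟩ | ⟨A, B, v⟩) <;> simp

/-- global data -/
structure Gd (a : ℕ) where
  π : Equiv.Perm (E a)
  x : E a → E a → ZMod 2
  w : Finset (E a) → ZMod 3

/-- the permutation of the points given by global data -/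
def phi (g : Gd a) : Pt a ≃ Pt a := act g.π (P2 g.x) (fun A B => X3 A B g.w)

@[simp] lemma phi_el (g : Gd a) (i : E a) : phi g (Pt.el i) = Pt.el (g.π i) := rfl

@[simp] lemma phi_p2 (g : Gd a) (i : E a) (Z : Finset (E a)) (v : ZMod 2) :
    phi g (Pt.p2 i Z v) = Pt.p2 (g.π i) (im g.π Z) (v + P2 g.x i Z) := rfl

@[simp] lemma phi_p3 (g : Gd a) (A B : Finset (E a)) (v : ZMod 3) :
    phi g (Pt.p3 A B v) = Pt.p3 (im g.π A) (im g.π B) (v + X3 A B g.w) := rfl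

/-! ### Relations and colours -/

inductive Rel (ch : E a → ZMod 2) : Fin 15 → Pt a → Pt a → Pt a → Prop
  | isEl (i : E a) : Rel ch 0 (Pt.el i) (Pt.el i) (Pt.el i)
  | is2 (i Z v) : Rel ch 1 (Pt.p2 i Z v) (Pt.p2 i Z v) (Pt.p2 i Z v)
  | is3 (A B v) : Rel ch 2 (Pt.p3 A B v) (Pt.p3 A B v) (Pt.p3 A B v)
  | i2 (i Z v) : Rel ch 3 (Pt.el i) (Pt.p2 i Z v) (Pt.p2 i Z v)
  | z2 (j i Z v) (h : j ∈ Z) : Rel ch 4 (Pt.el j) (Pt.p2 i Z v) (Pt.p2 i Z v)
  | zero2 (i) : Rel ch 5 (Pt.p2 i ∅ 0) (Pt.p2 i ∅ 0) (Pt.p2 i ∅ 0)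
  | add2 (i j Z v v') (h : j ∉ Z) :
      Rel ch 6 (Pt.p2 i Z v) (Pt.p2 i {j} v') (Pt.p2 i (insert j Z) (v + v'))
  | lnk2 (i j v v') (h : i ≠ j) (h' : v + v' = tt i j) :
      Rel ch 7 (Pt.p2 i {j} v) (Pt.p2 j {i} v') (Pt.p2 j {i} v')
  | mark2 (i) : Rel ch 8 (Pt.p2 i (univ.erase i) (ch i)) (Pt.p2 i (univ.erase i) (ch i))
      (Pt.p2 i (univ.erase i) (ch i))
  | a3 (j A B v) (h : j ∈ A) : Rel ch 9 (Pt.el j) (Pt.p3 A B v) (Pt.p3 A B v)
  | b3 (j A B v) (h : j ∈ B) : Rel ch 10 (Pt.el j) (Pt.p3 A B v) (Pt.p3 A B v)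
  | add3 (j A B v v') (hA : j ∉ A) (hB : j ∉ B) :
      Rel ch 11 (Pt.p3 A B v) (Pt.p3 (insert j A) B v') (Pt.p3 A (insert j B) (v + v'))
  | suc3 (A B v) : Rel ch 12 (Pt.p3 A B v) (Pt.p3 A B (v + 1)) (Pt.p3 A B (v + 1))
  | mark3 (A) (h : A.card = a) : Rel ch 13 (Pt.p3 A ∅ 0) (Pt.p3 A ∅ 0) (Pt.p3 A ∅ 0)
  | markc (ω) (h : ω.card = a) :
      Rel ch 14 (Pt.p3 ∅ ω (cc ω)) (Pt.p3 ∅ ω (cc ω)) (Pt.p3 ∅ ω (cc ω))

/-- number of colours -/
abbrev NC : ℕ := Fintype.card (Fin 15 → Prop)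

/-- the colour of a triple -/
noncomputable def kap (ch : E a → ZMod 2) (p q r : Pt a) : Fin NC :=
  Fintype.equivFin (Fin 15 → Prop) fun l => Rel ch l p q r

lemma kap_eq_iff (ch ch' : E a → ZMod 2) (p q r p' q' r' : Pt a) :
    kap ch p q r = kap ch' p' q' r' ↔ ∀ l, Rel ch l p q r ↔ Rel ch' l p' q' r' := by
  unfold kap
  rw [(Fintype.equivFin (Fin 15 → Prop)).injective.eq_iff, funext_iff]
  simp only [eq_iff_iff]

/-! ### Goodness -/

/-- `ρ` fixes the sets attached to the point -/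
def fixP (ρ : Equiv.Perm (E a)) : Pt a → Prop
  | Pt.el i => ρ i = i
  | Pt.p2 i Z _ => ρ i = i ∧ im ρ Z = Z
  | Pt.p3 A B _ => im ρ A = A ∧ im ρ B = B

def Inv (D : Finset (Pt a)) (ρ : Equiv.Perm (E a)) : Prop := ∀ p ∈ D, fixP ρ p

/-- trivial or a transposition -/
def OneOrSwap (ρ : Equiv.Perm (E a)) : Prop := ρ = 1 ∨ ρ.IsSwap

structure Good (ch ch' : E a → ZMod 2) (D : Finset (Pt a)) (g : Gd a) : Prop where
  lnk : Lnk g.π g.x
  nod : ∀ i Z v, Pt.p2 i Z v ∈ D → Nod ch ch' g.π g.x i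
  lay3 : ∃ ρ, Inv D ρ ∧ OneOrSwap ρ ∧ ∃ w' ∈ P3 (g.π * ρ),
    ∀ A B v, Pt.p3 A B v ∈ D → X3 A B g.w = X3 A B w'

/-- there are many hidden transpositions for `D` -/
def Big (D : Finset (Pt a)) : Prop :=
  ∃ T : Finset (E a), 6 ≤ T.card ∧ ∀ u ∈ T, ∀ v ∈ T, Inv D (Equiv.swap u v)

lemma Inv.mono {D D' : Finset (Pt a)} {ρ : Equiv.Perm (E a)} (h : Inv D ρ) (hD : D' ⊆ D) :
    Inv D' ρ := fun p hp => h p (hD hp)

lemma Big.mono {D D' : Finset (Pt a)} (h : Big D) (hD : D' ⊆ D) : Big D' := by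
  obtain ⟨T, hT, h⟩ := h
  exact ⟨T, hT, fun u hu v hv => (h u hu v hv).mono hD⟩

end Pool.Agent.CoWL
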