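import Pool.Agent.CoWL.Layer3

/-!
Good global maps preserve the colours; inverses.
-/

namespace Pool.Agent.CoWL

open Finset Classical

variable {a : ℕ}

lemma Good.mono {ch ch' : E a → ZMod 2} {D D' : Finset (Pt a)} {g : Gd a}
    (h : Good ch ch' D g) (hD : D' ⊆ D) : Good ch ch' D' g := by
  obtain ⟨h1, h2, ρ, h3, h4, w', h5, h6⟩ := h
  exact ⟨h1, fun i Z v hp => h2 i Z v (hD hp),
    ρ, h3.mono hD, h4, w', h5, fun A B v hp => h6 A B v (hD hp)⟩

/-- the inverse data -/
def Gd.inv (g : Gd a) : Gd a where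
  π := g.π⁻¹
  x := fun i j => g.x (g.π⁻¹ i) (g.π⁻¹ j)
  w := fun J => - g.w (im g.π⁻¹ J)

lemma inv_ap (π : Equiv.Perm (E a)) (i : E a) : π⁻¹ (π i) = i := π.symm_apply_apply i

lemma P2_inv (π : Equiv.Perm (E a)) (x : E a → E a → ZMod 2) (i : E a) (Z : Finset (E a)) :
    P2 (fun i j => x (π⁻¹ i) (π⁻¹ j)) (π i) (im π Z) = P2 x i Z := by
  unfold P2 im
  rw [Finset.sum_map]
  simp

lemma X3_inv (π : Equiv.Perm (E a)) (w : Finset (E a) → ZMod 3) (A B : Finset (E a)) :
    X3 (im π A) (im π B) (fun J => - w (im π⁻¹ J)) = - X3 A B w := by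
  have : (fun J => - w (im π⁻¹ J)) = - (fun J => w (im π⁻¹ J)) := rfl
  rw [this, X3_neg, X3_comp, im_inv_im, im_inv_im]

lemma phi_inv_phi (g : Gd a) (p : Pt a) : phi g.inv (phi g p) = p := by
  cases p with
  | el i => simp [Gd.inv]
  | p2 i Z v =>
    have h3 : (2 : ZMod 2) = 0 := by decide
    have h4 : v + P2 g.x i Z + P2 g.x i Z = v := by linear_combination (P2 g.x i Z) * h3
    simp only [phi_p2, Gd.inv, P2_inv, im_inv_im, inv_ap]
    rw [h4]
  | p3 A B v =>
    have h4 : v + X3 A B g.w + -X3 A B g.w = v := by ring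
    simp only [phi_p3, Gd.inv, X3_inv, im_inv_im]
    rw [h4]

lemma phi_inv (g : Gd a) : phi g.inv = (phi g).symm := by
  ext p
  obtain ⟨q, rfl⟩ := (phi g).surjective p
  rw [phi_inv_phi, Equiv.symm_apply_apply]

theorem Good.inv {ch ch' : E a → ZMod 2} {D : Finset (Pt a)} {g : Gd a}
    (h : Good ch ch' D g) : Good ch' ch (D.map (phi g).toEmbedding) g.inv := by
  obtain ⟨h1, h2, ρ, h3, h4, w', h5, h6⟩ := h
  have hmem : ∀ {p : Pt a}, p ∈ D.map (phi g).toEmbedding → ∃ q ∈ D, phi g q = p := by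
    intro p hp
    rw [Finset.mem_map] at hp
    exact hp
  refine ⟨?_, ?_, g.π * ρ⁻¹ * g.π⁻¹, ?_, ?_, fun J => - w' (im (g.π * ρ)⁻¹ J), ?_, ?_⟩
  · intro i j hij
    have := h1 (g.π⁻¹ i) (g.π⁻¹ j) (fun hh => hij ((g.π⁻¹).injective hh))
    simp only [Gd.inv]
    rw [this]
    simp [add_comm]
  · intro i Z v hp
    obtain ⟨q, hq, hqp⟩ := hmem hp
    cases q with
    | el i' => simp at hqp
    | p3 A B v' => simp at hqp
    | p2 i' Z' v' =>
      simp only [phi_p2, Pt.p2.injEq] at hqp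
      obtain ⟨rfl, -, -⟩ := hqp
      have := h2 i' Z' v' hq
      unfold Nod at this ⊢
      simp only [Gd.inv]
      have h7 : (univ : Finset (E a)).erase (g.π i') = im g.π (univ.erase i') := by simp
      rw [h7, P2_inv, this]
      simp [add_comm]
  · intro p hp
    obtain ⟨q, hq, rfl⟩ := hmem hp
    have h7 := h3 q hq
    have hs : ∀ Z : Finset (E a), im ρ Z = Z → im ρ⁻¹ Z = Z := by
      intro Z hZ; nth_rewrite 1 [← hZ]; simp
    have he : ∀ i : E a, ρ i = i → ρ⁻¹ i = i := by
      intro i hi; rw [Equiv.Perm.inv_eq_iff_eq]; exact hi.symm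
    cases q with
    | el i =>
      simp only [fixP] at h7
      simp only [phi_el, fixP, Equiv.Perm.mul_apply, inv_ap]
      rw [he i h7]
    | p2 i Z v =>
      simp only [fixP] at h7
      simp only [phi_p2, fixP, Equiv.Perm.mul_apply, inv_ap, im_mul,
        im_inv_im]
      rw [he i h7.1, hs Z h7.2]
      exact ⟨rfl, rfl⟩
    | p3 A B v =>
      simp only [fixP] at h7
      simp only [phi_p3, fixP, im_mul, im_inv_im]
      rw [hs A h7.1, hs B h7.2]
      exact ⟨rfl, rfl⟩
  · rcases h4 with rfl | ⟨u, v, huv, rfl⟩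
    · left; simp
    · right
      refine ⟨g.π u, g.π v, fun hh => huv (g.π.injective hh), ?_⟩
      rw [Equiv.swap_inv]
      exact (Equiv.swap_apply_apply g.π u v).symm
  · have h8 := P3_inv h5
    have h9 : (g.inv).π * (g.π * ρ⁻¹ * g.π⁻¹) = (g.π * ρ)⁻¹ := by
      simp only [Gd.inv]; group
    rw [h9]; exact h8
  · intro A B v hp
    obtain ⟨q, hq, hqp⟩ := hmem hp
    cases q with
    | el i' => simp at hqp
    | p2 i' Z' v' => simp at hqp
    | p3 A' B' v' =>
      simp only [phi_p3, Pt.p3.injEq] at hqp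
      obtain ⟨rfl, rfl, -⟩ := hqp
      have h7 := h3 _ hq
      simp only [Gd.inv, X3_inv]
      rw [h6 A' B' v' hq]
      have h8 : im g.π A' = im (g.π * ρ) A' := by rw [im_mul, h7.1]
      have h9 : im g.π B' = im (g.π * ρ) B' := by rw [im_mul, h7.2]
      rw [h8, h9, X3_inv]

theorem Good.rel {ch ch' : E a → ZMod 2} {D : Finset (Pt a)} {g : Gd a}
    (h : Good ch ch' D g) {p q r : Pt a} (hp : p ∈ D) (hq : q ∈ D) (hr : r ∈ D) {l : Fin 15}
    (hl : Rel ch l p q r) : Rel ch' l (phi g p) (phi g q) (phi g r) := by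
  obtain ⟨h1, h2, ρ, h3, h4, w', h5, h6⟩ := h
  cases hl with
  | isEl i => exact Rel.isEl _
  | is2 i Z v => exact Rel.is2 _ _ _
  | is3 A B v => exact Rel.is3 _ _ _
  | i2 i Z v => exact Rel.i2 _ _ _
  | z2 j i Z v h => exact Rel.z2 _ _ _ _ (apply_mem_im.2 h)
  | zero2 i =>
    have := Rel.zero2 (ch := ch') (g.π i)
    simpa [P2] using this
  | add2 i j Z v v' h =>
    have := Rel.add2 (ch := ch') (g.π i) (g.π j) (im g.π Z) (v + P2 g.x i Z)
      (v' + P2 g.x i {j}) (fun hh => h (apply_mem_im.1 hh))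
    simp only [phi_p2, im_singleton, im_insert]
    convert this using 2
    unfold P2
    rw [Finset.sum_insert h, Finset.sum_singleton]
    ring
  | lnk2 i j v v' h h' =>
    have h7 := h1 i j h
    have := Rel.lnk2 (ch := ch') (g.π i) (g.π j) (v + P2 g.x i {j}) (v' + P2 g.x j {i})
      (fun hh => h (g.π.injective hh)) (by
        simp only [P2, Finset.sum_singleton]
        have h3 : (2 : ZMod 2) = 0 := by decide
        linear_combination h' + h7 + (tt i j) * h3)
    simpa using this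
  | mark2 i =>
    have h7 := h2 i _ _ hp
    have := Rel.mark2 (ch := ch') (g.π i)
    simp only [phi_p2, im_erase, im_univ]
    unfold Nod at h7
    have h8 : ch i + P2 g.x i (univ.erase i) = ch' (g.π i) := by
      rw [h7]
      have h3 : (2 : ZMod 2) = 0 := by decide
      linear_combination (ch i) * h3
    rw [h8]; exact this
  | a3 j A B v h => exact Rel.a3 _ _ _ _ (apply_mem_im.2 h)
  | b3 j A B v h => exact Rel.b3 _ _ _ _ (apply_mem_im.2 h)
  | add3 j A B v v' hA hB =>
    have := Rel.add3 (ch := ch') (g.π j) (im g.π A) (im g.π B) (v + X3 A B g.w)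
      (v' + X3 (insert j A) B g.w) (fun hh => hA (apply_mem_im.1 hh))
      (fun hh => hB (apply_mem_im.1 hh))
    simp only [phi_p3, im_insert]
    convert this using 2
    rw [X3_insert _ hB]
    ring
  | suc3 A B v =>
    have := Rel.suc3 (ch := ch') (im g.π A) (im g.π B) (v + X3 A B g.w)
    simp only [phi_p3]
    convert this using 2 <;> ring
  | mark3 A h =>
    have h7 := h6 A ∅ 0 hp
    have h8 : X3 A ∅ g.w = 0 := by rw [h7, X3_empty, h5.1 A h]
    have := Rel.mark3 (ch := ch') (im g.π A) (by simpa using h)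
    simpa [h8] using this
  | markc ω h =>
    have h7 := h6 ∅ ω _ hp
    have hfix := h3 _ hp
    have h8 : X3 ∅ ω g.w = cc (im g.π ω) - cc ω := by
      rw [h7, h5.2 ω h, im_mul, hfix.2]
    have := Rel.markc (ch := ch') (im g.π ω) (by simpa using h)
    simp only [phi_p3, im_empty]
    rw [h8]
    convert this using 2 <;> ring

theorem Good.col {ch ch' : E a → ZMod 2} {D : Finset (Pt a)} {g : Gd a}
    (h : Good ch ch' D g) {p q r : Pt a} (hp : p ∈ D) (hq : q ∈ D) (hr : r ∈ D) :
    kap ch p q r = kap ch' (phi g p) (phi g q) (phi g r) := by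
  rw [kap_eq_iff]
  intro l
  refine ⟨h.rel hp hq hr, fun hl => ?_⟩
  have h' := h.inv
  have := h'.rel (p := phi g p) (q := phi g q) (r := phi g r) (by simpa using hp)
    (by simpa using hq) (by simpa using hr) hl
  rw [phi_inv] at this
  simpa using this

end Pool.Agent.CoWL
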