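import Pool.Agent.CoWL.Base

/-!
Hidden transpositions exist for small sets of points.
-/

namespace Pool.Agent.CoWL

open Finset Classical

variable {a : ℕ}

/-- what a point sees of an element of the ground set -/
noncomputable def sig (u : E a) : Pt a → Bool × Bool
  | Pt.el i => (decide (u = i), false)
  | Pt.p2 i Z _ => (decide (u = i), decide (u ∈ Z))
  | Pt.p3 A B _ => (decide (u ∈ A), decide (u ∈ B))

lemma im_swap_eq {u v : E a} {Z : Finset (E a)} (h : u ∈ Z ↔ v ∈ Z) :
    im (Equiv.swap u v) Z = Z := by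
  ext e
  rw [mem_im, Equiv.symm_swap]
  by_cases h1 : e = u
  · subst h1; rw [Equiv.swap_apply_left]; exact h.symm
  · by_cases h2 : e = v
    · subst h2; rw [Equiv.swap_apply_right]; exact h
    · rw [Equiv.swap_apply_of_ne_of_ne h1 h2]

lemma swap_fix {u v i : E a} (h : u = i ↔ v = i) : Equiv.swap u v i = i := by
  by_cases h1 : u = i
  · have h2 := h.1 h1
    subst h1; subst h2; simp
  · have h2 : v ≠ i := fun hh => h1 (h.2 hh)
    exact Equiv.swap_apply_of_ne_of_ne (Ne.symm h1) (Ne.symm h2)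

lemma fixP_swap {u v : E a} {p : Pt a} (h : sig u p = sig v p) : fixP (Equiv.swap u v) p := by
  cases p with
  | el i =>
    simp only [sig, Prod.mk.injEq, decide_eq_decide] at h
    exact swap_fix h.1
  | p2 i Z w =>
    simp only [sig, Prod.mk.injEq, decide_eq_decide] at h
    exact ⟨swap_fix h.1, im_swap_eq h.2⟩
  | p3 A B w =>
    simp only [sig, Prod.mk.injEq, decide_eq_decide] at h
    exact ⟨im_swap_eq h.1, im_swap_eq h.2⟩

theorem big_of_card {n : ℕ} (D : Finset (Pt a)) (hD : D.card ≤ n) (ha : 5 * 4 ^ n < 2 * a) :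
    Big D := by
  obtain ⟨y, -, hy⟩ := Finset.exists_lt_card_fiber_of_mul_lt_card_of_maps_to
    (s := (Finset.univ : Finset (E a))) (t := (Finset.univ : Finset (D → Bool × Bool)))
    (f := fun u (p : D) => sig u p.1) (n := 5) (fun _ _ => Finset.mem_univ _) (by
      have h1 : (Finset.univ : Finset (D → Bool × Bool)).card = 4 ^ D.card := by simp
      have h2 : (Finset.univ : Finset (E a)).card = 2 * a := by simp [mul_comm]
      have h3 : 4 ^ D.card ≤ 4 ^ n := Nat.pow_le_pow_right (by norm_num) hD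
      rw [h1, h2]
      nlinarith)
  refine ⟨_, hy, fun u hu v hv p hp => ?_⟩
  simp only [Finset.mem_filter, Finset.mem_univ, true_and] at hu hv
  exact fixP_swap (congrFun (hu.trans hv.symm) ⟨p, hp⟩)

/-- a hidden transposition -/
lemma Big.swap {D : Finset (Pt a)} (h : Big D) :
    ∃ ρ : Equiv.Perm (E a), Inv D ρ ∧ ρ.IsSwap := by
  obtain ⟨T, hT, h⟩ := h
  obtain ⟨u, hu, v, hv, huv⟩ := Finset.one_lt_card.1 (lt_of_lt_of_le (by norm_num) hT)
  exact ⟨Equiv.swap u v, h u hu v hv, u, v, huv, rfl⟩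

end Pool.Agent.CoWL
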