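import Pool.Agent.CoWL.Layer2
import Pool.Agent.CoWL.GoodLem
import Pool.Agent.CoWL.Hidden

/-!
The bijective extension property at the level of points.
-/

namespace Pool.Agent.CoWL

open Finset Classical

variable {a : ℕ}

/-- moving the hidden transposition into a larger set -/
lemma Good.lay3_ext {ch ch' : E a → ZMod 2} {D D' : Finset (Pt a)} {g : Gd a}
    (h : Good ch ch' D g) (hD : D ⊆ D') (hB : Big D') :
    ∃ w : Finset (E a) → ZMod 3, (∃ ρ, Inv D' ρ ∧ OneOrSwap ρ ∧ w ∈ P3 (g.π * ρ)) ∧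
      ∀ A B v, Pt.p3 A B v ∈ D → X3 A B w = X3 A B g.w := by
  obtain ⟨ρ, hi, hρ, w', hw', hag⟩ := h.lay3
  have hs := P3_sign hw'
  obtain ⟨ρ', hi', hρ', hs'⟩ : ∃ ρ' : Equiv.Perm (E a), Inv D' ρ' ∧ OneOrSwap ρ' ∧
      Equiv.Perm.sign (g.π * ρ') = 1 := by
    rcases hρ with rfl | hρ
    · exact ⟨1, fun p _ => by cases p <;> simp [fixP], Or.inl rfl, hs⟩
    · obtain ⟨ρ', h1, h2⟩ := hB.swap
      refine ⟨ρ', h1, Or.inr h2, ?_⟩
      rw [Equiv.Perm.sign_mul, h2.sign_eq]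
      rw [Equiv.Perm.sign_mul, hρ.sign_eq] at hs
      exact hs
  obtain ⟨w, hw, hag'⟩ := indep (hB.mono hD) hρ hρ' hi (fun p hp => hi' p (hD hp)) hw' hs'
  exact ⟨w, ⟨ρ', hi', hρ', hw⟩, fun A B v hp => (hag' A B v hp).trans (hag A B v hp).symm⟩

/-- the nodes of a set of points -/
noncomputable def nodes (D : Finset (Pt a)) : Finset (E a) :=
  univ.filter fun i => ∃ Z v, Pt.p2 i Z v ∈ D

lemma mem_nodes {D : Finset (Pt a)} {i : E a} : i ∈ nodes D ↔ ∃ Z v, Pt.p2 i Z v ∈ D := by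
  simp [nodes]

lemma card_nodes (D : Finset (Pt a)) : (nodes D).card ≤ D.card := by
  let idx : Pt a → Option (E a) := fun p => match p with
    | Pt.el _ => none
    | Pt.p2 i _ _ => some i
    | Pt.p3 _ _ _ => none
  have h : (nodes D).map Function.Embedding.some ⊆ D.image idx := by
    intro o ho
    obtain ⟨i, hi, rfl⟩ := Finset.mem_map.1 ho
    obtain ⟨Z, v, hp⟩ := mem_nodes.1 hi
    exact Finset.mem_image.2 ⟨_, hp, rfl⟩
  calc (nodes D).card = ((nodes D).map Function.Embedding.some).card := by simp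
    _ ≤ (D.image idx).card := card_le_card h
    _ ≤ D.card := card_image_le

/-- layer 2 data for a larger set -/
lemma Good.lay2_ext {ch ch' : E a → ZMod 2} {D : Finset (Pt a)} {g : Gd a}
    (h : Good ch ch' D g) (I' : Finset (E a)) (hI : (nodes D ∪ I').card < 2 * a) :
    ∃ x, Lnk g.π x ∧ (∀ i ∈ nodes D ∪ I', Nod ch ch' g.π x i) ∧
      ∀ i ∈ nodes D, ∀ j, x i j = g.x i j := by
  have hne : ∃ k, k ∉ nodes D ∪ I' := by
    by_contra hcon
    push Not at hcon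
    have h1 : nodes D ∪ I' = univ := Finset.eq_univ_iff_forall.2 hcon
    rw [h1, Finset.card_univ] at hI
    simp [E] at hI
    omega
  obtain ⟨k, hk⟩ := hne
  exact lnk_fix h.lnk (nodes D) I' (fun i hi => by
    obtain ⟨Z, v, hp⟩ := mem_nodes.1 hi
    exact h.nod i Z v hp) hk

lemma P2_congr {x y : E a → E a → ZMod 2} {i : E a} (h : ∀ j, x i j = y i j) (Z : Finset (E a)) :
    P2 x i Z = P2 y i Z := Finset.sum_congr rfl fun j _ => h j

theorem base_forth {ch ch' : E a → ZMod 2} {n : ℕ} (ha : 5 * 4 ^ n < 2 * a)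
    {D : Finset (Pt a)} {g : Gd a} (h : Good ch ch' D g) (hD : D.card < n) :
    ∃ f : Pt a ≃ Pt a, ∀ p, ∃ g', Good ch ch' (insert p D) g' ∧ (∀ q ∈ D, phi g' q = phi g q) ∧
      phi g' p = f p := by
  have hbig : ∀ p, Big (insert p D) := fun p =>
    big_of_card (n := n) _ ((card_insert_le _ _).trans hD) ha
  have hna : n < 2 * a := by
    have h1 : n < 4 ^ n := Nat.lt_pow_self (by norm_num)
    omega
  -- layer 3
  have h3 : ∀ A B : Finset (E a), ∃ w : Finset (E a) → ZMod 3,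
      (∃ ρ, Inv (insert (Pt.p3 A B 0) D) ρ ∧ OneOrSwap ρ ∧ w ∈ P3 (g.π * ρ)) ∧
      ∀ A' B' v, Pt.p3 A' B' v ∈ D → X3 A' B' w = X3 A' B' g.w := fun A B =>
    h.lay3_ext (subset_insert _ _) (hbig _)
  choose W hW hWag using h3
  -- layer 2
  have h2 : ∀ i : E a, ∃ x, Lnk g.π x ∧ (∀ j ∈ nodes D ∪ {i}, Nod ch ch' g.π x j) ∧
      ∀ j ∈ nodes D, ∀ l, x j l = g.x j l := fun i => by
    refine h.lay2_ext {i} ?_
    have h1 := card_union_le (nodes D) {i}
    have h2 := card_nodes D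
    rw [card_singleton] at h1
    omega
  choose X hXl hXn hXag using h2
  refine ⟨act g.π (fun i Z => P2 (X i) i Z) (fun A B => X3 A B (W A B)), ?_⟩
  rintro (i | ⟨i, Z, v⟩ | ⟨A, B, v⟩)
  · obtain ⟨w, ⟨ρ, hi, hρ, hw⟩, hag⟩ := h.lay3_ext (subset_insert (Pt.el i) D) (hbig _)
    refine ⟨⟨g.π, g.x, w⟩, ⟨h.lnk, ?_, ρ, hi, hρ, w, hw, fun _ _ _ _ => rfl⟩, ?_, rfl⟩
    · intro i' Z v hp
      rw [Finset.mem_insert] at hp
      rcases hp with hp | hp
      · cases hp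
      · exact h.nod i' Z v hp
    · rintro (i' | ⟨i', Z, v⟩ | ⟨A, B, v⟩) hq
      · rfl
      · rfl
      · simp only [phi_p3]; rw [hag A B v hq]
  · obtain ⟨w, ⟨ρ, hi, hρ, hw⟩, hag⟩ := h.lay3_ext (subset_insert (Pt.p2 i Z v) D) (hbig _)
    refine ⟨⟨g.π, X i, w⟩, ⟨hXl i, ?_, ρ, hi, hρ, w, hw, fun _ _ _ _ => rfl⟩, ?_, rfl⟩
    · intro i' Z' v' hp
      rw [Finset.mem_insert] at hp
      refine hXn i i' ?_
      rcases hp with hp | hp
      · cases hp; simp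
      · exact Finset.mem_union_left _ (mem_nodes.2 ⟨_, _, hp⟩)
    · rintro (i' | ⟨i', Z', v'⟩ | ⟨A, B, v'⟩) hq
      · rfl
      · simp only [phi_p2]
        rw [P2_congr (fun j => hXag i i' (mem_nodes.2 ⟨_, _, hq⟩) j)]
      · simp only [phi_p3]; rw [hag A B v' hq]
  · obtain ⟨ρ, hi, hρ, hw⟩ := hW A B
    refine ⟨⟨g.π, g.x, W A B⟩, ⟨h.lnk, ?_, ρ, ?_, hρ, W A B, hw, fun _ _ _ _ => rfl⟩, ?_, rfl⟩
    · intro i' Z v' hp
      rw [Finset.mem_insert] at hp
      rcases hp with hp | hp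
      · cases hp
      · exact h.nod i' Z v' hp
    · intro p hp
      rw [Finset.mem_insert] at hp
      rcases hp with rfl | hp
      · exact hi (Pt.p3 A B 0) (Finset.mem_insert_self _ _)
      · exact hi p (Finset.mem_insert_of_mem hp)
    · rintro (i' | ⟨i', Z', v'⟩ | ⟨A', B', v'⟩) hq
      · rfl
      · rfl
      · simp only [phi_p3]; rw [hWag A B A' B' v' hq]

end Pool.Agent.CoWL
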