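import Pool.Agent.CoWL.BaseForth

/-!
Frames: the affine families over `F₂` and over `F₃`.
-/

namespace Pool.Agent.CoWL

open Finset Classical

variable {a : ℕ}

lemma nodes_mono {D D' : Finset (Pt a)} (h : D' ⊆ D) : nodes D' ⊆ nodes D := by
  intro i hi
  obtain ⟨Z, v, hp⟩ := mem_nodes.1 hi
  exact mem_nodes.2 ⟨Z, v, h hp⟩

/-- changing the permutation by a hidden one, and the shifts outside, changes nothing on `D` -/
lemma phi_congr {D : Finset (Pt a)} {g : Gd a} {ρ : Equiv.Perm (E a)} {x : E a → E a → ZMod 2}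
    {w : Finset (E a) → ZMod 3} (hρ : Inv D ρ) (hx : ∀ i ∈ nodes D, ∀ j, x i j = g.x i j)
    (hw : ∀ A B v, Pt.p3 A B v ∈ D → X3 A B w = X3 A B g.w) :
    ∀ q ∈ D, phi ⟨g.π * ρ, x, w⟩ q = phi g q := by
  rintro (i | ⟨i, Z, v⟩ | ⟨A, B, v⟩) hq
  · have h1 : ρ i = i := hρ _ hq
    simp only [phi_el, Equiv.Perm.mul_apply, h1]
  · have h1 : ρ i = i ∧ im ρ Z = Z := hρ _ hq
    simp only [phi_p2, Equiv.Perm.mul_apply, im_mul, h1.1, h1.2]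
    rw [P2_congr (hx i (mem_nodes.2 ⟨_, _, hq⟩))]
  · have h1 : im ρ A = A ∧ im ρ B = B := hρ _ hq
    simp only [phi_p3, im_mul, h1.1, h1.2]
    rw [hw A B v hq]

lemma P2_add (x y : E a → E a → ZMod 2) (i : E a) (Z : Finset (E a)) :
    P2 (x + y) i Z = P2 x i Z + P2 y i Z := by
  simp [P2, Finset.sum_add_distrib]

lemma P2_sub (x y : E a → E a → ZMod 2) (i : E a) (Z : Finset (E a)) :
    P2 (x - y) i Z = P2 x i Z - P2 y i Z := by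
  simp [P2, Finset.sum_sub_distrib]

/-- forgetting the value of a point -/
def sh : Pt a → Pt a
  | Pt.el i => Pt.el i
  | Pt.p2 i Z _ => Pt.p2 i Z 0
  | Pt.p3 A B _ => Pt.p3 A B 0

/-- every point of `D` has the sets of some point of `D'` -/
def SubSh (D D' : Finset (Pt a)) : Prop := ∀ p ∈ D, ∃ p' ∈ D', sh p' = sh p

lemma subSh_map {g g' : Gd a} (h : g.π = g'.π) (D : Finset (Pt a)) :
    SubSh (D.map (phi g).symm.toEmbedding) (D.map (phi g').symm.toEmbedding) := by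
  intro p hp
  rw [Finset.mem_map] at hp
  obtain ⟨q, hq, rfl⟩ := hp
  refine ⟨(phi g').symm q, Finset.mem_map.2 ⟨q, hq, rfl⟩, ?_⟩
  rcases q with i | ⟨i, Z, v⟩ | ⟨A, B, v⟩
  · change Pt.el (g'.π⁻¹ i) = Pt.el (g.π⁻¹ i)
    rw [h]
  · change Pt.p2 (g'.π⁻¹ i) (im g'.π⁻¹ Z) 0 = Pt.p2 (g.π⁻¹ i) (im g.π⁻¹ Z) 0
    rw [h]
  · change Pt.p3 (im g'.π⁻¹ A) (im g'.π⁻¹ B) 0 = Pt.p3 (im g.π⁻¹ A) (im g.π⁻¹ B) 0
    rw [h]

lemma SubSh.union {D D' : Finset (Pt a)} (h : SubSh D D') (D₀ : Finset (Pt a)) :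
    SubSh (D ∪ D₀) (D' ∪ D₀) := by
  intro p hp
  rw [Finset.mem_union] at hp
  rcases hp with hp | hp
  · obtain ⟨p', hp', he⟩ := h p hp
    exact ⟨p', Finset.mem_union_left _ hp', he⟩
  · exact ⟨p, Finset.mem_union_right _ hp, rfl⟩

lemma SubSh.p2 {D D' : Finset (Pt a)} (h : SubSh D D') {i : E a} {Z : Finset (E a)} {v : ZMod 2}
    (hp : Pt.p2 i Z v ∈ D) : ∃ v', Pt.p2 i Z v' ∈ D' := by
  obtain ⟨p', hp', he⟩ := h _ hp
  rcases p' with i' | ⟨i', Z', v'⟩ | ⟨A', B', v'⟩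
  · simp [sh] at he
  · simp only [sh, Pt.p2.injEq, and_true] at he
    obtain ⟨rfl, rfl⟩ := he
    exact ⟨v', hp'⟩
  · simp [sh] at he

lemma SubSh.p3 {D D' : Finset (Pt a)} (h : SubSh D D') {A B : Finset (E a)} {v : ZMod 3}
    (hp : Pt.p3 A B v ∈ D) : ∃ v', Pt.p3 A B v' ∈ D' := by
  obtain ⟨p', hp', he⟩ := h _ hp
  rcases p' with i' | ⟨i', Z', v'⟩ | ⟨A', B', v'⟩
  · simp [sh] at he
  · simp [sh] at he
  · simp only [sh, Pt.p3.injEq, and_true] at he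
    obtain ⟨rfl, rfl⟩ := he
    exact ⟨v', hp'⟩

lemma SubSh.nodes {D D' : Finset (Pt a)} (h : SubSh D D') : nodes D ⊆ nodes D' := by
  intro i hi
  obtain ⟨Z, v, hp⟩ := mem_nodes.1 hi
  obtain ⟨v', hp'⟩ := h.p2 hp
  exact mem_nodes.2 ⟨Z, v', hp'⟩

lemma SubSh.inv {D D' : Finset (Pt a)} (h : SubSh D D') {ρ : Equiv.Perm (E a)} (hi : Inv D' ρ) :
    Inv D ρ := by
  intro p hp
  obtain ⟨p', hp', he⟩ := h p hp
  have h1 := hi p' hp'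
  rcases p' with i' | ⟨i', Z', v'⟩ | ⟨A', B', v'⟩ <;> rcases p with i | ⟨i, Z, v⟩ | ⟨A, B, v⟩ <;>
    simp_all [sh, fixP]

lemma SubSh.big {D D' : Finset (Pt a)} (h : SubSh D D') (hB : Big D') : Big D := by
  obtain ⟨T, hT, h'⟩ := hB
  exact ⟨T, hT, fun u hu v hv => h.inv (h' u hu v hv)⟩

theorem frame2 {ch ch' : E a → ZMod 2} {K : ℕ} (ha : 5 * 4 ^ (2 * K) < 2 * a)
    {D : Finset (Pt a)} {g : Gd a} (h : Good ch ch' D g) (hD : D.card ≤ K) :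
    Nonempty (Frame K phi (Good ch ch') D g (E a → E a → ZMod 2)) := by
  have hna : 2 * K < 2 * a := by
    have h1 : 2 * K < 4 ^ (2 * K) := Nat.lt_pow_self (by norm_num)
    omega
  obtain ⟨ρ, hi, hρ, w, hw, hag⟩ := h.lay3
  obtain ⟨x₀, hx₀, hx₀g⟩ := lnk_change h.lnk (nodes D) (ρ := ρ) (fun i hi' => by
    obtain ⟨Z, v, hp⟩ := mem_nodes.1 hi'
    exact (hi _ hp).1)
  have hN₀ : ∀ i ∈ nodes D, Nod ch ch' (g.π * ρ) x₀ i := by
    intro i hi'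
    obtain ⟨Z, v, hp⟩ := mem_nodes.1 hi'
    have h1 := h.nod i Z v hp
    have h2 : ρ i = i := (hi _ hp).1
    unfold Nod at h1 ⊢
    rw [P2_congr (hx₀g i hi'), h1, Equiv.Perm.mul_apply, h2]
  have hfix : ∀ (D₁ D₂ : Finset (Pt a)), D₁.card ≤ K → D₂.card ≤ K →
      ∀ x, Lnk (g.π * ρ) x → ∀ I ⊆ nodes D₁ ∪ nodes D, I ⊆ nodes D ∪ nodes D₁ →
      (∀ i ∈ I, Nod ch ch' (g.π * ρ) x i) → D₁ = D₂ →
      ∃ x', Lnk (g.π * ρ) x' ∧ (∀ i ∈ I ∪ nodes D₁, Nod ch ch' (g.π * ρ) x' i) ∧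
        ∀ i ∈ I, ∀ j, x' i j = x i j := by
    intro D₁ D₂ h1 _ x hx I hI hI' hN _
    have hne : ∃ k, k ∉ I ∪ nodes D₁ := by
      by_contra hcon
      push Not at hcon
      have h2 : I ∪ nodes D₁ = univ := Finset.eq_univ_iff_forall.2 hcon
      have h3 : (I ∪ nodes D₁).card ≤ 2 * K := by
        have h4 : I ∪ nodes D₁ ⊆ nodes D ∪ nodes D₁ :=
          Finset.union_subset hI' Finset.subset_union_right
        have h5 := card_le_card h4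
        have h6 := card_union_le (nodes D) (nodes D₁)
        have h7 := card_nodes D
        have h8 := card_nodes D₁
        omega
      rw [h2, Finset.card_univ] at h3
      simp [E] at h3
      omega
    obtain ⟨k, hk⟩ := hne
    exact lnk_fix hx I (nodes D₁) hN hk
  refine ⟨{
    Ψ := fun x => ⟨g.π * ρ, x, w⟩
    Y := fun D' => {x | Lnk (g.π * ρ) x ∧ (∀ i ∈ nodes D' ∪ nodes D, Nod ch ch' (g.π * ρ) x i) ∧
      ∀ i ∈ nodes D, ∀ j, x i j = g.x i j}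
    ne := ?_
    aff := ?_
    good := ?_
    transl := ?_
    surj := ?_
    res := ?_
    idx := ?_ }⟩
  · intro D' hD'
    obtain ⟨x', h1, h2, h3⟩ := hfix D' D' hD' hD' x₀ hx₀ (nodes D) Finset.subset_union_right
      Finset.subset_union_left hN₀ rfl
    refine ⟨x', h1, fun i hi' => h2 i ?_, fun i hi' j => (h3 i hi' j).trans (hx₀g i hi' j)⟩
    rwa [Finset.union_comm]
  · rintro D' f₁ f₂ f₃ ⟨h1, h2, h3⟩ ⟨h1', h2', h3'⟩ ⟨h1'', h2'', h3''⟩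
    refine ⟨?_, ?_, ?_⟩
    · intro i j hij
      have e1 := h1 i j hij
      have e2 := h1' i j hij
      have e3 := h1'' i j hij
      simp only [Pi.add_apply, Pi.sub_apply]
      linear_combination e1 + e2 - e3
    · intro i hi'
      have e1 := h2 i hi'
      have e2 := h2' i hi'
      have e3 := h2'' i hi'
      unfold Nod at *
      rw [P2_add, P2_sub]
      linear_combination e1 + e2 - e3
    · intro i hi' j
      have e1 := h3 i hi' j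
      have e2 := h3' i hi' j
      have e3 := h3'' i hi' j
      simp only [Pi.add_apply, Pi.sub_apply]
      linear_combination e1 + e2 - e3
  · rintro D' f ⟨h1, h2, h3⟩
    refine ⟨⟨h1, ?_, 1, ?_, Or.inl rfl, w, by simpa using hw, fun _ _ _ _ => rfl⟩, ?_⟩
    · intro i Z v hp
      exact h2 i (Finset.mem_union_left _ (mem_nodes.2 ⟨_, _, hp⟩))
    · intro p _; cases p <;> simp [fixP]
    · exact phi_congr hi h3 (fun A B v hp => (hag A B v hp).symm)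
  · rintro f f' d (i | ⟨i, Z, v⟩ | ⟨A, B, v⟩) hf
    · rfl
    · simp only [phi_p2, Pt.p2.injEq, add_right_inj, true_and] at hf ⊢
      rw [P2_add, P2_add, hf]
    · rfl
  · rintro D' D'' hsub hD'' f ⟨h1, h2, h3⟩
    obtain ⟨x', h1', h2', h3'⟩ := hfix D'' D'' hD'' hD'' f h1 (nodes D' ∪ nodes D)
      (Finset.union_subset_union (nodes_mono hsub) subset_rfl)
      (by rw [Finset.union_comm]; exact Finset.union_subset_union subset_rfl (nodes_mono hsub))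
      h2 rfl
    refine ⟨x', ⟨h1', fun i hi' => h2' i ?_, fun i hi' j =>
      (h3' i (Finset.mem_union_right _ hi') j).trans (h3 i hi' j)⟩, ?_⟩
    · rw [Finset.mem_union] at hi'
      rcases hi' with hi' | hi'
      · exact Finset.mem_union_right _ hi'
      · exact Finset.mem_union_left _ (Finset.mem_union_right _ hi')
    · rintro (i | ⟨i, Z, v⟩ | ⟨A, B, v⟩) hq
      · rfl
      · simp only [phi_p2]
        rw [P2_congr (h3' i (Finset.mem_union_left _ (mem_nodes.2 ⟨_, _, hq⟩)))]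
      · rfl
  · rintro D' D'' hsub hD'' f ⟨h1, h2, h3⟩
    exact ⟨f, ⟨h1, fun i hi' => h2 i (Finset.union_subset_union (nodes_mono hsub) subset_rfl hi'),
      h3⟩, fun _ _ => rfl⟩
  · intro f f' D'
    have h1 : nodes (D'.map (phi ⟨g.π * ρ, f, w⟩).symm.toEmbedding) =
        nodes (D'.map (phi ⟨g.π * ρ, f', w⟩).symm.toEmbedding) :=
      Finset.Subset.antisymm
        (subSh_map (g := ⟨g.π * ρ, f, w⟩) (g' := ⟨g.π * ρ, f', w⟩) rfl D').nodes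
        (subSh_map (g := ⟨g.π * ρ, f', w⟩) (g' := ⟨g.π * ρ, f, w⟩) rfl D').nodes
    simp only [h1]

/-- a good map with odd permutation and a perfect solution of layer 2 -/
lemma Good.odd {ch ch' : E a → ZMod 2} (hch : ∑ i, ch i + ∑ i, ch' i = 1)
    {D : Finset (Pt a)} {g : Gd a} (h : Good ch ch' D g) (hB : Big D)
    (hD : D.card < 2 * a) :
    ∃ g₁ : Gd a, Good ch ch' D g₁ ∧ (∀ q ∈ D, phi g₁ q = phi g q) ∧
      Equiv.Perm.sign g₁.π ≠ 1 ∧ (∀ i, Nod ch ch' g₁.π g₁.x i) := by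
  obtain ⟨ρ, hi, hρ, w, hw, hag⟩ := h.lay3
  -- the permutation
  obtain ⟨ρ₁, hi₁, hs₁, ρ₂, hi₂, hρ₂, hw₂⟩ : ∃ ρ₁ : Equiv.Perm (E a), Inv D ρ₁ ∧
      Equiv.Perm.sign (g.π * ρ₁) ≠ 1 ∧ ∃ ρ₂ : Equiv.Perm (E a), Inv D ρ₂ ∧ OneOrSwap ρ₂ ∧
      w ∈ P3 (g.π * ρ₁ * ρ₂) := by
    have hs := P3_sign hw
    rcases hρ with rfl | hρ
    · obtain ⟨τ, h1, h2⟩ := hB.swap
      refine ⟨τ, h1, ?_, τ, h1, Or.inr h2, ?_⟩
      · rw [mul_one] at hs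
        rw [Equiv.Perm.sign_mul, h2.sign_eq, hs]
        decide
      · obtain ⟨u, v, huv, rfl⟩ := h2
        rw [mul_assoc, Equiv.swap_mul_self]
        exact hw
    · refine ⟨1, fun p _ => by cases p <;> simp [fixP], ?_, ρ, hi, Or.inr hρ, by simpa using hw⟩
      rw [Equiv.Perm.sign_mul, hρ.sign_eq] at hs
      rw [mul_one]
      intro hcon
      rw [hcon] at hs
      exact absurd hs (by decide)
  -- layer 2
  obtain ⟨x₀, hx₀, hx₀g⟩ := lnk_change h.lnk (nodes D) (ρ := ρ₁) (fun i hi' => by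
    obtain ⟨Z, v, hp⟩ := mem_nodes.1 hi'
    exact (hi₁ _ hp).1)
  have hN₀ : ∀ i ∈ nodes D, Nod ch ch' (g.π * ρ₁) x₀ i := by
    intro i hi'
    obtain ⟨Z, v, hp⟩ := mem_nodes.1 hi'
    have h1 := h.nod i Z v hp
    have h2 : ρ₁ i = i := (hi₁ _ hp).1
    unfold Nod at h1 ⊢
    rw [P2_congr (hx₀g i hi'), h1, Equiv.Perm.mul_apply, h2]
  obtain ⟨x₁, hx₁, hN₁, hx₁g⟩ := lnk_perfect hx₀ hs₁ hch (nodes D) hN₀ (by
    intro hcon
    have h1 := card_nodes D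
    rw [hcon, Finset.card_univ] at h1
    simp [E] at h1
    omega)
  refine ⟨⟨g.π * ρ₁, x₁, g.w⟩, ⟨hx₁, fun i _ _ _ => hN₁ i, ρ₂, hi₂, hρ₂, w, hw₂, hag⟩, ?_,
    hs₁, hN₁⟩
  exact phi_congr hi₁ (fun i hi' j => (hx₁g i hi' j).trans (hx₀g i hi' j)) (fun _ _ _ _ => rfl)

theorem frame3 {ch ch' : E a → ZMod 2} (hch : ∑ i, ch i + ∑ i, ch' i = 1) {K : ℕ}
    (ha : 5 * 4 ^ (2 * K) < 2 * a) {D : Finset (Pt a)} {g : Gd a} (h : Good ch ch' D g)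
    (hD : D.card ≤ K) :
    Nonempty (Frame K phi (Good ch ch') D g (Finset (E a) → ZMod 3)) := by
  have hna : 2 * K < 2 * a := by
    have h1 : 2 * K < 4 ^ (2 * K) := Nat.lt_pow_self (by norm_num)
    omega
  have hbig : ∀ D' : Finset (Pt a), D'.card ≤ K → Big (D' ∪ D) := fun D' hD' =>
    big_of_card (n := 2 * K) _ ((card_union_le _ _).trans (by omega)) ha
  have hB : Big D := big_of_card (n := 2 * K) _ (by omega) ha
  obtain ⟨g₁, hg₁, hφ, hs₁, hN₁⟩ := h.odd hch hB (by omega)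
  -- the family
  let C : Finset (Pt a) → (Finset (E a) → ZMod 3) → Prop := fun D' w =>
    ∃ ρ, Inv D' ρ ∧ OneOrSwap ρ ∧ ∃ w' ∈ P3 (g₁.π * ρ), ∀ A B v, Pt.p3 A B v ∈ D' →
      X3 A B w = X3 A B w'
  have hmove : ∀ D' D'' w, Big D'' → D' ⊆ D'' → C D' w → ∃ w', C D'' w' ∧
      ∀ A B v, Pt.p3 A B v ∈ D' → X3 A B w' = X3 A B w := by
    rintro D' D'' w hB'' hsub ⟨ρ, hi, hρ, w', hw', hag⟩
    have hgood : Good ch ch' D' ⟨g₁.π, g₁.x, w⟩ :=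
      ⟨hg₁.lnk, fun i _ _ _ => hN₁ i, ρ, hi, hρ, w', hw', hag⟩
    obtain ⟨w'', ⟨ρ'', h1, h2, h3⟩, h4⟩ := hgood.lay3_ext hsub hB''
    exact ⟨w'', ⟨ρ'', h1, h2, w'', h3, fun _ _ _ _ => rfl⟩, h4⟩
  refine ⟨{
    Ψ := fun w => ⟨g₁.π, g₁.x, w⟩
    Y := fun D' => {w | Big (D' ∪ D) ∧ C (D' ∪ D) w ∧
      ∀ A B v, Pt.p3 A B v ∈ D → X3 A B w = X3 A B g₁.w}
    ne := ?_
    aff := ?_
    good := ?_
    transl := ?_
    surj := ?_
    res := ?_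
    idx := ?_ }⟩
  · intro D' hD'
    obtain ⟨w', h1, h2⟩ := hmove D (D' ∪ D) g₁.w (hbig D' hD') Finset.subset_union_right
      hg₁.lay3
    exact ⟨w', hbig D' hD', h1, h2⟩
  · rintro D' f₁ f₂ f₃ ⟨hB', ⟨ρ₁, hi₁, hρ₁, w₁, hw₁, e₁⟩, k₁⟩ ⟨-, ⟨ρ₂, hi₂, hρ₂, w₂, hw₂, e₂⟩, k₂⟩
      ⟨-, ⟨ρ₃, hi₃, hρ₃, w₃, hw₃, e₃⟩, k₃⟩
    have hs := P3_sign hw₁
    obtain ⟨w₂', hw₂', e₂'⟩ := indep hB' hρ₂ hρ₁ hi₂ hi₁ hw₂ hs
    obtain ⟨w₃', hw₃', e₃'⟩ := indep hB' hρ₃ hρ₁ hi₃ hi₁ hw₃ hs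
    refine ⟨hB', ⟨ρ₁, hi₁, hρ₁, w₁ + (w₂' - w₃'), P3_aff hw₁ hw₂' hw₃', ?_⟩, ?_⟩
    · intro A B v hp
      rw [X3_add, X3_sub, X3_add, X3_sub, e₁ A B v hp, e₂ A B v hp, e₃ A B v hp, e₂' A B v hp,
        e₃' A B v hp]
    · intro A B v hp
      rw [X3_add, X3_sub, k₁ A B v hp, k₂ A B v hp, k₃ A B v hp]
      ring
  · rintro D' f ⟨-, ⟨ρ, hi, hρ, w, hw, e⟩, k⟩
    refine ⟨⟨hg₁.lnk, fun i _ _ _ => hN₁ i, ρ, fun p hp => hi p (Finset.mem_union_left _ hp), hρ,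
      w, hw, fun A B v hp => e A B v (Finset.mem_union_left _ hp)⟩, ?_⟩
    rintro q hq
    rw [← hφ q hq]
    rcases q with i | ⟨i, Z, v⟩ | ⟨A, B, v⟩
    · rfl
    · rfl
    · simp only [phi_p3]
      rw [k A B v hq]
  · rintro f f' d (i | ⟨i, Z, v⟩ | ⟨A, B, v⟩) hf
    · rfl
    · rfl
    · simp only [phi_p3, Pt.p3.injEq, add_right_inj, true_and] at hf ⊢
      rw [X3_add, X3_add, hf]
  · rintro D' D'' hsub hD'' f ⟨hB', hC, k⟩
    obtain ⟨w', h1, h2⟩ := hmove (D' ∪ D) (D'' ∪ D) f (hbig D'' hD'')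
      (Finset.union_subset_union hsub subset_rfl) hC
    refine ⟨w', ⟨hbig D'' hD'', h1, fun A B v hp =>
      (h2 A B v (Finset.mem_union_right _ hp)).trans (k A B v hp)⟩, ?_⟩
    rintro (i | ⟨i, Z, v⟩ | ⟨A, B, v⟩) hq
    · rfl
    · rfl
    · simp only [phi_p3]
      rw [h2 A B v (Finset.mem_union_left _ hq)]
  · rintro D' D'' hsub hD'' f ⟨hB', ⟨ρ, hi, hρ, w, hw, e⟩, k⟩
    have hs : D' ∪ D ⊆ D'' ∪ D := Finset.union_subset_union hsub subset_rfl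
    exact ⟨f, ⟨hB'.mono hs, ⟨ρ, fun p hp => hi p (hs hp), hρ, w, hw,
      fun A B v hp => e A B v (hs hp)⟩, k⟩, fun _ _ => rfl⟩
  · have key : ∀ D₁ D₂ : Finset (Pt a), SubSh D₁ D₂ → SubSh D₂ D₁ → ∀ w,
        (Big (D₁ ∪ D) ∧ C (D₁ ∪ D) w ∧ ∀ A B v, Pt.p3 A B v ∈ D → X3 A B w = X3 A B g₁.w) →
        (Big (D₂ ∪ D) ∧ C (D₂ ∪ D) w ∧ ∀ A B v, Pt.p3 A B v ∈ D → X3 A B w = X3 A B g₁.w) := by
      rintro D₁ D₂ h12 h21 f ⟨hB', ⟨ρ, hi, hρ, w, hw, e⟩, k⟩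
      refine ⟨(h21.union D).big hB', ⟨ρ, (h21.union D).inv hi, hρ, w, hw, ?_⟩, k⟩
      intro A B v hp
      obtain ⟨v', hp'⟩ := (h21.union D).p3 hp
      exact e A B v' hp'
    intro f f' D'
    ext w
    have h1 := subSh_map (g := ⟨g₁.π, g₁.x, f⟩) (g' := ⟨g₁.π, g₁.x, f'⟩) rfl D'
    have h2 := subSh_map (g := ⟨g₁.π, g₁.x, f'⟩) (g' := ⟨g₁.π, g₁.x, f⟩) rfl D'
    exact ⟨key _ _ h1 h2 w, key _ _ h2 h1 w⟩

end Pool.Agent.CoWL
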