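import Pool.Agent.CoWL.Base

/-!
Layer 3: the system over `F₃` that is solvable exactly for even permutations.
-/

namespace Pool.Agent.CoWL

open Finset Classical

variable {a : ℕ}

@[simp] lemma X3_empty (A : Finset (E a)) (w) : X3 A ∅ w = w A := by
  simp [X3]

lemma X3_insert {j : E a} {A B : Finset (E a)} (w) (hB : j ∉ B) :
    X3 A (insert j B) w = X3 A B w + X3 (insert j A) B w := by
  unfold X3
  rw [Finset.sum_powerset_insert hB]
  congr 1
  refine Finset.sum_congr rfl fun J _ => ?_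
  congr 1
  ext i; simp

lemma X3_add (A B : Finset (E a)) (w w' : Finset (E a) → ZMod 3) :
    X3 A B (w + w') = X3 A B w + X3 A B w' := by
  simp [X3, Finset.sum_add_distrib]

lemma X3_neg (A B : Finset (E a)) (w : Finset (E a) → ZMod 3) :
    X3 A B (-w) = - X3 A B w := by
  simp [X3]

lemma X3_sub (A B : Finset (E a)) (w w' : Finset (E a) → ZMod 3) :
    X3 A B (w - w') = X3 A B w - X3 A B w' := by
  simp [X3, Finset.sum_sub_distrib]

lemma X3_smul (A B : Finset (E a)) (c : ZMod 3) (w : Finset (E a) → ZMod 3) :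
    X3 A B (c • w) = c * X3 A B w := by
  simp [X3, Finset.mul_sum]

lemma im_subset {π : Equiv.Perm (E a)} {A B : Finset (E a)} :
    im π A ⊆ im π B ↔ A ⊆ B := by
  unfold im; exact Finset.map_subset_map

lemma X3_comp (ρ : Equiv.Perm (E a)) (A B : Finset (E a)) (w : Finset (E a) → ZMod 3) :
    X3 A B (fun J => w (im ρ J)) = X3 (im ρ A) (im ρ B) w := by
  unfold X3
  refine Finset.sum_nbij' (im ρ) (im ρ⁻¹) ?_ ?_ ?_ ?_ ?_
  · intro J hJ
    rw [Finset.mem_powerset] at hJ ⊢
    exact im_subset.2 hJ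
  · intro J hJ
    rw [Finset.mem_powerset] at hJ ⊢
    rw [← im_inv_im ρ B]
    exact im_subset.2 hJ
  · intro J _; simp
  · intro J _; simp
  · intro J _
    show w (im ρ (A ∪ J)) = _
    rw [im_union]

lemma P3_comp {π ρ : Equiv.Perm (E a)} {w w' : Finset (E a) → ZMod 3} (h : w ∈ P3 π)
    (h' : w' ∈ P3 ρ) : (fun J => w (im ρ J)) + w' ∈ P3 (π * ρ) := by
  refine ⟨fun A hA => ?_, fun ω hω => ?_⟩
  · rw [Pi.add_apply, h.1 _ (by simpa using hA), h'.1 _ hA, add_zero]
  · rw [X3_add, X3_comp, im_empty, h.2 _ (by simpa using hω), h'.2 _ hω, im_mul]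
    ring

lemma P3_aff {π : Equiv.Perm (E a)} {w₁ w₂ w₃ : Finset (E a) → ZMod 3} (h₁ : w₁ ∈ P3 π)
    (h₂ : w₂ ∈ P3 π) (h₃ : w₃ ∈ P3 π) : w₁ + (w₂ - w₃) ∈ P3 π := by
  refine ⟨fun A hA => ?_, fun ω hω => ?_⟩
  · rw [Pi.add_apply, Pi.sub_apply, h₁.1 _ hA, h₂.1 _ hA, h₃.1 _ hA]; ring
  · rw [X3_add, X3_sub, h₁.2 _ hω, h₂.2 _ hω, h₃.2 _ hω]; ring

lemma P3_inv {π : Equiv.Perm (E a)} {w : Finset (E a) → ZMod 3} (h : w ∈ P3 π) :
    (fun J => - w (im π⁻¹ J)) ∈ P3 π⁻¹ := by
  refine ⟨fun A hA => ?_, fun ω hω => ?_⟩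
  · show - w (im π⁻¹ A) = 0
    rw [h.1 _ (by simpa using hA), neg_zero]
  · have : (fun J => - w (im π⁻¹ J)) = - (fun J => w (im π⁻¹ J)) := rfl
    rw [this, X3_neg, X3_comp, im_empty, h.2 _ (by simpa using hω), im_im_inv]
    ring

/-! ### The module `N` of functions of degree `< a` on the slice -/

/-- functions on the slice that are polynomials of degree less than `a` -/
def NN (a : ℕ) : Submodule (ZMod 3) (Finset (E a) → ZMod 3) where
  carrier := {f | ∃ w : Finset (E a) → ZMod 3, (∀ A, A.card = a → w A = 0) ∧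
    ∀ ω, ω.card = a → X3 ∅ ω w = f ω}
  zero_mem' := ⟨0, fun _ _ => rfl, fun ω _ => by simp [X3]⟩
  add_mem' := by
    rintro f g ⟨w, h1, h2⟩ ⟨w', h1', h2'⟩
    refine ⟨w + w', fun A hA => ?_, fun ω hω => ?_⟩
    · rw [Pi.add_apply, h1 _ hA, h1' _ hA, add_zero]
    · rw [X3_add, h2 _ hω, h2' _ hω]; rfl
  smul_mem' := by
    rintro c f ⟨w, h1, h2⟩
    refine ⟨c • w, fun A hA => ?_, fun ω hω => ?_⟩
    · rw [Pi.smul_apply, h1 _ hA, smul_zero]
    · rw [X3_smul, h2 _ hω]; rfl

/-- the action of a permutation on functions -/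
def comp (π : Equiv.Perm (E a)) (f : Finset (E a) → ZMod 3) : Finset (E a) → ZMod 3 :=
  fun ω => f (im π ω)

lemma NN_comp {f : Finset (E a) → ZMod 3} (hf : f ∈ NN a) (π : Equiv.Perm (E a)) :
    comp π f ∈ NN a := by
  obtain ⟨w, h1, h2⟩ := hf
  refine ⟨comp π w, fun A hA => ?_, fun ω hω => ?_⟩
  · exact h1 _ (by simpa using hA)
  · show X3 ∅ ω (fun J => w (im π J)) = f (im π ω)
    rw [X3_comp, im_empty, h2 _ (by simpa using hω)]

lemma NN_congr {f g : Finset (E a) → ZMod 3} (hf : f ∈ NN a)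
    (h : ∀ ω, ω.card = a → f ω = g ω) : g ∈ NN a := by
  obtain ⟨w, h1, h2⟩ := hf
  exact ⟨w, h1, fun ω hω => by rw [h2 _ hω, h _ hω]⟩

/-- the monomial `x_J` -/
def mono (J : Finset (E a)) : Finset (E a) → ZMod 3 := fun ω => if J ⊆ ω then 1 else 0

lemma mono_mem {J : Finset (E a)} (hJ : J.card < a) : mono J ∈ NN a := by
  refine ⟨Pi.single J 1, fun A hA => ?_, fun ω hω => ?_⟩
  · rw [Pi.single_apply, if_neg]
    rintro rfl; omega
  · simp only [X3, Finset.empty_union, mono, Pi.single_apply]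
    rw [Finset.sum_ite_eq']
    simp only [Finset.mem_powerset]

/-- functions of degree at most `d` -/
def MS (a d : ℕ) : Submodule (ZMod 3) (Finset (E a) → ZMod 3) :=
  Submodule.span (ZMod 3) {f | ∃ J : Finset (E a), J.card ≤ d ∧ f = mono J}

lemma MS_le {d : ℕ} (hd : d < a) : MS a d ≤ NN a := by
  unfold MS
  rw [Submodule.span_le]
  rintro f ⟨J, hJ, rfl⟩
  exact mono_mem (lt_of_le_of_lt hJ hd)

/-- coordinate function -/
def chi (e : E a) : Finset (E a) → ZMod 3 := fun ω => if e ∈ ω then 1 else 0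

lemma mono_mul_chi (J : Finset (E a)) (e : E a) : mono J * chi e = mono (insert e J) := by
  ext1 ω
  simp only [mono, chi, Pi.mul_apply, Finset.insert_subset_iff]
  by_cases h1 : J ⊆ ω <;> by_cases h2 : e ∈ ω <;> simp [h1, h2]

lemma MS_mul_chi {d : ℕ} {f : Finset (E a) → ZMod 3} (hf : f ∈ MS a d) (e : E a) :
    f * chi e ∈ MS a (d + 1) := by
  unfold MS at hf ⊢
  induction hf using Submodule.span_induction with
  | mem x hx =>
    obtain ⟨J, hJ, rfl⟩ := hx
    refine Submodule.subset_span ⟨insert e J, ?_, mono_mul_chi J e⟩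
    exact (Finset.card_insert_le _ _).trans (by omega)
  | zero => simp
  | add x y _ _ hx hy => rw [add_mul]; exact Submodule.add_mem _ hx hy
  | smul c x _ hx => rw [smul_mul_assoc]; exact Submodule.smul_mem _ _ hx

/-- the factor `x_l - y_l` -/
def fac (l : Fin a) : Finset (E a) → ZMod 3 := chi (l, true) - chi (l, false)

lemma cc_eq (ω : Finset (E a)) : cc ω = ∏ l, fac l ω := rfl

lemma MS_prod (T : Finset (Fin a)) : (∏ l ∈ T, fac l) ∈ MS a T.card := by
  induction T using Finset.induction_on with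
  | empty =>
    rw [Finset.prod_empty]
    refine Submodule.subset_span ⟨∅, by simp, ?_⟩
    ext ω; simp [mono]
  | insert l T hl ih =>
    rw [Finset.prod_insert hl, Finset.card_insert_of_notMem hl, mul_comm, fac, mul_sub]
    exact Submodule.sub_mem _ (MS_mul_chi ih _) (MS_mul_chi ih _)

/-! ### The functional -/

/-- the transversal given by `β` -/
def Tr (β : Fin a → Bool) : Finset (E a) := Finset.univ.image fun l => (l, β l)

lemma mem_Tr {β : Fin a → Bool} {e : E a} : e ∈ Tr β ↔ β e.1 = e.2 := by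
  unfold Tr
  simp only [Finset.mem_image, Finset.mem_univ, true_and]
  constructor
  · rintro ⟨l, rfl⟩; rfl
  · intro h; exact ⟨e.1, by rw [h]⟩

lemma card_Tr (β : Fin a → Bool) : (Tr β).card = a := by
  unfold Tr
  rw [Finset.card_image_of_injective _ (fun l l' h => (Prod.ext_iff.1 h).1)]
  simp

/-- the sign of a transversal -/
def sg (β : Fin a → Bool) : ZMod 3 := ∏ l, if β l then 1 else -1

lemma cc_Tr (β : Fin a → Bool) : cc (Tr β) = sg β := by
  unfold cc sg
  refine Finset.prod_congr rfl fun l _ => ?_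
  simp only [mem_Tr]
  cases β l <;> simp

lemma sg_sq (β : Fin a → Bool) : sg β * sg β = 1 := by
  unfold sg
  rw [← Finset.prod_mul_distrib]
  refine Finset.prod_eq_one fun l _ => ?_
  cases β l <;> simp

/-- the functional -/
def Lam (f : Finset (E a) → ZMod 3) : ZMod 3 := ∑ β : Fin a → Bool, sg β * f (Tr β)

lemma Lam_add (f g : Finset (E a) → ZMod 3) : Lam (f + g) = Lam f + Lam g := by
  simp [Lam, mul_add, Finset.sum_add_distrib]

lemma Lam_cc : Lam (cc (a := a)) = 2 ^ a := by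
  unfold Lam
  simp only [cc_Tr, sg_sq]
  simp

/-- flip one coordinate -/
def flp (l : Fin a) (β : Fin a → Bool) : Fin a → Bool := Function.update β l (!(β l))

lemma flp_flp (l : Fin a) (β : Fin a → Bool) : flp l (flp l β) = β := by
  ext i
  by_cases h : i = l
  · subst h; simp [flp]
  · simp [flp, h]

lemma sg_flp (l : Fin a) (β : Fin a → Bool) : sg (flp l β) = - sg β := by
  unfold sg
  rw [← Finset.mul_prod_erase _ _ (Finset.mem_univ l),
    ← Finset.mul_prod_erase _ (fun i => if β i then (1 : ZMod 3) else -1) (Finset.mem_univ l)]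
  have : ∏ x ∈ Finset.univ.erase l, (if flp l β x = true then (1 : ZMod 3) else -1) =
      ∏ x ∈ Finset.univ.erase l, (if β x = true then (1 : ZMod 3) else -1) := by
    refine Finset.prod_congr rfl fun x hx => ?_
    rw [flp, Function.update_of_ne (Finset.ne_of_mem_erase hx)]
  rw [this]
  simp only [flp, Function.update_self]
  cases β l <;> simp

lemma two_mul_eq_zero' {z : ZMod 3} (h : z = -z) : z = 0 := by
  revert h; revert z; decide

lemma sum_sg_eq_zero {J : Finset (E a)} (hJ : J.card < a) :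
    ∑ β : Fin a → Bool, sg β * (if J ⊆ Tr β then 1 else 0) = 0 := by
  obtain ⟨l, hl⟩ : ∃ l : Fin a, ∀ e ∈ J, e.1 ≠ l := by
    by_contra hcon
    push Not at hcon
    have : (Finset.univ : Finset (Fin a)) ⊆ J.image Prod.fst := by
      intro l _
      obtain ⟨e, he, hel⟩ := hcon l
      exact Finset.mem_image.2 ⟨e, he, hel⟩
    have h1 := Finset.card_le_card this
    have h2 := Finset.card_image_le (s := J) (f := Prod.fst)
    simp at h1
    omega
  apply two_mul_eq_zero'
  rw [← Finset.sum_neg_distrib]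
  refine Finset.sum_nbij' (flp l) (flp l) (by simp) (by simp) (fun β _ => flp_flp l β)
    (fun β _ => flp_flp l β) fun β _ => ?_
  rw [sg_flp]
  have : J ⊆ Tr (flp l β) ↔ J ⊆ Tr β := by
    refine forall₂_congr fun e he => ?_
    rw [mem_Tr, mem_Tr, flp, Function.update_of_ne (hl e he)]
  simp only [this]
  ring

lemma Lam_NN {f : Finset (E a) → ZMod 3} (hf : f ∈ NN a) : Lam f = 0 := by
  obtain ⟨w, h1, h2⟩ := hf
  have h3 : ∀ β : Fin a → Bool, f (Tr β) =
      ∑ J : Finset (E a), (if J ⊆ Tr β then 1 else 0) * w J := by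
    intro β
    rw [← h2 _ (card_Tr β)]
    simp only [X3, Finset.empty_union, ite_mul, one_mul, zero_mul]
    rw [← Finset.sum_filter]
    refine Finset.sum_congr ?_ fun _ _ => rfl
    ext J; simp
  unfold Lam
  simp only [h3, Finset.mul_sum]
  rw [Finset.sum_comm]
  refine Finset.sum_eq_zero fun J _ => ?_
  by_cases hJ : J.card < a
  · have := sum_sg_eq_zero hJ
    have h4 : ∑ β : Fin a → Bool, sg β * ((if J ⊆ Tr β then 1 else 0) * w J) =
        (∑ β : Fin a → Bool, sg β * (if J ⊆ Tr β then 1 else 0)) * w J := by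
      rw [Finset.sum_mul]
      exact Finset.sum_congr rfl fun β _ => by ring
    rw [h4, this, zero_mul]
  · refine Finset.sum_eq_zero fun β _ => ?_
    by_cases hβ : J ⊆ Tr β
    · have h5 := Finset.card_le_card hβ
      rw [card_Tr] at h5
      rw [h1 J (by omega)]; ring
    · simp [hβ]

/-! ### The effect of a transposition -/

lemma mem_im_swap (u v : E a) (ω : Finset (E a)) (e : E a) :
    e ∈ im (Equiv.swap u v) ω ↔ Equiv.swap u v e ∈ ω := by
  rw [mem_im, Equiv.symm_swap]

lemma chi_swap_other {u v e : E a} (h1 : e ≠ u) (h2 : e ≠ v) (ω : Finset (E a)) :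
    chi e (im (Equiv.swap u v) ω) = chi e ω := by
  simp only [chi, mem_im_swap, Equiv.swap_apply_of_ne_of_ne h1 h2]

lemma chi_swap_left (u v : E a) (ω : Finset (E a)) :
    chi u (im (Equiv.swap u v) ω) = chi v ω := by
  simp only [chi, mem_im_swap, Equiv.swap_apply_left]

lemma chi_swap_right (u v : E a) (ω : Finset (E a)) :
    chi v (im (Equiv.swap u v) ω) = chi u ω := by
  simp only [chi, mem_im_swap, Equiv.swap_apply_right]

lemma fac_swap_other {u v : E a} {l : Fin a} (h1 : l ≠ u.1) (h2 : l ≠ v.1)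
    (ω : Finset (E a)) : fac l (im (Equiv.swap u v) ω) = fac l ω := by
  simp only [fac, Pi.sub_apply]
  rw [chi_swap_other, chi_swap_other] <;> rintro rfl <;> simp_all

/-- number of elements of `ω` in the pair `l` -/
def cnt (l : Fin a) (ω : Finset (E a)) : ℕ :=
  (if (l, true) ∈ ω then 1 else 0) + (if (l, false) ∈ ω then 1 else 0)

lemma sum_cnt (ω : Finset (E a)) : ∑ l, cnt l ω = ω.card := by
  have : ω.card = ∑ e : E a, if e ∈ ω then 1 else 0 := by simp
  rw [this, Fintype.sum_prod_type]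
  refine Finset.sum_congr rfl fun l _ => ?_
  rw [Fintype.sum_bool]
  rfl

lemma cnt_of_fac {l : Fin a} {ω : Finset (E a)} (h : fac l ω ≠ 0) : cnt l ω = 1 := by
  unfold fac chi at h
  unfold cnt
  by_cases h1 : (l, true) ∈ ω <;> by_cases h2 : (l, false) ∈ ω <;> simp_all

lemma swap_same {l : Fin a} {s t : Bool} (h : s ≠ t) (ω : Finset (E a)) :
    cc (im (Equiv.swap (l, s) (l, t)) ω) = - cc ω := by
  rw [cc_eq, cc_eq, ← Finset.mul_prod_erase _ _ (Finset.mem_univ l),
    ← Finset.mul_prod_erase _ (fun i => fac i ω) (Finset.mem_univ l)]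
  have h1 : ∏ x ∈ Finset.univ.erase l, fac x (im (Equiv.swap (l, s) (l, t)) ω) =
      ∏ x ∈ Finset.univ.erase l, fac x ω := by
    refine Finset.prod_congr rfl fun x hx => ?_
    have := Finset.ne_of_mem_erase hx
    exact fac_swap_other this this ω
  have h2 : fac l (im (Equiv.swap (l, s) (l, t)) ω) = - fac l ω := by
    simp only [fac, Pi.sub_apply]
    cases s <;> cases t
    · exact absurd rfl h
    · rw [chi_swap_left, chi_swap_right]; ring
    · rw [chi_swap_left, chi_swap_right]; ring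
    · exact absurd rfl h
  rw [h1, h2]; ring

/-- sign attached to an element of a pair -/
def eps : Bool → ZMod 3
  | true => 1
  | false => -1

lemma swap_diff {i j : Fin a} (hij : i ≠ j) (s t : Bool) {ω : Finset (E a)}
    (hω : ω.card = a) :
    cc (im (Equiv.swap (i, s) (j, t)) ω) + cc ω =
      (-(eps s * eps t)) * ∏ l ∈ (Finset.univ.erase i).erase j, fac l ω := by
  have hj : j ∈ Finset.univ.erase i := by simp [Ne.symm hij]
  rw [cc_eq, cc_eq, ← Finset.mul_prod_erase _ _ (Finset.mem_univ i),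
    ← Finset.mul_prod_erase _ (fun x => fac x ω) (Finset.mem_univ i),
    ← Finset.mul_prod_erase _ _ hj, ← Finset.mul_prod_erase _ (fun x => fac x ω) hj]
  have h1 : ∏ x ∈ (Finset.univ.erase i).erase j, fac x (im (Equiv.swap (i, s) (j, t)) ω) =
      ∏ x ∈ (Finset.univ.erase i).erase j, fac x ω := by
    refine Finset.prod_congr rfl fun x hx => ?_
    have h2 := Finset.ne_of_mem_erase hx
    have h3 := Finset.ne_of_mem_erase (Finset.mem_of_mem_erase hx)
    exact fac_swap_other h3 h2 ω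
  rw [h1]
  set R := ∏ x ∈ (Finset.univ.erase i).erase j, fac x ω with hR
  by_cases hR0 : R = 0
  · rw [hR0]; ring
  · have h2 : cnt i ω + cnt j ω = 2 := by
      have h3 := sum_cnt ω
      rw [← Finset.add_sum_erase _ _ (Finset.mem_univ i), ← Finset.add_sum_erase _ _ hj] at h3
      have h4 : ∑ x ∈ (Finset.univ.erase i).erase j, cnt x ω =
          ((Finset.univ.erase i).erase j).card := by
        rw [Finset.card_eq_sum_ones]
        refine Finset.sum_congr rfl fun x hx => cnt_of_fac ?_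
        exact (Finset.prod_ne_zero_iff.1 hR0) x hx
      rw [h4, Finset.card_erase_of_mem hj, Finset.card_erase_of_mem (Finset.mem_univ i)] at h3
      have h5 : 2 ≤ a := by
        have := i.2; have := j.2
        have h6 : i.val ≠ j.val := fun h => hij (Fin.ext h)
        omega
      simp at h3
      omega
    have hb1 : chi (i, !s) (im (Equiv.swap (i, s) (j, t)) ω) = chi (i, !s) ω := by
      apply chi_swap_other
      · cases s <;> simp
      · intro h; exact hij (Prod.ext_iff.1 h).1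
    have hb2 : chi (j, !t) (im (Equiv.swap (i, s) (j, t)) ω) = chi (j, !t) ω := by
      apply chi_swap_other
      · intro h; exact hij (Prod.ext_iff.1 h).1.symm
      · cases t <;> simp
    have hb3 := chi_swap_left (i, s) (j, t) ω
    have hb4 := chi_swap_right (i, s) (j, t) ω
    have key : (fac i (im (Equiv.swap (i, s) (j, t)) ω) *
        fac j (im (Equiv.swap (i, s) (j, t)) ω)) + fac i ω * fac j ω =
        -(eps s * eps t) := by
      simp only [fac, Pi.sub_apply]
      unfold cnt at h2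
      cases s <;> cases t <;> simp only [Bool.not_true, Bool.not_false] at hb1 hb2 <;>
        rw [hb1, hb2, hb3, hb4] <;> simp only [chi, eps] <;>
        by_cases c1 : (i, true) ∈ ω <;> by_cases c2 : (i, false) ∈ ω <;>
        by_cases c3 : (j, true) ∈ ω <;> by_cases c4 : (j, false) ∈ ω <;>
        simp_all <;> decide
    linear_combination R * key

theorem fact1 (u v : E a) (h : u ≠ v) :
    comp (Equiv.swap u v) cc + cc ∈ NN a := by
  obtain ⟨i, s⟩ := u
  obtain ⟨j, t⟩ := v
  by_cases hij : i = j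
  · subst hij
    have hst : s ≠ t := fun hst => h (by rw [hst])
    have : comp (Equiv.swap (i, s) (i, t)) cc + cc = (0 : Finset (E a) → ZMod 3) := by
      ext1 ω
      simp only [comp, Pi.add_apply, swap_same hst, Pi.zero_apply]
      ring
    rw [this]; exact Submodule.zero_mem _
  · refine NN_congr (f := (-(eps s * eps t)) • ∏ l ∈ (Finset.univ.erase i).erase j, fac l) ?_ ?_
    · refine Submodule.smul_mem _ _ ?_
      have hj : j ∈ Finset.univ.erase i := by simp [Ne.symm hij]
      refine MS_le ?_ (MS_prod _)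
      rw [Finset.card_erase_of_mem hj, Finset.card_erase_of_mem (Finset.mem_univ i)]
      have := i.2
      simp
      omega
    · intro ω hω
      rw [Pi.smul_apply, Finset.prod_apply, smul_eq_mul, Pi.add_apply, comp,
        swap_diff hij s t hω]

/-- the sign in `F₃` -/
def sgn3 (π : Equiv.Perm (E a)) : ZMod 3 := ((Equiv.Perm.sign π : ℤ) : ZMod 3)

theorem fact2 (π : Equiv.Perm (E a)) : comp π cc - sgn3 π • cc ∈ NN a := by
  induction π using Equiv.Perm.swap_induction_on with
  | one =>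
    have : comp (1 : Equiv.Perm (E a)) cc - sgn3 (1 : Equiv.Perm (E a)) • cc = 0 := by
      ext1 ω; simp [comp, sgn3]
    rw [this]; exact Submodule.zero_mem _
  | swap_mul f x y hxy hf =>
    have h1 := NN_comp (fact1 x y hxy) f
    have h2 : comp (Equiv.swap x y * f) cc - sgn3 (Equiv.swap x y * f) • cc =
        comp f (comp (Equiv.swap x y) cc + cc) - (comp f cc - sgn3 f • cc) := by
      ext1 ω
      simp only [comp, Pi.add_apply, Pi.sub_apply, Pi.smul_apply, smul_eq_mul, im_mul, sgn3,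
        Equiv.Perm.sign_mul, Equiv.Perm.sign_swap hxy]
      push_cast
      ring
    rw [h2]
    exact Submodule.sub_mem _ h1 hf

lemma mem_NN_of_P3 {π : Equiv.Perm (E a)} {w : Finset (E a) → ZMod 3} (h : w ∈ P3 π) :
    comp π cc - cc ∈ NN a := ⟨w, h.1, h.2⟩

theorem P3_sign {π : Equiv.Perm (E a)} {w : Finset (E a) → ZMod 3} (h : w ∈ P3 π) :
    Equiv.Perm.sign π = 1 := by
  rcases Int.units_eq_one_or (Equiv.Perm.sign π) with h1 | h1
  · exact h1
  · exfalso
    have h2 := mem_NN_of_P3 h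
    have h3 := fact2 π
    have h4 : (cc + cc : Finset (E a) → ZMod 3) ∈ NN a := by
      have h5 := Submodule.sub_mem _ h3 h2
      have h6 : comp π cc - sgn3 π • cc - (comp π cc - cc) = (cc + cc : Finset (E a) → ZMod 3) := by
        ext1 ω
        simp [sgn3, h1]
      rwa [h6] at h5
    have h7 := Lam_NN h4
    rw [Lam_add, Lam_cc] at h7
    have h8 : (2 : ZMod 3) ^ a + 2 ^ a = 2 ^ (a + 1) := by rw [pow_succ]; ring
    rw [h8] at h7
    have h9 : IsUnit ((2 : ZMod 3) ^ (a + 1)) := IsUnit.pow _ (by decide)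
    rw [h7] at h9
    exact absurd h9 (by decide)

theorem P3_nonempty {π : Equiv.Perm (E a)} (h : Equiv.Perm.sign π = 1) : (P3 π).Nonempty := by
  have h1 := fact2 π
  have h2 : sgn3 π = 1 := by simp [sgn3, h]
  rw [h2, one_smul] at h1
  obtain ⟨w, h3, h4⟩ := h1
  exact ⟨w, h3, h4⟩

/-! ### Independence of the hidden transposition -/

lemma X3_inv_comp {A B : Finset (E a)} {σ : Equiv.Perm (E a)} (hA : im σ A = A)
    (hB : im σ B = B) (w : Finset (E a) → ZMod 3) : X3 A B (fun J => w (im σ J)) = X3 A B w := by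
  rw [X3_comp, hA, hB]

lemma Inv.mul {D : Finset (Pt a)} {ρ τ : Equiv.Perm (E a)} (h : Inv D ρ) (h' : Inv D τ) :
    Inv D (ρ * τ) := by
  intro p hp
  have h1 := h p hp
  have h2 := h' p hp
  cases p with
  | el i => simp only [fixP] at h1 h2 ⊢; rw [Equiv.Perm.mul_apply, h2, h1]
  | p2 i Z v =>
    simp only [fixP] at h1 h2 ⊢
    rw [Equiv.Perm.mul_apply, h2.1, h1.1, im_mul, h2.2, h1.2]
    exact ⟨rfl, rfl⟩
  | p3 A B v =>
    simp only [fixP] at h1 h2 ⊢
    rw [im_mul, im_mul, h2.1, h1.1, h2.2, h1.2]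
    exact ⟨rfl, rfl⟩

lemma inv_vanish {D : Finset (Pt a)} {σ : Equiv.Perm (E a)} (hD : Inv D σ) (h2 : σ * σ = 1)
    (hs : Equiv.Perm.sign σ = 1) :
    ∃ y ∈ P3 σ, ∀ A B v, Pt.p3 A B v ∈ D → X3 A B y = 0 := by
  obtain ⟨y, hy⟩ := P3_nonempty hs
  refine ⟨(fun J => y (im σ J)) - y, ⟨fun A hA => ?_, fun ω hω => ?_⟩, fun A B v hp => ?_⟩
  · rw [Pi.sub_apply, hy.1 _ (by simpa using hA), hy.1 _ hA, sub_zero]
  · rw [X3_sub, X3_comp, im_empty, hy.2 _ (by simpa using hω), hy.2 _ hω, ← im_mul, h2, im_one]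
    have h3 : (3 : ZMod 3) = 0 := by decide
    linear_combination (cc ω - cc (im σ ω)) * h3
  · have := hD _ hp
    rw [X3_sub, X3_inv_comp this.1 this.2, sub_self]

lemma indep_comm {D : Finset (Pt a)} {π ρ τ : Equiv.Perm (E a)} (hρ : ρ.IsSwap)
    (hτ : τ.IsSwap) (hc : ρ * τ = τ * ρ) (hi : Inv D ρ) (hi' : Inv D τ)
    {w : Finset (E a) → ZMod 3} (hw : w ∈ P3 (π * ρ)) :
    ∃ w' ∈ P3 (π * τ), ∀ A B v, Pt.p3 A B v ∈ D → X3 A B w' = X3 A B w := by
  have hρ2 : ρ * ρ = 1 := by
    obtain ⟨u, v, _, rfl⟩ := hρ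
    exact Equiv.swap_mul_self u v
  have hτ2 : τ * τ = 1 := by
    obtain ⟨u, v, _, rfl⟩ := hτ
    exact Equiv.swap_mul_self u v
  have hD : Inv D (ρ * τ) := hi.mul hi'
  have h2 : (ρ * τ) * (ρ * τ) = 1 := by
    calc (ρ * τ) * (ρ * τ) = (ρ * τ) * (τ * ρ) := by rw [hc]
      _ = ρ * (τ * τ) * ρ := by group
      _ = 1 := by rw [hτ2, mul_one, hρ2]
  have hs : Equiv.Perm.sign (ρ * τ) = 1 := by
    rw [Equiv.Perm.sign_mul, hρ.sign_eq, hτ.sign_eq]; rfl
  obtain ⟨y, hy, hyD⟩ := inv_vanish hD h2 hs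
  refine ⟨(fun J => w (im (ρ * τ) J)) + y, ?_, fun A B v hp => ?_⟩
  · have h3 := P3_comp hw hy
    have h4 : π * ρ * (ρ * τ) = π * τ := by
      calc π * ρ * (ρ * τ) = π * (ρ * ρ) * τ := by group
        _ = π * τ := by rw [hρ2, mul_one]
    rwa [h4] at h3
  · have := hD _ hp
    rw [X3_add, hyD A B v hp, add_zero, X3_inv_comp this.1 this.2]

/-- Independence of the hidden transposition. -/
theorem indep {D : Finset (Pt a)} (hD : Big D) {π ρ ρ' : Equiv.Perm (E a)} (hρ : OneOrSwap ρ)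
    (hρ' : OneOrSwap ρ') (hi : Inv D ρ) (hi' : Inv D ρ') {w : Finset (E a) → ZMod 3}
    (hw : w ∈ P3 (π * ρ)) (hs : Equiv.Perm.sign (π * ρ') = 1) :
    ∃ w' ∈ P3 (π * ρ'), ∀ A B v, Pt.p3 A B v ∈ D → X3 A B w' = X3 A B w := by
  have hs' := P3_sign hw
  have hss : Equiv.Perm.sign ρ = Equiv.Perm.sign ρ' := by
    rw [Equiv.Perm.sign_mul] at hs hs'
    exact mul_left_cancel (hs'.trans hs.symm)
  rcases hρ with rfl | hρ
  · rcases hρ' with rfl | hρ'
    · exact ⟨w, hw, fun _ _ _ _ => rfl⟩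
    · rw [hρ'.sign_eq, Equiv.Perm.sign_one] at hss
      exact absurd hss (by decide)
  · rcases hρ' with rfl | hρ'
    · rw [hρ.sign_eq, Equiv.Perm.sign_one] at hss
      exact absurd hss (by decide)
    · obtain ⟨T, hT, hTi⟩ := hD
      obtain ⟨u, v, huv, rfl⟩ := hρ
      obtain ⟨u', v', huv', rfl⟩ := hρ'
      have h1 : 1 < (T \ {u, v, u', v'}).card := by
        have h2 := Finset.le_card_sdiff ({u, v, u', v'} : Finset (E a)) T
        have h3 : ({u, v, u', v'} : Finset (E a)).card ≤ 4 := Finset.card_le_four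
        omega
      obtain ⟨x, hx, y, hy, hxy⟩ := Finset.one_lt_card.1 h1
      simp only [Finset.mem_sdiff, Finset.mem_insert, Finset.mem_singleton, not_or] at hx hy
      obtain ⟨hxT, hx1, hx2, hx3, hx4⟩ := hx
      obtain ⟨hyT, hy1, hy2, hy3, hy4⟩ := hy
      have hτ : (Equiv.swap x y).IsSwap := ⟨x, y, hxy, rfl⟩
      have hc1 : Equiv.swap u v * Equiv.swap x y = Equiv.swap x y * Equiv.swap u v := by
        refine (Equiv.Perm.Disjoint.commute ?_).eq
        refine Equiv.Perm.disjoint_iff_disjoint_support.2 ?_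
        rw [Equiv.Perm.support_swap huv, Equiv.Perm.support_swap hxy]
        simp [Finset.disjoint_left]
        tauto
      have hc2 : Equiv.swap x y * Equiv.swap u' v' = Equiv.swap u' v' * Equiv.swap x y := by
        refine (Equiv.Perm.Disjoint.commute ?_).eq
        refine Equiv.Perm.disjoint_iff_disjoint_support.2 ?_
        rw [Equiv.Perm.support_swap huv', Equiv.Perm.support_swap hxy]
        simp [Finset.disjoint_left]
        tauto
      obtain ⟨w1, hw1, h5⟩ := indep_comm ⟨u, v, huv, rfl⟩ hτ hc1 hi (hTi x hxT y hyT) hw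
      obtain ⟨w2, hw2, h6⟩ := indep_comm hτ ⟨u', v', huv', rfl⟩ hc2 (hTi x hxT y hyT) hi' hw1
      exact ⟨w2, hw2, fun A B v hp => (h6 A B v hp).trans (h5 A B v hp)⟩

end Pool.Agent.CoWL
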