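import Pool.Agent.CoWL.Layer2
import Pool.Agent.CoWL.Layer3

/-!
The coloured structures are not isomorphic.
-/

namespace Pool.Agent.CoWL

open Finset Classical

variable {a : ℕ}

/-! ### Inversion of the relations -/

private lemma inv0 {ch : E a → ZMod 2} {l : Fin 15} {p q r : Pt a} (h : Rel ch l p q r)
    (hl : l = 0) : ∃ i, p = Pt.el i := by
  cases h <;> first | exact absurd hl (by decide) | exact ⟨_, rfl⟩

private lemma inv1 {ch : E a → ZMod 2} {l : Fin 15} {p q r : Pt a} (h : Rel ch l p q r)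
    (hl : l = 1) : ∃ i Z v, p = Pt.p2 i Z v := by
  cases h <;> first | exact absurd hl (by decide) | exact ⟨_, _, _, rfl⟩

private lemma inv2 {ch : E a → ZMod 2} {l : Fin 15} {p q r : Pt a} (h : Rel ch l p q r)
    (hl : l = 2) : ∃ A B v, p = Pt.p3 A B v := by
  cases h <;> first | exact absurd hl (by decide) | exact ⟨_, _, _, rfl⟩

private lemma inv3 {ch : E a → ZMod 2} {l : Fin 15} {p q r : Pt a} (h : Rel ch l p q r)
    (hl : l = 3) : ∃ i Z v, p = Pt.el i ∧ q = Pt.p2 i Z v := by
  cases h <;> first | exact absurd hl (by decide) | exact ⟨_, _, _, rfl, rfl⟩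

private lemma inv4 {ch : E a → ZMod 2} {l : Fin 15} {p q r : Pt a} (h : Rel ch l p q r)
    (hl : l = 4) : ∃ j i Z v, j ∈ Z ∧ p = Pt.el j ∧ q = Pt.p2 i Z v := by
  cases h with
  | z2 j i Z v h => exact ⟨j, i, Z, v, h, rfl, rfl⟩
  | _ => exact absurd hl (by decide)

private lemma inv5 {ch : E a → ZMod 2} {l : Fin 15} {p q r : Pt a} (h : Rel ch l p q r)
    (hl : l = 5) : ∃ i, p = Pt.p2 i ∅ 0 := by
  cases h <;> first | exact absurd hl (by decide) | exact ⟨_, rfl⟩

private lemma inv6 {ch : E a → ZMod 2} {l : Fin 15} {p q r : Pt a} (h : Rel ch l p q r)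
    (hl : l = 6) : ∃ i j Z v v', p = Pt.p2 i Z v ∧ q = Pt.p2 i {j} v' ∧
      r = Pt.p2 i (insert j Z) (v + v') := by
  cases h <;> first | exact absurd hl (by decide) | exact ⟨_, _, _, _, _, rfl, rfl, rfl⟩

private lemma inv7 {ch : E a → ZMod 2} {l : Fin 15} {p q r : Pt a} (h : Rel ch l p q r)
    (hl : l = 7) : ∃ i j v v', v + v' = tt i j ∧ p = Pt.p2 i {j} v ∧ q = Pt.p2 j {i} v' := by
  cases h with
  | lnk2 i j v v' h h' => exact ⟨i, j, v, v', h', rfl, rfl⟩
  | _ => exact absurd hl (by decide)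

private lemma inv8 {ch : E a → ZMod 2} {l : Fin 15} {p q r : Pt a} (h : Rel ch l p q r)
    (hl : l = 8) : ∃ i, p = Pt.p2 i (univ.erase i) (ch i) := by
  cases h <;> first | exact absurd hl (by decide) | exact ⟨_, rfl⟩

private lemma inv9 {ch : E a → ZMod 2} {l : Fin 15} {p q r : Pt a} (h : Rel ch l p q r)
    (hl : l = 9) : ∃ j A B v, j ∈ A ∧ p = Pt.el j ∧ q = Pt.p3 A B v := by
  cases h with
  | a3 j A B v h => exact ⟨j, A, B, v, h, rfl, rfl⟩
  | _ => exact absurd hl (by decide)

private lemma inv10 {ch : E a → ZMod 2} {l : Fin 15} {p q r : Pt a} (h : Rel ch l p q r)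
    (hl : l = 10) : ∃ j A B v, j ∈ B ∧ p = Pt.el j ∧ q = Pt.p3 A B v := by
  cases h with
  | b3 j A B v h => exact ⟨j, A, B, v, h, rfl, rfl⟩
  | _ => exact absurd hl (by decide)

private lemma inv11 {ch : E a → ZMod 2} {l : Fin 15} {p q r : Pt a} (h : Rel ch l p q r)
    (hl : l = 11) : ∃ j A B v v', p = Pt.p3 A B v ∧ q = Pt.p3 (insert j A) B v' ∧
      r = Pt.p3 A (insert j B) (v + v') := by
  cases h <;> first | exact absurd hl (by decide) | exact ⟨_, _, _, _, _, rfl, rfl, rfl⟩

private lemma inv12 {ch : E a → ZMod 2} {l : Fin 15} {p q r : Pt a} (h : Rel ch l p q r)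
    (hl : l = 12) : ∃ A B v, p = Pt.p3 A B v ∧ q = Pt.p3 A B (v + 1) := by
  cases h <;> first | exact absurd hl (by decide) | exact ⟨_, _, _, rfl, rfl⟩

private lemma inv13 {ch : E a → ZMod 2} {l : Fin 15} {p q r : Pt a} (h : Rel ch l p q r)
    (hl : l = 13) : ∃ A, p = Pt.p3 A ∅ 0 := by
  cases h <;> first | exact absurd hl (by decide) | exact ⟨_, rfl⟩

private lemma inv14 {ch : E a → ZMod 2} {l : Fin 15} {p q r : Pt a} (h : Rel ch l p q r)
    (hl : l = 14) : ∃ ω, p = Pt.p3 ∅ ω (cc ω) := by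
  cases h <;> first | exact absurd hl (by decide) | exact ⟨_, rfl⟩

/-- An isomorphism of the coloured structures yields perfect solutions of both layers. -/
theorem perfect_of_iso {ch ch' : E a → ZMod 2} (ψ : Pt a ≃ Pt a)
    (h : ∀ p q r, kap ch p q r = kap ch' (ψ p) (ψ q) (ψ r)) :
    ∃ (π : Equiv.Perm (E a)) (x : E a → E a → ZMod 2) (w : Finset (E a) → ZMod 3),
      Lnk π x ∧ (∀ i, Nod ch ch' π x i) ∧ w ∈ P3 π := by
  have hR : ∀ l p q r, Rel ch l p q r ↔ Rel ch' l (ψ p) (ψ q) (ψ r) := by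
    intro l p q r
    exact (kap_eq_iff ch ch' p q r _ _ _).1 (h p q r) l
  -- the permutation
  have h0 : ∀ i, ∃ j, ψ (Pt.el i) = Pt.el j := fun i =>
    inv0 ((hR 0 _ _ _).1 (Rel.isEl i)) rfl
  choose π0 hπ0 using h0
  have hinj : Function.Injective π0 := by
    intro i j hij
    have : ψ (Pt.el i) = ψ (Pt.el j) := by rw [hπ0, hπ0, hij]
    simpa using ψ.injective this
  let π : Equiv.Perm (E a) := Equiv.ofBijective π0 (Finite.injective_iff_bijective.1 hinj)
  have hel : ∀ i, ψ (Pt.el i) = Pt.el (π i) := hπ0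
  -- layer 2
  have h2 : ∀ i Z v, ∃ v', ψ (Pt.p2 i Z v) = Pt.p2 (π i) (im π Z) v' := by
    intro i Z v
    obtain ⟨i', Z', v', hp⟩ := inv1 ((hR 1 _ _ _).1 (Rel.is2 i Z v)) rfl
    have h3 := (hR 3 _ _ _).1 (Rel.i2 (ch := ch) i Z v)
    rw [hel, hp] at h3
    obtain ⟨i1, Z1, v1, e1, e2⟩ := inv3 h3 rfl
    have hi : i' = π i := by
      injection e1 with e1
      injection e2 with e2
      rw [e1, e2]
    have hZ : Z' = im π Z := by
      ext j
      obtain ⟨j, rfl⟩ := π.surjective j
      rw [apply_mem_im]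
      constructor
      · intro hj
        have := (hR 4 (Pt.el j) (Pt.p2 i Z v) (Pt.p2 i Z v)).2 (by
          rw [hel, hp]; exact Rel.z2 _ _ _ _ hj)
        obtain ⟨j1, i1, Z1, v1, hj1, e1, e2⟩ := inv4 this rfl
        injection e1 with e1
        injection e2 with _ e2 _
        rw [e1, e2]; exact hj1
      · intro hj
        have := (hR 4 (Pt.el j) (Pt.p2 i Z v) (Pt.p2 i Z v)).1 (Rel.z2 _ _ _ _ hj)
        rw [hel, hp] at this
        obtain ⟨j1, i1, Z1, v1, hj1, e1, e2⟩ := inv4 this rfl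
        injection e1 with e1
        injection e2 with _ e2 _
        rw [e1, e2]; exact hj1
    exact ⟨v', by rw [hp, hi, hZ]⟩
  choose f hf using h2
  have hf0 : ∀ i, f i ∅ 0 = 0 := by
    intro i
    have := (hR 5 _ _ _).1 (Rel.zero2 (ch := ch) i)
    rw [hf] at this
    obtain ⟨i1, e1⟩ := inv5 this rfl
    injection e1
  have hfinj : ∀ i Z, f i Z 1 = f i Z 0 + 1 := by
    intro i Z
    have hne : f i Z 1 ≠ f i Z 0 := by
      intro he
      have : ψ (Pt.p2 i Z 1) = ψ (Pt.p2 i Z 0) := by rw [hf, hf, he]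
      have := ψ.injective this
      injection this with _ _ h3
      exact absurd h3 (by decide)
    have : ∀ u v : ZMod 2, u ≠ v → u = v + 1 := by decide
    exact this _ _ hne
  have hfv : ∀ i Z v, f i Z v = v + f i Z 0 := by
    intro i Z v
    have : v = 0 ∨ v = 1 := by
      have : ∀ v : ZMod 2, v = 0 ∨ v = 1 := by decide
      exact this v
    rcases this with rfl | rfl
    · rw [zero_add]
    · rw [hfinj, add_comm]
  have hfadd : ∀ i j Z v v', j ∉ Z → f i (insert j Z) (v + v') = f i Z v + f i {j} v' := by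
    intro i j Z v v' hj
    have := (hR 6 _ _ _).1 (Rel.add2 (ch := ch) i j Z v v' hj)
    rw [hf, hf, hf] at this
    obtain ⟨i1, j1, Z1, v1, v1', e1, e2, e3⟩ := inv6 this rfl
    injection e1 with _ _ e1
    injection e2 with _ _ e2
    injection e3 with _ _ e3
    rw [e1, e2, e3]
  let x : E a → E a → ZMod 2 := fun i j => f i {j} 0
  have hfP : ∀ i Z, f i Z 0 = P2 x i Z := by
    intro i Z
    induction Z using Finset.induction_on with
    | empty => rw [hf0]; rfl
    | insert j Z hj ih =>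
      have := hfadd i j Z 0 0 hj
      rw [add_zero] at this
      rw [this, ih]
      unfold P2
      rw [Finset.sum_insert hj, add_comm]
  -- layer 3
  have h3 : ∀ A B v, ∃ v', ψ (Pt.p3 A B v) = Pt.p3 (im π A) (im π B) v' := by
    intro A B v
    obtain ⟨A', B', v', hp⟩ := inv2 ((hR 2 _ _ _).1 (Rel.is3 A B v)) rfl
    have hA : A' = im π A := by
      ext j
      obtain ⟨j, rfl⟩ := π.surjective j
      rw [apply_mem_im]
      constructor
      · intro hj
        have := (hR 9 (Pt.el j) (Pt.p3 A B v) (Pt.p3 A B v)).2 (by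
          rw [hel, hp]; exact Rel.a3 _ _ _ _ hj)
        obtain ⟨j1, A1, B1, v1, hj1, e1, e2⟩ := inv9 this rfl
        injection e1 with e1
        injection e2 with e2 _ _
        rw [e1, e2]; exact hj1
      · intro hj
        have := (hR 9 (Pt.el j) (Pt.p3 A B v) (Pt.p3 A B v)).1 (Rel.a3 _ _ _ _ hj)
        rw [hel, hp] at this
        obtain ⟨j1, A1, B1, v1, hj1, e1, e2⟩ := inv9 this rfl
        injection e1 with e1
        injection e2 with e2 _ _
        rw [e1, e2]; exact hj1
    have hB : B' = im π B := by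
      ext j
      obtain ⟨j, rfl⟩ := π.surjective j
      rw [apply_mem_im]
      constructor
      · intro hj
        have := (hR 10 (Pt.el j) (Pt.p3 A B v) (Pt.p3 A B v)).2 (by
          rw [hel, hp]; exact Rel.b3 _ _ _ _ hj)
        obtain ⟨j1, A1, B1, v1, hj1, e1, e2⟩ := inv10 this rfl
        injection e1 with e1
        injection e2 with _ e2 _
        rw [e1, e2]; exact hj1
      · intro hj
        have := (hR 10 (Pt.el j) (Pt.p3 A B v) (Pt.p3 A B v)).1 (Rel.b3 _ _ _ _ hj)
        rw [hel, hp] at this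
        obtain ⟨j1, A1, B1, v1, hj1, e1, e2⟩ := inv10 this rfl
        injection e1 with e1
        injection e2 with _ e2 _
        rw [e1, e2]; exact hj1
    exact ⟨v', by rw [hp, hA, hB]⟩
  choose s hs using h3
  have hs1 : ∀ A B v, s A B (v + 1) = s A B v + 1 := by
    intro A B v
    have := (hR 12 _ _ _).1 (Rel.suc3 (ch := ch) A B v)
    rw [hs, hs] at this
    obtain ⟨A1, B1, v1, e1, e2⟩ := inv12 this rfl
    injection e1 with _ _ e1
    injection e2 with _ _ e2
    rw [e1, e2]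
  have hsv : ∀ A B v, s A B v = v + s A B 0 := by
    intro A B v
    have hv : ∀ v : ZMod 3, v = 0 ∨ v = 0 + 1 ∨ v = 0 + 1 + 1 := by decide
    rcases hv v with rfl | rfl | rfl
    · rw [zero_add]
    · rw [hs1]; ring
    · rw [hs1, hs1]; ring
  have hsadd : ∀ j A B, j ∉ A → j ∉ B → s A (insert j B) 0 = s A B 0 + s (insert j A) B 0 := by
    intro j A B hA hB
    have := (hR 11 _ _ _).1 (Rel.add3 (ch := ch) j A B 0 0 hA hB)
    rw [hs, hs, hs, add_zero] at this
    obtain ⟨j1, A1, B1, v1, v1', e1, e2, e3⟩ := inv11 this rfl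
    injection e1 with _ _ e1
    injection e2 with _ _ e2
    injection e3 with _ _ e3
    rw [e1, e2, e3]
  let w : Finset (E a) → ZMod 3 := fun A => s A ∅ 0
  have hsX : ∀ B A, Disjoint A B → s A B 0 = X3 A B w := by
    intro B
    induction B using Finset.induction_on with
    | empty => intro A _; rw [X3_empty]
    | insert j B hj ih =>
      intro A hAB
      rw [Finset.disjoint_insert_right] at hAB
      rw [hsadd j A B hAB.1 hj, X3_insert w hj, ih A hAB.2, ih (insert j A)]
      rw [Finset.disjoint_insert_left]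
      exact ⟨hj, hAB.2⟩
  refine ⟨π, x, w, ?_, ?_, ?_, ?_⟩
  · intro i j hij
    have hv : tt i j + 0 = tt i j := add_zero _
    have := (hR 7 _ _ _).1 (Rel.lnk2 (ch := ch) i j (tt i j) 0 hij hv)
    rw [hf, hf, hfv i {j}] at this
    obtain ⟨i1, j1, v1, v1', hv1, e1, e2⟩ := inv7 this rfl
    injection e1 with e11 _ e13
    injection e2 with e21 _ e23
    rw [← e13, ← e23, ← e11, ← e21] at hv1
    have : ∀ t y z u : ZMod 2, t + y + z = u → y + z = u + t := by decide
    exact this _ _ _ _ hv1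
  · intro i
    have := (hR 8 _ _ _).1 (Rel.mark2 (ch := ch) i)
    rw [hf, hfv, hfP] at this
    obtain ⟨i1, e1⟩ := inv8 this rfl
    injection e1 with e11 _ e13
    rw [← e11] at e13
    unfold Nod
    have : ∀ t y u : ZMod 2, t + y = u → y = u + t := by decide
    exact this _ _ _ e13
  · intro A hA
    have := (hR 13 _ _ _).1 (Rel.mark3 (ch := ch) A hA)
    rw [hs] at this
    obtain ⟨A1, e1⟩ := inv13 this rfl
    injection e1
  · intro ω hω
    have := (hR 14 _ _ _).1 (Rel.markc (ch := ch) ω hω)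
    rw [hs, hsv, hsX _ _ (Finset.disjoint_empty_left ω)] at this
    obtain ⟨ω1, e1⟩ := inv14 this rfl
    injection e1 with _ e2 e3
    rw [← e2] at e3
    rw [← e3]; ring

theorem base_not_iso {ch ch' : E a → ZMod 2} (hch : ∑ i, ch i + ∑ i, ch' i = 1)
    (ψ : Pt a ≃ Pt a) (h : ∀ p q r, kap ch p q r = kap ch' (ψ p) (ψ q) (ψ r)) : False := by
  obtain ⟨π, x, w, hx, hN, hw⟩ := perfect_of_iso ψ h
  exact sign_of_perfect hx hch hN (P3_sign hw)

end Pool.Agent.CoWL
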