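import Mathlib

/-!
Cohomological Weisfeiler-Leman (Ó Conghaile 2022), definitions.
-/

namespace Pool.Agent.CoWL

open Finset Classical

variable {V W : Type}

/-- The domain of a finite relation (of the graph of a partial map). -/
noncomputable def dom (s : Finset (V × W)) : Finset V := s.image Prod.fst

/-- The range of a finite relation (of the graph of a partial map). -/
noncomputable def rng (s : Finset (V × W)) : Finset W := s.image Prod.snd

/-- The inverse relation. -/
noncomputable def inv (s : Finset (V × W)) : Finset (W × V) := s.image Prod.swap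

/-- `s` is (the graph of) an isomorphism between induced subgraphs of `G` and `H`. -/
def IsPIso (G : SimpleGraph V) (H : SimpleGraph W) (s : Finset (V × W)) : Prop :=
  ∀ p ∈ s, ∀ q ∈ s, (p.1 = q.1 ↔ p.2 = q.2) ∧ (G.Adj p.1 q.1 ↔ H.Adj p.2 q.2)

/-- `s` is `ℤ`-extendable in `S`: there are formal integer combinations `r_C` of the elements
of `S` with domain `C`, for all sets `C` of at most `k` vertices, that are compatible with
restriction and such that `r_{dom s} = s`. -/
def ZExt [Fintype V] [Fintype W] (k : ℕ) (S : Set (Finset (V × W))) (s : Finset (V × W)) : Prop :=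
  ∃ r : Finset (V × W) → ℤ,
    (∀ t, t ∉ S → r t = 0) ∧
    (∀ t, dom t = dom s → r t = if t = s then 1 else 0) ∧
    ∀ C D : Finset V, C ⊆ D → D.card ≤ k → ∀ t, dom t = C →
      r t = ∑ u with dom u = D ∧ t ⊆ u, r u

/-- `s` is two-sidedly `ℤ`-extendable in `S`: the same integer combinations are compatible with
restriction in the domain and in the range, so they are an integral solution of the level `k`
linear relaxation of isomorphism, supported on `S`, that extends `s`. -/
def ZExt2 [Fintype V] [Fintype W] (k : ℕ) (S : Set (Finset (V × W))) (s : Finset (V × W)) :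
    Prop :=
  ∃ r : Finset (V × W) → ℤ,
    (∀ t, t ∉ S → r t = 0) ∧
    (∀ t, dom t = dom s ∨ rng t = rng s → r t = if t = s then 1 else 0) ∧
    (∀ C D : Finset V, C ⊆ D → D.card ≤ k → ∀ t, dom t = C →
      r t = ∑ u with dom u = D ∧ t ⊆ u, r u) ∧
    ∀ C D : Finset W, C ⊆ D → D.card ≤ k → ∀ t, rng t = C →
      r t = ∑ u with rng u = D ∧ t ⊆ u, r u

/-- `S` is stable under cohomological `k`-dimensional Weisfeiler-Leman. -/
structure Stable [Fintype V] [Fintype W] (k : ℕ) (G : SimpleGraph V) (H : SimpleGraph W)
    (S : Set (Finset (V × W))) : Prop where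
  card : ∀ s ∈ S, s.card ≤ k
  iso : ∀ s ∈ S, IsPIso G H s
  down : ∀ s ∈ S, ∀ t ⊆ s, t ∈ S
  forth : ∀ s ∈ S, s.card < k → ∃ f : V ≃ W, ∀ v, insert (v, f v) s ∈ S
  ext : ∀ s ∈ S, ZExt k S s
  ext' : ∀ s ∈ S, ZExt k {t | inv t ∈ S} (inv s)

end Pool.Agent.CoWL
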