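import Pool.Agent.CoWL.Coh

/-!
Cohomological Weisfeiler-Leman, basic definitions, and the gadget graph of a
ternary coloured structure.
-/

namespace Pool.Agent.CoWL

open Finset Classical

variable {V W : Type}

/-- `G` and `H` are not distinguished by cohomological `k`-dimensional Weisfeiler-Leman. -/
def CohomEquiv [Fintype V] [Fintype W] (k : ℕ) (G : SimpleGraph V) (H : SimpleGraph W) : Prop :=
  ∃ S : Set (Finset (V × W)), S.Nonempty ∧ Stable k G H S

/-! ### The gadget graph of a ternary coloured structure -/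

/-- Core vertices: the points, and three vertices for each triple of points. -/
abbrev Core (V : Type) : Type := V ⊕ ((V × V × V) × Fin 3)

/-- Vertices of the gadget graph: core vertices `(u, none)` and leaves `(u, some j)`. -/
abbrev GV (V : Type) (N : ℕ) : Type := Core V × Option (Fin (N + 5))

def proj (t : V × V × V) : Fin 3 → V
  | 0 => t.1
  | 1 => t.2.1
  | 2 => t.2.2

/-- number of leaves of a core vertex -/
def lam {N : ℕ} (κ : V → V → V → Fin N) : Core V → ℕ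
  | Sum.inl _ => 2
  | Sum.inr (_, 0) => 3
  | Sum.inr (_, 1) => 4
  | Sum.inr (t, 2) => 5 + (κ t.1 t.2.1 t.2.2).val

inductive GRel {N : ℕ} (κ : V → V → V → Fin N) : GV V N → GV V N → Prop
  | leaf (u : Core V) (j : Fin (N + 5)) (h : j.val < lam κ u) : GRel κ (u, none) (u, some j)
  | pt (t : V × V × V) (l : Fin 3) : GRel κ (Sum.inl (proj t l), none) (Sum.inr (t, l), none)
  | e01 (t : V × V × V) : GRel κ (Sum.inr (t, 0), none) (Sum.inr (t, 1), none)
  | e12 (t : V × V × V) : GRel κ (Sum.inr (t, 1), none) (Sum.inr (t, 2), none)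

/-- the gadget graph -/
def Gr {N : ℕ} (κ : V → V → V → Fin N) : SimpleGraph (GV V N) := SimpleGraph.fromRel (GRel κ)

/-- the action of a bijection on triples -/
def mapT (φ : V ≃ W) : (V × V × V) ≃ (W × W × W) := Equiv.prodCongr φ (Equiv.prodCongr φ φ)

/-- the action of a bijection on the vertices of the gadget graph -/
def hat (N : ℕ) (φ : V ≃ W) : GV V N ≃ GV W N :=
  Equiv.prodCongr (Equiv.sumCongr φ (Equiv.prodCongr (mapT φ) (Equiv.refl (Fin 3))))
    (Equiv.refl (Option (Fin (N + 5))))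

/-- the points in the support of a vertex of the gadget graph -/
noncomputable def supp {N : ℕ} (w : GV V N) : Finset V :=
  match w.1 with
  | Sum.inl p => {p}
  | Sum.inr (t, _) => {t.1, t.2.1, t.2.2}

noncomputable def suppS {N : ℕ} (C : Finset (GV V N)) : Finset V := C.biUnion supp

/-- the graph of the restriction of a function to a finite set -/
noncomputable def graphOn (C : Finset V) (f : V → W) : Finset (V × W) := C.image fun v => (v, f v)

/-! ### Systems of global maps -/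

/-- A frame for the section `(D₀, g₀)`: an affine family of global maps extending it. -/
structure Frame {V Gd : Type} (K : ℕ) (φ : Gd → V ≃ V) (Good : Finset V → Gd → Prop)
    (D₀ : Finset V) (g₀ : Gd) (𝓐 : Type) [AddCommGroup 𝓐] where
  Ψ : 𝓐 → Gd
  Y : Finset V → Set 𝓐
  ne : ∀ D : Finset V, D.card ≤ K → (Y D).Nonempty
  aff : ∀ D f₁ f₂ f₃, f₁ ∈ Y D → f₂ ∈ Y D → f₃ ∈ Y D → f₁ + (f₂ - f₃) ∈ Y D
  good : ∀ D f, f ∈ Y D → Good D (Ψ f) ∧ ∀ q ∈ D₀, φ (Ψ f) q = φ g₀ q
  transl : ∀ f f' d p, φ (Ψ f) p = φ (Ψ f') p → φ (Ψ (f + d)) p = φ (Ψ (f' + d)) p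
  surj : ∀ D' D : Finset V, D' ⊆ D → D.card ≤ K → ∀ f ∈ Y D', ∃ f' ∈ Y D,
    ∀ q ∈ D', φ (Ψ f') q = φ (Ψ f) q
  res : ∀ D' D : Finset V, D' ⊆ D → D.card ≤ K → ∀ f ∈ Y D, ∃ f' ∈ Y D',
    ∀ q ∈ D', φ (Ψ f') q = φ (Ψ f) q
  idx : ∀ (f f' : 𝓐) (D : Finset V), Y (D.map (φ (Ψ f)).symm.toEmbedding) =
    Y (D.map (φ (Ψ f')).symm.toEmbedding)

/-- A system of global maps between two ternary coloured structures. -/
structure Sys {V : Type} {N : ℕ} (κA κB : V → V → V → Fin N) (K : ℕ) where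
  Gd : Type
  φ : Gd → V ≃ V
  Good : Finset V → Gd → Prop
  mono : ∀ D D' g, D' ⊆ D → Good D g → Good D' g
  col : ∀ D g, Good D g → ∀ p ∈ D, ∀ q ∈ D, ∀ r ∈ D, κA p q r = κB (φ g p) (φ g q) (φ g r)
  forth : ∀ (D : Finset V) g, Good D g → D.card < K →
    ∃ f : V ≃ V, ∀ p, ∃ g', Good (insert p D) g' ∧ (∀ q ∈ D, φ g' q = φ g q) ∧ φ g' p = f p
  frames : ∀ (D : Finset V) g, Good D g → D.card ≤ K →
    ∃ (𝓐 : Type) (_ : AddCommGroup 𝓐) (_ : Fintype 𝓐) (𝓑 : Type) (_ : AddCommGroup 𝓑)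
      (_ : Fintype 𝓑), Nat.Coprime (Nat.card 𝓐) (Nat.card 𝓑) ∧
      Nonempty (Frame K φ Good D g 𝓐) ∧ Nonempty (Frame K φ Good D g 𝓑)

end Pool.Agent.CoWL
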