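import Pool.Agent.CoWL.Defs

/-!
The gadget graph of a ternary coloured structure: transfer of isomorphisms.
-/

namespace Pool.Agent.CoWL

open Finset Classical

variable {V : Type} {N : ℕ}

lemma adj_iff (κ : V → V → V → Fin N) (w w' : GV V N) :
    (Gr κ).Adj w w' ↔ w ≠ w' ∧ (GRel κ w w' ∨ GRel κ w' w) := by
  unfold Gr; rw [SimpleGraph.fromRel_adj]

lemma lam_ge (κ : V → V → V → Fin N) (u : Core V) : 2 ≤ lam κ u := by
  rcases u with p | ⟨t, l⟩
  · simp [lam]
  · fin_cases l <;> simp [lam] ; omega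

lemma lam_le (κ : V → V → V → Fin N) (u : Core V) : lam κ u ≤ N + 5 := by
  rcases u with p | ⟨t, l⟩
  · simp [lam]
  · fin_cases l
    · simp [lam]
    · simp [lam]
    · have := (κ t.1 t.2.1 t.2.2).isLt
      simp only [lam]; omega

lemma adj_cl (κ : V → V → V → Fin N) (u u' : Core V) (j : Fin (N + 5)) :
    (Gr κ).Adj (u, none) (u', some j) ↔ u = u' ∧ j.val < lam κ u := by
  rw [adj_iff]
  constructor
  · rintro ⟨-, h | h⟩
    · cases h with
      | leaf _ _ h => exact ⟨rfl, h⟩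
    · cases h
  · rintro ⟨rfl, h⟩
    exact ⟨by simp, Or.inl (GRel.leaf u j h)⟩

lemma adj_lc (κ : V → V → V → Fin N) (u u' : Core V) (j : Fin (N + 5)) :
    (Gr κ).Adj (u', some j) (u, none) ↔ u = u' ∧ j.val < lam κ u := by
  rw [SimpleGraph.adj_comm, adj_cl]

lemma adj_ll (κ : V → V → V → Fin N) (u u' : Core V) (j j' : Fin (N + 5)) :
    ¬ (Gr κ).Adj (u, some j) (u', some j') := by
  rw [adj_iff]
  rintro ⟨-, h | h⟩ <;> cases h

lemma adj_pt (κ : V → V → V → Fin N) (p : V) (t : V × V × V) (l : Fin 3) :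
    (Gr κ).Adj (Sum.inl p, none) (Sum.inr (t, l), none) ↔ p = proj t l := by
  rw [adj_iff]
  constructor
  · rintro ⟨-, h | h⟩
    · cases h with
      | pt _ _ => rfl
    · cases h
  · rintro rfl
    exact ⟨by simp, Or.inl (GRel.pt t l)⟩

lemma adj_01 (κ : V → V → V → Fin N) (t t' : V × V × V) :
    (Gr κ).Adj (Sum.inr (t, 0), none) (Sum.inr (t', 1), none) ↔ t = t' := by
  rw [adj_iff]
  constructor
  · rintro ⟨-, h | h⟩
    · cases h with
      | e01 _ => rfl
    · cases h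
  · rintro rfl
    exact ⟨by simp, Or.inl (GRel.e01 t)⟩

lemma adj_12 (κ : V → V → V → Fin N) (t t' : V × V × V) :
    (Gr κ).Adj (Sum.inr (t, 1), none) (Sum.inr (t', 2), none) ↔ t = t' := by
  rw [adj_iff]
  constructor
  · rintro ⟨-, h | h⟩
    · cases h with
      | e12 _ => rfl
    · cases h
  · rintro rfl
    exact ⟨by simp, Or.inl (GRel.e12 t)⟩

/-- the pendant neighbours -/
def Lf (κ : V → V → V → Fin N) (v : GV V N) : Set (GV V N) :=
  {w | (Gr κ).Adj v w ∧ ∀ w', (Gr κ).Adj w w' → w' = v}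

lemma Lf_core (κ : V → V → V → Fin N) (u : Core V) :
    Lf κ (u, none) = (fun j : Fin (N + 5) => ((u, some j) : GV V N)) '' {j | j.val < lam κ u} := by
  ext ⟨u', o⟩
  simp only [Lf, Set.mem_ofPred_eq, Set.mem_image]
  constructor
  · rintro ⟨h, h'⟩
    rcases o with _ | j
    · exfalso
      have h1 := h' (u', some ⟨0, by omega⟩) (by
        rw [adj_cl]; exact ⟨rfl, by have := lam_ge κ u'; simp; omega⟩)
      simp at h1
    · rw [adj_cl] at h
      obtain ⟨rfl, h⟩ := h
      exact ⟨j, h, rfl⟩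
  · rintro ⟨j, hj, h⟩
    simp only [Prod.mk.injEq] at h
    obtain ⟨rfl, rfl⟩ := h
    refine ⟨(adj_cl _ _ _ _).2 ⟨rfl, hj⟩, ?_⟩
    rintro ⟨u', o⟩ h
    rcases o with _ | j'
    · rw [adj_lc] at h
      rw [h.1]
    · exact absurd h (adj_ll _ _ _ _ _)

lemma ncard_fin_lt (n m : ℕ) (h : m ≤ n) : {j : Fin n | j.val < m}.ncard = m := by
  have : {j : Fin n | j.val < m} = (Fin.castLE h) '' Set.univ := by
    ext j
    simp only [Set.mem_ofPred_eq, Set.image_univ, Set.mem_range]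
    constructor
    · intro hj
      exact ⟨⟨j.val, hj⟩, by ext; simp⟩
    · rintro ⟨i, rfl⟩
      simp
  rw [this, Set.ncard_image_of_injective _ (Fin.castLE_injective h), Set.ncard_univ]
  simp

lemma ncard_Lf (κ : V → V → V → Fin N) (u : Core V) : (Lf κ (u, none)).ncard = lam κ u := by
  rw [Lf_core, Set.ncard_image_of_injective, ncard_fin_lt _ _ (lam_le κ u)]
  intro j j' h
  simpa using h

lemma Lf_leaf (κ : V → V → V → Fin N) (u : Core V) (j : Fin (N + 5)) : Lf κ (u, some j) = ∅ := by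
  ext ⟨u', o⟩
  simp only [Lf, Set.mem_ofPred_eq, Set.mem_empty_iff_false, iff_false]
  rintro ⟨h, h'⟩
  rcases o with _ | j'
  · rw [adj_lc] at h
    obtain ⟨rfl, hj⟩ := h
    have h2 := lam_ge κ u'
    have h0 := h' (u', some ⟨0, by omega⟩) ((adj_cl _ _ _ _).2 ⟨rfl, by simp; omega⟩)
    have h1 := h' (u', some ⟨1, by omega⟩) ((adj_cl _ _ _ _).2 ⟨rfl, by simp; omega⟩)
    rw [← h1] at h0
    simp at h0
  · exact adj_ll _ _ _ _ _ h

lemma Lf_iso {κA κB : V → V → V → Fin N} (e : Gr κA ≃g Gr κB) (v : GV V N) :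
    Lf κB (e v) = e '' Lf κA v := by
  ext w
  simp only [Lf, Set.mem_ofPred_eq, Set.mem_image]
  constructor
  · rintro ⟨h, h'⟩
    refine ⟨e.symm w, ⟨?_, ?_⟩, by simp⟩
    · rw [← e.map_adj_iff]; simpa using h
    · intro w' hw'
      have := h' (e w') (by rw [← e.map_adj_iff] at hw'; simpa using hw')
      exact e.injective this
  · rintro ⟨w, ⟨h, h'⟩, rfl⟩
    refine ⟨e.map_adj_iff.2 h, ?_⟩
    intro w' hw'
    have := h' (e.symm w') (by rw [← e.map_adj_iff]; simpa using hw')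
    rw [← this]; simp

/-- isomorphisms preserve core vertices and their number of leaves -/
lemma iso_core {κA κB : V → V → V → Fin N} (e : Gr κA ≃g Gr κB) (u : Core V) :
    ∃ u', e (u, none) = (u', none) ∧ lam κB u' = lam κA u := by
  have h := Lf_iso e (u, none)
  have h1 : (Lf κB (e (u, none))).ncard = lam κA u := by
    rw [h, Set.ncard_image_of_injective _ e.injective, ncard_Lf]
  rcases he : e (u, none) with ⟨u', _ | j⟩
  · refine ⟨u', rfl, ?_⟩
    rw [he, ncard_Lf] at h1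
    exact h1
  · exfalso
    rw [he, Lf_leaf] at h1
    have := lam_ge κA u
    simp at h1
    omega

lemma lam_inl (κ : V → V → V → Fin N) {u : Core V} (h : lam κ u = 2) : ∃ p, u = Sum.inl p := by
  rcases u with p | ⟨t, l⟩
  · exact ⟨p, rfl⟩
  · exfalso
    fin_cases l <;> simp [lam] at h
    omega

lemma lam_inr0 (κ : V → V → V → Fin N) {u : Core V} (h : lam κ u = 3) :
    ∃ t, u = Sum.inr (t, 0) := by
  rcases u with p | ⟨t, l⟩
  · simp [lam] at h
  · fin_cases l
    · exact ⟨t, rfl⟩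
    · simp [lam] at h
    · simp [lam] at h; omega

lemma lam_inr1 (κ : V → V → V → Fin N) {u : Core V} (h : lam κ u = 4) :
    ∃ t, u = Sum.inr (t, 1) := by
  rcases u with p | ⟨t, l⟩
  · simp [lam] at h
  · fin_cases l
    · simp [lam] at h
    · exact ⟨t, rfl⟩
    · simp [lam] at h; omega

lemma lam_inr2 (κ : V → V → V → Fin N) {u : Core V} {c : ℕ} (h : lam κ u = 5 + c) :
    ∃ t, u = Sum.inr (t, 2) ∧ (κ t.1 t.2.1 t.2.2).val = c := by
  rcases u with p | ⟨t, l⟩
  · simp [lam] at h; omega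
  · fin_cases l
    · simp [lam] at h; omega
    · simp [lam] at h; omega
    · refine ⟨t, rfl, ?_⟩
      simp only [lam] at h
      have : 5 + (κ t.1 t.2.1 t.2.2).val = 5 + c := h
      omega

/-- isomorphisms of the gadget graphs come from isomorphisms of the structures -/
theorem iso_of_gr [Fintype V] {κA κB : V → V → V → Fin N} (e : Gr κA ≃g Gr κB) :
    ∃ ψ : V ≃ V, ∀ p q r, κA p q r = κB (ψ p) (ψ q) (ψ r) := by
  have hpt : ∀ p : V, ∃ q, e (Sum.inl p, none) = (Sum.inl q, none) := by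
    intro p
    obtain ⟨u, h1, h2⟩ := iso_core e (Sum.inl p)
    obtain ⟨q, rfl⟩ := lam_inl κB (u := u) (by rw [h2]; rfl)
    exact ⟨q, h1⟩
  choose f hf using hpt
  have hinj : Function.Injective f := by
    intro p q h
    have : e (Sum.inl p, none) = e (Sum.inl q, none) := by rw [hf, hf, h]
    have := e.injective this
    simpa using this
  refine ⟨Equiv.ofBijective f (Finite.injective_iff_bijective.1 hinj), ?_⟩
  intro p q r
  have h0 := iso_core e (Sum.inr ((p, q, r), 0))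
  have h1 := iso_core e (Sum.inr ((p, q, r), 1))
  have h2 := iso_core e (Sum.inr ((p, q, r), 2))
  obtain ⟨u0, e0, l0⟩ := h0
  obtain ⟨u1, e1, l1⟩ := h1
  obtain ⟨u2, e2, l2⟩ := h2
  obtain ⟨t0, rfl⟩ := lam_inr0 κB (u := u0) (by rw [l0]; rfl)
  obtain ⟨t1, rfl⟩ := lam_inr1 κB (u := u1) (by rw [l1]; rfl)
  obtain ⟨t2, rfl, hc⟩ := lam_inr2 κB (u := u2) (c := (κA p q r).val) (by rw [l2]; rfl)
  have h01 : t0 = t1 := by
    rw [← adj_01 κB, ← e0, ← e1, e.map_adj_iff, adj_01]
  have h12 : t1 = t2 := by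
    rw [← adj_12 κB, ← e1, ← e2, e.map_adj_iff, adj_12]
  subst h01
  subst h12
  have k0 : f p = proj t0 0 := by
    rw [← adj_pt κB, ← hf, ← e0, e.map_adj_iff, adj_pt]; rfl
  have k1 : f q = proj t0 1 := by
    rw [← adj_pt κB, ← hf, ← e1, e.map_adj_iff, adj_pt]; rfl
  have k2 : f r = proj t0 2 := by
    rw [← adj_pt κB, ← hf, ← e2, e.map_adj_iff, adj_pt]; rfl
  ext
  rw [← hc]
  simp only [Equiv.ofBijective_apply, k0, k1, k2]
  rfl


lemma GRel_hat {κA κB : V → V → V → Fin N} (φ : V ≃ V) (D : Finset V)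
    (h : ∀ p ∈ D, ∀ q ∈ D, ∀ r ∈ D, κA p q r = κB (φ p) (φ q) (φ r)) {w w' : GV V N}
    (hw : supp w ⊆ D) (hr : GRel κA w w') : GRel κB (hat N φ w) (hat N φ w') := by
  cases hr with
  | leaf u j hj =>
    refine GRel.leaf _ j ?_
    rcases u with p | ⟨t, l⟩
    · exact hj
    · fin_cases l
      · exact hj
      · exact hj
      · have : κA t.1 t.2.1 t.2.2 = κB (φ t.1) (φ t.2.1) (φ t.2.2) := by
          apply h
          · apply hw; simp [supp]
          · apply hw; simp [supp]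
          · apply hw; simp [supp]
        have hj' : j.val < 5 + (κA t.1 t.2.1 t.2.2).val := hj
        rw [this] at hj'
        exact hj'
  | pt t l =>
    have : hat N φ (Sum.inl (proj t l), none) = (Sum.inl (proj (mapT φ t) l), none) := by
      fin_cases l <;> rfl
    rw [this]
    exact GRel.pt (mapT φ t) l
  | e01 t => exact GRel.e01 (mapT φ t)
  | e12 t => exact GRel.e12 (mapT φ t)

lemma hat_symm_hat (φ : V ≃ V) (w : GV V N) : hat N φ.symm (hat N φ w) = w := by
  rcases w with ⟨p | ⟨⟨p, q, r⟩, l⟩, o⟩ <;> simp [hat, mapT]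

lemma supp_hat (φ : V ≃ V) {D : Finset V} {w : GV V N} (hw : supp w ⊆ D) :
    supp (hat N φ w) ⊆ D.image φ := by
  rcases w with ⟨p | ⟨⟨p, q, r⟩, l⟩, o⟩
  · intro x hx
    have hx' : x = φ p := by simpa [supp, hat] using hx
    rw [hx']
    exact mem_image_of_mem _ (hw (by simp [supp]))
  · intro x hx
    have hx' : x = φ p ∨ x = φ q ∨ x = φ r := by simpa [supp, hat, mapT] using hx
    rcases hx' with hx' | hx' | hx' <;> rw [hx'] <;>
      exact mem_image_of_mem _ (hw (by simp [supp]))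

lemma GRel_hat_symm {κA κB : V → V → V → Fin N} (φ : V ≃ V) (D : Finset V)
    (h : ∀ p ∈ D, ∀ q ∈ D, ∀ r ∈ D, κA p q r = κB (φ p) (φ q) (φ r)) {w w' : GV V N}
    (hw : supp w ⊆ D) (hr : GRel κB (hat N φ w) (hat N φ w')) : GRel κA w w' := by
  have := GRel_hat (κA := κB) (κB := κA) φ.symm (D.image φ) (by
    intro p' hp' q' hq' r' hr'
    obtain ⟨p, hp, rfl⟩ := mem_image.1 hp'
    obtain ⟨q, hq, rfl⟩ := mem_image.1 hq'
    obtain ⟨r, hr, rfl⟩ := mem_image.1 hr'
    simp only [Equiv.symm_apply_apply]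
    exact (h p hp q hq r hr).symm) (supp_hat φ hw) hr
  rwa [hat_symm_hat, hat_symm_hat] at this

/-- a bijection that preserves the colours of the triples in the support preserves adjacency -/
theorem hat_adj {κA κB : V → V → V → Fin N} (φ : V ≃ V) (D : Finset V)
    (h : ∀ p ∈ D, ∀ q ∈ D, ∀ r ∈ D, κA p q r = κB (φ p) (φ q) (φ r)) {w w' : GV V N}
    (hw : supp w ⊆ D) (hw' : supp w' ⊆ D) :
    (Gr κA).Adj w w' ↔ (Gr κB).Adj (hat N φ w) (hat N φ w') := by
  rw [adj_iff, adj_iff]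
  constructor
  · rintro ⟨hne, hr⟩
    refine ⟨fun h => hne ((hat N φ).injective h), ?_⟩
    exact hr.imp (GRel_hat φ D h hw) (GRel_hat φ D h hw')
  · rintro ⟨hne, hr⟩
    refine ⟨fun h => hne (by rw [h]), ?_⟩
    exact hr.imp (GRel_hat_symm φ D h hw) (GRel_hat_symm φ D h hw')

lemma card_supp (w : GV V N) : (supp w).card ≤ 3 := by
  rcases w with ⟨p | ⟨t, l⟩, o⟩
  · simp [supp]
  · simp only [supp]
    exact Finset.card_le_three

lemma card_suppS (C : Finset (GV V N)) : (suppS C).card ≤ 3 * C.card := by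
  unfold suppS
  refine Finset.card_biUnion_le.trans ?_
  refine (Finset.sum_le_card_nsmul C _ 3 fun w _ => card_supp w).trans ?_
  simp [mul_comm]

end Pool.Agent.CoWL
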