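import Pool.Agent.CoWL.Base

/-!
Layer 2: the system over `F₂` that is solvable exactly for odd permutations.
-/

namespace Pool.Agent.CoWL

open Finset Classical

variable {a : ℕ}

/-- the parity of a sign -/
def mu (u : ℤˣ) : ZMod 2 := if u = 1 then 0 else 1

lemma mu_mul (u v : ℤˣ) : mu (u * v) = mu u + mu v := by
  revert u v; decide

lemma mu_prod {ι : Type} (s : Finset ι) (f : ι → ℤˣ) : mu (∏ i ∈ s, f i) = ∑ i ∈ s, mu (f i) := by
  induction s using Finset.induction_on with
  | empty => simp [mu]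
  | insert i s hi ih => rw [Finset.prod_insert hi, Finset.sum_insert hi, mu_mul, ih]

lemma sum_ne_eq {n : ℕ} (y : Fin n → Fin n → ZMod 2) :
    ∑ p, ∑ q ∈ univ.erase p, y p q = ∑ p, ∑ q ∈ Finset.Iio p, (y p q + y q p) := by
  have h1 : ∀ p : Fin n, ∑ q ∈ univ.erase p, y p q =
      ∑ q ∈ Finset.Iio p, y p q + ∑ q ∈ Finset.Ioi p, y p q := by
    intro p
    rw [← Finset.sum_union]
    · refine Finset.sum_congr ?_ fun _ _ => rfl
      ext q
      simp only [Finset.mem_erase, Finset.mem_univ, and_true, Finset.mem_union, Finset.mem_Iio,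
        Finset.mem_Ioi]
      exact ne_iff_lt_or_gt
    · rw [Finset.disjoint_left]
      intro q hq hq'
      rw [Finset.mem_Iio] at hq
      rw [Finset.mem_Ioi] at hq'
      exact lt_asymm hq hq'
  simp only [h1, Finset.sum_add_distrib]
  congr 1
  refine Finset.sum_comm' ?_
  intro p q; simp

theorem parity {π : Equiv.Perm (E a)} {x : E a → E a → ZMod 2} (h : Lnk π x) :
    ∑ i, P2 x i (univ.erase i) = if Equiv.Perm.sign π = 1 then 0 else 1 := by
  set e := Fintype.equivFin (E a) with he
  set σ : Equiv.Perm (Fin (Fintype.card (E a))) := e.permCongr π with hσ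
  have hs : Equiv.Perm.sign σ = Equiv.Perm.sign π := Equiv.Perm.sign_permCongr e π
  have h1 : (if Equiv.Perm.sign π = 1 then (0 : ZMod 2) else 1) =
      ∑ p, ∑ q ∈ Finset.Iio p, (if σ q < σ p then (0 : ZMod 2) else 1) := by
    rw [← hs]
    change mu (Equiv.Perm.sign σ) = _
    rw [Equiv.Perm.sign_eq_prod_prod_Iio, mu_prod]
    refine Finset.sum_congr rfl fun p _ => ?_
    rw [mu_prod]
    refine Finset.sum_congr rfl fun q _ => ?_
    by_cases hq : σ q < σ p <;> simp [hq, mu]
  rw [h1]
  have h2 : ∑ i, P2 x i (univ.erase i) =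
      ∑ p, ∑ q ∈ univ.erase p, x (e.symm p) (e.symm q) := by
    refine Fintype.sum_equiv e _ _ fun i => ?_
    unfold P2
    refine Finset.sum_nbij' e e.symm ?_ ?_ ?_ ?_ ?_
    · intro j hj; simpa using hj
    · intro q hq
      simp only [Finset.mem_erase, Finset.mem_univ, and_true] at hq ⊢
      intro hh; apply hq; rw [← hh]; simp
    · intro j _; simp
    · intro j _; simp
    · intro j _; simp
  rw [h2, sum_ne_eq fun p q => x (e.symm p) (e.symm q)]
  refine Finset.sum_congr rfl fun p _ => Finset.sum_congr rfl fun q hq => ?_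
  rw [Finset.mem_Iio] at hq
  have hne : e.symm q ≠ e.symm p := fun hh => hq.ne (e.symm.injective hh)
  have h3 := h _ _ hne
  rw [add_comm, h3]
  have h4 : tt (e.symm q) (e.symm p) = 1 := by
    unfold tt key
    rw [← he]
    simp [hq]
  have h5 : tt (π (e.symm q)) (π (e.symm p)) = if σ q < σ p then 1 else 0 := by
    unfold tt key
    rw [← he]
    simp only [hσ, Equiv.permCongr_apply, Fin.lt_def]
  rw [h4, h5]
  by_cases hq : σ q < σ p <;> simp [hq]
  decide

lemma lnk_symm_ok {π : Equiv.Perm (E a)} {i j : E a} (h : i ≠ j) :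
    tt (π j) (π i) + tt j i = tt (π i) (π j) + tt i j := by
  have h1 := tt_add h
  have h2 := tt_add (fun hh => h (π.injective hh) : π i ≠ π j)
  have h3 : (2 : ZMod 2) = 0 := by decide
  linear_combination h1 + h2 + (1 - tt i j - tt (π i) (π j)) * h3

lemma exists_lnk (π : Equiv.Perm (E a)) : ∃ x, Lnk π x := by
  refine ⟨fun i j => if key i < key j then tt (π i) (π j) + tt i j else 0, fun i j hij => ?_⟩
  rcases lt_trichotomy (key i) (key j) with h1 | h1 | h1
  · simp [h1, not_lt.2 h1.le]
  · exact absurd (key_inj h1) hij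
  · simp only [h1, if_true, not_lt.2 h1.le, if_false, zero_add]
    exact lnk_symm_ok hij

/-- change of the permutation -/
lemma lnk_change {π ρ : Equiv.Perm (E a)} {x : E a → E a → ZMod 2} (h : Lnk π x)
    (I : Finset (E a)) (hI : ∀ i ∈ I, ρ i = i) :
    ∃ x', Lnk (π * ρ) x' ∧ ∀ i ∈ I, ∀ j, x' i j = x i j := by
  obtain ⟨y, hy⟩ := exists_lnk (π * ρ)
  refine ⟨fun i j => if i ∈ I then x i j else if j ∈ I then
    x j i + (tt ((π * ρ) i) ((π * ρ) j) + tt i j) else y i j, ?_, fun i hi j => by simp [hi]⟩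
  have h3 : (2 : ZMod 2) = 0 := by decide
  intro i j hij
  by_cases hi : i ∈ I <;> by_cases hj : j ∈ I
  · simp only [hi, hj, if_true]
    rw [h i j hij, Equiv.Perm.mul_apply, Equiv.Perm.mul_apply, hI i hi, hI j hj]
  · simp only [hi, hj, if_true, if_false]
    rw [lnk_symm_ok hij]
    linear_combination (x i j) * h3
  · simp only [hi, hj, if_true, if_false]
    linear_combination (x j i) * h3
  · simp only [hi, hj, if_false]
    exact hy i j hij

/-- moving defects away -/
lemma lnk_fix {ch ch' : E a → ZMod 2} {π : Equiv.Perm (E a)} {x : E a → E a → ZMod 2}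
    (h : Lnk π x) (I I' : Finset (E a)) (hI : ∀ i ∈ I, Nod ch ch' π x i) {k : E a}
    (hk : k ∉ I ∪ I') :
    ∃ x', Lnk π x' ∧ (∀ i ∈ I ∪ I', Nod ch ch' π x' i) ∧ ∀ i ∈ I, ∀ j, x' i j = x i j := by
  -- the defect at `i`
  set d : E a → ZMod 2 := fun i => if i ∈ I' \ I then
    P2 x i (univ.erase i) + (ch' (π i) + ch i) else 0 with hd
  have h2 : (2 : ZMod 2) = 0 := by decide
  have hdk : d k = 0 := by
    simp only [hd]; rw [if_neg]
    intro hh; exact hk (Finset.mem_union_right _ (Finset.mem_sdiff.1 hh).1)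
  refine ⟨fun i j => x i j + ((if j = k then d i else 0) + (if i = k then d j else 0)),
    ?_, ?_, ?_⟩
  · intro i j hij
    have h3 := h i j hij
    have : x i j + ((if j = k then d i else 0) + (if i = k then d j else 0)) +
        (x j i + ((if i = k then d j else 0) + (if j = k then d i else 0))) =
        x i j + x j i := by
      linear_combination ((if j = k then d i else 0) + (if i = k then d j else 0)) * h2
    rw [this, h3]
  · intro i hi
    have hik : i ≠ k := fun hh => hk (hh ▸ hi)
    unfold Nod P2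
    simp only [hik, if_false, add_zero]
    rw [Finset.sum_add_distrib, Finset.sum_ite_eq']
    rw [if_pos (by simp [hik.symm])]
    by_cases hiI : i ∈ I
    · have h4 : d i = 0 := by simp [hd, hiI]
      rw [h4, add_zero]; exact hI i hiI
    · have h4 : d i = P2 x i (univ.erase i) + (ch' (π i) + ch i) := by
        simp only [hd]; rw [if_pos]
        exact Finset.mem_sdiff.2 ⟨(Finset.mem_union.1 hi).resolve_left hiI, hiI⟩
      rw [h4]
      unfold P2
      linear_combination (∑ j ∈ univ.erase i, x i j) * h2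
  · intro i hi j
    have hik : i ≠ k := fun hh => hk (Finset.mem_union_left _ (hh ▸ hi))
    have h4 : d i = 0 := by simp [hd, hi]
    simp [hik, h4]

/-- perfect solutions for odd permutations -/
theorem lnk_perfect {ch ch' : E a → ZMod 2} {π : Equiv.Perm (E a)} {x : E a → E a → ZMod 2}
    (h : Lnk π x) (hπ : Equiv.Perm.sign π ≠ 1) (hch : ∑ i, ch i + ∑ i, ch' i = 1)
    (I : Finset (E a)) (hI : ∀ i ∈ I, Nod ch ch' π x i) (hne : I ≠ univ) :
    ∃ x', Lnk π x' ∧ (∀ i, Nod ch ch' π x' i) ∧ ∀ i ∈ I, ∀ j, x' i j = x i j := by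
  obtain ⟨k, hk⟩ : ∃ k, k ∉ I := by
    by_contra hcon
    push Not at hcon
    exact hne (Finset.eq_univ_iff_forall.2 hcon)
  obtain ⟨x', h1, h2, h3⟩ := lnk_fix h I (univ.erase k) hI (k := k) (by simp [hk])
  refine ⟨x', h1, fun i => ?_, h3⟩
  by_cases hik : i = k
  · subst hik
    have h4 := parity h1
    rw [if_neg hπ, ← Finset.add_sum_erase _ _ (Finset.mem_univ i)] at h4
    have h5 : ∑ j ∈ univ.erase i, P2 x' j (univ.erase j) =
        ∑ j ∈ univ.erase i, (ch' (π j) + ch j) :=
      Finset.sum_congr rfl fun j hj => h2 j (Finset.mem_union_right _ hj)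
    have h6 : ∑ j, (ch' (π j) + ch j) = 1 := by
      rw [Finset.sum_add_distrib, Equiv.sum_comp π ch', add_comm]; exact hch
    rw [← Finset.add_sum_erase _ _ (Finset.mem_univ i)] at h6
    rw [h5] at h4
    unfold Nod
    linear_combination h4 - h6
  · exact h2 i (Finset.mem_union_right _ (by simp [hik]))

/-- perfect solutions exist only for odd permutations -/
theorem sign_of_perfect {ch ch' : E a → ZMod 2} {π : Equiv.Perm (E a)}
    {x : E a → E a → ZMod 2} (h : Lnk π x) (hch : ∑ i, ch i + ∑ i, ch' i = 1)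
    (hN : ∀ i, Nod ch ch' π x i) : Equiv.Perm.sign π ≠ 1 := by
  intro hs
  have h4 := parity h
  rw [if_pos hs] at h4
  have h5 : ∑ j, P2 x j (univ.erase j) = ∑ j, (ch' (π j) + ch j) :=
    Finset.sum_congr rfl fun j _ => hN j
  rw [h5, Finset.sum_add_distrib, Equiv.sum_comp π ch', add_comm, hch] at h4
  exact absurd h4 (by decide)

end Pool.Agent.CoWL
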