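import Pool.Agent.CoWL.SysDefs

/-!
Extendability over the integers for the gadget graphs.
-/

namespace Pool.Agent.CoWL

open Finset Classical

variable {V : Type} {N : ℕ}

/-- size of a fibre -/
noncomputable def fibc {α β : Type} (Y : Finset α) (ρ : α → β) (t : β) : ℕ :=
  (Y.filter fun f => ρ f = t).card

lemma fibc_zero {α β : Type} {Y : Finset α} {ρ : α → β} {t : β} (h : ∀ f ∈ Y, ρ f ≠ t) :
    fibc Y ρ t = 0 :=
  Finset.card_eq_zero.2 (Finset.filter_eq_empty_iff.2 fun f hf hf' => h f hf hf')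

lemma fibc_full {α β : Type} {Y : Finset α} {ρ : α → β} {t : β} (h : ∀ f ∈ Y, ρ f = t) :
    fibc Y ρ t = Y.card :=
  congrArg Finset.card (Finset.filter_true_of_mem h)

lemma fibc_congr {α β : Type} {Y : Finset α} {ρ ρ' : α → β} {t t' : β}
    (h : ∀ f ∈ Y, ρ f = t ↔ ρ' f = t') : fibc Y ρ t = fibc Y ρ' t' :=
  congrArg Finset.card (Finset.filter_congr h)

section count

variable {𝓐 : Type} [AddCommGroup 𝓐]

/-- affine sets -/
def Aff (Y : Finset 𝓐) : Prop := ∀ f₁ f₂ f₃, f₁ ∈ Y → f₂ ∈ Y → f₃ ∈ Y → f₁ + (f₂ - f₃) ∈ Y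

lemma Aff.dvd [Fintype 𝓐] {Y : Finset 𝓐} (hY : Aff Y) (hne : Y.Nonempty) :
    Y.card ∣ Fintype.card 𝓐 := by
  obtain ⟨y, hy⟩ := hne
  let U : AddSubgroup 𝓐 :=
    { carrier := {u | y + u ∈ Y}
      zero_mem' := by
        show y + 0 ∈ Y
        simpa using hy
      add_mem' := by
        intro u v hu hv
        have := hY _ _ _ hu hv hy
        have h1 : y + u + (y + v - y) = y + (u + v) := by abel
        rw [h1] at this; exact this
      neg_mem' := by
        intro u hu
        have := hY _ _ _ hy hy hu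
        have h1 : y + (y - (y + u)) = y + -u := by abel
        rw [h1] at this; exact this }
  have h1 : Y.card = Nat.card U := by
    rw [← Nat.card_eq_finsetCard]
    refine Nat.card_congr ⟨fun f => ⟨f.1 - y, ?_⟩, fun u => ⟨y + u.1, u.2⟩, fun f => ?_,
      fun u => ?_⟩
    · show y + (f.1 - y) ∈ Y
      rw [add_sub_cancel]; exact f.2
    · simp
    · simp
  rw [h1, ← Nat.card_eq_fintype_card]
  exact AddSubgroup.card_addSubgroup_dvd_card U

/-- counting lemma: proportional fibres -/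
lemma fibre_prop {β : Type} {Y Y' : Finset 𝓐} (hY : Aff Y) (hY' : Aff Y') (ρ : 𝓐 → β)
    (hρ : ∀ f f' d, ρ f = ρ f' → ρ (f + d) = ρ (f' + d))
    (h1 : ∀ f ∈ Y, ∃ f' ∈ Y', ρ f' = ρ f) (h2 : ∀ f ∈ Y', ∃ f' ∈ Y, ρ f' = ρ f) (t : β) :
    fibc Y ρ t * Y'.card = fibc Y' ρ t * Y.card := by
  -- uniform fibres
  have key : ∀ {Z : Finset 𝓐}, Aff Z → ∀ f₁ ∈ Z, ∀ f₂ ∈ Z,
      fibc Z ρ (ρ f₁) ≤ fibc Z ρ (ρ f₂) := by
    intro Z hZ f₁ hf₁ f₂ hf₂
    refine Finset.card_le_card_of_injOn (fun h => h + (f₂ - f₁)) ?_ ?_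
    · intro h hh
      rw [Finset.mem_coe, Finset.mem_filter] at hh ⊢
      refine ⟨hZ _ _ _ hh.1 hf₂ hf₁, ?_⟩
      have := hρ h f₁ (f₂ - f₁) hh.2
      rw [this, add_sub_cancel]
    · intro h _ h' _ hh
      exact add_right_cancel hh
  have cardeq : ∀ {Z : Finset 𝓐}, Aff Z → ∀ f₀ ∈ Z, Z.card =
      (Z.image ρ).card * fibc Z ρ (ρ f₀) := by
    intro Z hZ f₀ hf₀
    rw [Finset.card_eq_sum_card_image ρ Z, Finset.sum_const_nat]
    intro b hb
    rw [Finset.mem_image] at hb
    obtain ⟨f₁, hf₁, rfl⟩ := hb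
    exact le_antisymm (key hZ f₁ hf₁ f₀ hf₀) (key hZ f₀ hf₀ f₁ hf₁)
  have himg : Y.image ρ = Y'.image ρ := by
    ext b
    rw [mem_image, mem_image]
    constructor
    · rintro ⟨f, hf, rfl⟩; exact h1 f hf
    · rintro ⟨f, hf, rfl⟩; exact h2 f hf
  by_cases ht : ∃ f₀ ∈ Y, ρ f₀ = t
  · obtain ⟨f₀, hf₀, rfl⟩ := ht
    obtain ⟨f₁, hf₁, h3⟩ := h1 f₀ hf₀
    rw [cardeq hY f₀ hf₀, cardeq hY' f₁ hf₁, himg, h3]
    ring
  · have e1 : fibc Y ρ t = 0 := by
      refine Finset.card_eq_zero.2 (Finset.filter_eq_empty_iff.2 fun f hf hf' => ht ⟨f, hf, hf'⟩)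
    have e2 : fibc Y' ρ t = 0 := by
      refine Finset.card_eq_zero.2 (Finset.filter_eq_empty_iff.2 fun f hf hf' => ?_)
      obtain ⟨f', hf', h3⟩ := h2 f hf
      exact ht ⟨f', hf', h3.trans ‹_›⟩
    rw [e1, e2]; simp

end count

lemma dom_graphOn {W : Type} (C : Finset V) (f : V → W) : dom (graphOn C f) = C := by
  ext v
  simp only [dom, graphOn, Finset.mem_image]
  constructor
  · rintro ⟨p, ⟨v', hv', rfl⟩, rfl⟩; exact hv'
  · intro hv; exact ⟨(v, f v), ⟨v, hv, rfl⟩, rfl⟩

lemma mem_graphOn {W : Type} {C : Finset V} {f : V → W} {p : V × W} :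
    p ∈ graphOn C f ↔ p.1 ∈ C ∧ p.2 = f p.1 := by
  unfold graphOn
  rw [Finset.mem_image]
  constructor
  · rintro ⟨v, hv, rfl⟩; exact ⟨hv, rfl⟩
  · rintro ⟨h1, h2⟩; exact ⟨p.1, h1, by rw [← h2]⟩

lemma graphOn_eq_iff {W : Type} {C : Finset V} {f f' : V → W} :
    graphOn C f = graphOn C f' ↔ ∀ v ∈ C, f v = f' v := by
  constructor
  · intro h v hv
    have : (v, f v) ∈ graphOn C f' := h ▸ mem_graphOn.2 ⟨hv, rfl⟩
    exact (mem_graphOn.1 this).2
  · intro h
    unfold graphOn
    exact Finset.image_congr fun v hv => by rw [h v hv]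

lemma hat_eq_iff {φ φ' : V ≃ V} (w : GV V N) :
    hat N φ w = hat N φ' w ↔ ∀ p ∈ supp w, φ p = φ' p := by
  obtain ⟨u, o⟩ := w
  rcases u with p | ⟨⟨p, q, r⟩, l⟩
  · simp [hat, supp]
  · simp [hat, supp, mapT]

lemma graphOn_hat_iff {C : Finset (GV V N)} {φ φ' : V ≃ V} :
    graphOn C (hat N φ) = graphOn C (hat N φ') ↔ ∀ p ∈ suppS C, φ p = φ' p := by
  rw [graphOn_eq_iff]
  simp only [hat_eq_iff, suppS, Finset.mem_biUnion]
  constructor
  · rintro h p ⟨w, hw, hp⟩; exact h w hw p hp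
  · intro h w hw p hp; exact h p ⟨w, hw, hp⟩

lemma suppS_hat_symm (D : Finset (GV V N)) (φ : V ≃ V) :
    suppS (D.map (hat N φ).symm.toEmbedding) = (suppS D).map φ.symm.toEmbedding := by
  have h1 : ∀ w : GV V N, supp ((hat N φ).symm w) = (supp w).map φ.symm.toEmbedding := by
    rintro ⟨p | ⟨⟨p, q, r⟩, l⟩, o⟩
    · simp [hat, supp]
    · simp [hat, supp, mapT]
  ext p
  simp only [suppS, Finset.mem_biUnion, Finset.mem_map]
  constructor
  · rintro ⟨w, ⟨w', hw', rfl⟩, hp⟩
    have h2 := h1 w'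
    simp only [Equiv.coe_toEmbedding] at hp
    rw [h2, Finset.mem_map] at hp
    obtain ⟨q, hq, rfl⟩ := hp
    exact ⟨q, ⟨w', hw', hq⟩, rfl⟩
  · rintro ⟨q, ⟨w', hw', hq⟩, rfl⟩
    refine ⟨(hat N φ).symm w', ⟨w', hw', rfl⟩, ?_⟩
    rw [h1, Finset.mem_map]
    exact ⟨q, hq, rfl⟩

lemma suppS_mono {C D : Finset (GV V N)} (h : C ⊆ D) : suppS C ⊆ suppS D :=
  Finset.biUnion_subset_biUnion_of_subset_left _ h

/-- compatibility with restriction -/
def Compat {V W : Type} [Fintype V] [Fintype W] (k : ℕ) (r : Finset (V × W) → ℤ) : Prop :=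
  ∀ C D : Finset V, C ⊆ D → D.card ≤ k → ∀ t, dom t = C →
      r t = ∑ u with dom u = D ∧ t ⊆ u, r u

lemma sum_fib {V W : Type} [Fintype V] [Fintype W] {𝓐 : Type} (Y : Finset 𝓐) (F : 𝓐 → V → W)
    {C D : Finset V} (hCD : C ⊆ D) {t : Finset (V × W)} (ht : dom t = C) :
    (∑ u with dom u = D ∧ t ⊆ u, fibc Y (fun f => graphOn D (F f)) u) =
      fibc Y (fun f => graphOn C (F f)) t := by
  unfold fibc
  beta_reduce
  symm
  rw [Finset.card_eq_sum_card_fiberwise (f := fun f => graphOn D (F f))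
    (t := univ.filter fun u : Finset (V × W) => dom u = D ∧ t ⊆ u)]
  · symm
    refine Finset.sum_congr rfl fun u hu => ?_
    simp only [mem_filter, mem_univ, true_and] at hu
    refine congrArg Finset.card ?_
    ext f
    simp only [mem_filter]
    constructor
    · rintro ⟨h3, h4⟩
      refine ⟨⟨h3, ?_⟩, h4⟩
      rw [← h4] at hu
      ext p
      constructor
      · intro hp
        rw [mem_graphOn] at hp
        have hpC : p.1 ∈ dom t := ht ▸ hp.1
        unfold dom at hpC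
        rw [Finset.mem_image] at hpC
        obtain ⟨q, hq, hqp⟩ := hpC
        have hq' := mem_graphOn.1 (hu.2 hq)
        have : q = p := by
          refine Prod.ext hqp ?_
          rw [hq'.2, hp.2, hqp]
        exact this ▸ hq
      · intro hp
        have hp' := mem_graphOn.1 (hu.2 hp)
        refine mem_graphOn.2 ⟨?_, hp'.2⟩
        rw [← ht]; unfold dom
        exact Finset.mem_image_of_mem _ hp
    · rintro ⟨⟨h3, _⟩, h4⟩; exact ⟨h3, h4⟩
  · intro f hf
    simp only [coe_filter, mem_univ, true_and, Set.mem_ofPred_eq] at hf ⊢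
    refine ⟨dom_graphOn _ _, ?_⟩
    rw [← hf.2]
    intro p hp
    rw [mem_graphOn] at hp ⊢
    exact ⟨hCD hp.1, hp.2⟩

/-- an abstract family of global maps gives a compatible family -/
theorem fam_compat {V W : Type} [Fintype V] [Fintype W] {𝓐 : Type} {k n : ℕ}
    (Y : Finset V → Finset 𝓐) (F : 𝓐 → V → W)
    (hy : ∀ C : Finset V, C.card ≤ k → (Y C).card ∣ n)
    (hy0 : ∀ C : Finset V, C.card ≤ k → 0 < (Y C).card)
    (hprop : ∀ C D : Finset V, C ⊆ D → D.card ≤ k → ∀ t,
      fibc (Y C) (fun f => graphOn C (F f)) t * (Y D).card =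
        fibc (Y D) (fun f => graphOn C (F f)) t * (Y C).card) :
    Compat k (fun t : Finset (V × W) => if (dom t).card ≤ k then
      ((fibc (Y (dom t)) (fun f => graphOn (dom t) (F f)) t * (n / (Y (dom t)).card) : ℕ) : ℤ)
      else 0) := by
  intro C D hCD hD t ht
  have hC : C.card ≤ k := (Finset.card_le_card hCD).trans hD
  beta_reduce
  rw [ht, if_pos hC]
  have h1 : ∀ u ∈ (univ.filter fun u : Finset (V × W) => dom u = D ∧ t ⊆ u),
      (if (dom u).card ≤ k then ((fibc (Y (dom u)) (fun f => graphOn (dom u) (F f)) u *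
        (n / (Y (dom u)).card) : ℕ) : ℤ) else 0) =
      ((fibc (Y D) (fun f => graphOn D (F f)) u * (n / (Y D).card) : ℕ) : ℤ) := by
    intro u hu
    simp only [mem_filter, mem_univ, true_and] at hu
    rw [hu.1, if_pos hD]
  rw [Finset.sum_congr rfl h1, ← Nat.cast_sum, ← Finset.sum_mul, sum_fib (Y D) F hCD ht]
  congr 1
  have h5 := hprop C D hCD hD t
  obtain ⟨m, hm⟩ := hy C hC
  obtain ⟨m', hm'⟩ := hy D hD
  have e1 : n / (Y C).card = m := by rw [hm, Nat.mul_div_cancel_left _ (hy0 C hC)]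
  have e2 : n / (Y D).card = m' := by rw [hm', Nat.mul_div_cancel_left _ (hy0 D hD)]
  rw [e1, e2]
  have h6 : (Y C).card * m = (Y D).card * m' := hm.symm.trans hm'
  refine Nat.eq_of_mul_eq_mul_left (Nat.mul_pos (hy0 C hC) (hy0 D hD)) ?_
  calc ((Y C).card * (Y D).card) * (fibc (Y C) (fun f => graphOn C (F f)) t * m)
      = (fibc (Y C) (fun f => graphOn C (F f)) t * (Y D).card) * ((Y C).card * m) := by
        ring
    _ = (fibc (Y D) (fun f => graphOn C (F f)) t * (Y C).card) *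
        ((Y D).card * m') := by rw [h5, h6]
    _ = ((Y C).card * (Y D).card) *
        (fibc (Y D) (fun f => graphOn C (F f)) t * m') := by ring

lemma rng_graphOn {W : Type} (C : Finset V) (f : V → W) : rng (graphOn C f) = C.image f := by
  ext v
  simp only [rng, graphOn, Finset.mem_image]
  constructor
  · rintro ⟨p, ⟨v', hv', rfl⟩, rfl⟩; exact ⟨v', hv', rfl⟩
  · rintro ⟨v', hv', rfl⟩; exact ⟨(v', f v'), ⟨v', hv', rfl⟩, rfl⟩

/-- compatibility with restriction in the range -/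
def Compat' {V W : Type} [Fintype V] [Fintype W] (k : ℕ) (r : Finset (V × W) → ℤ) : Prop :=
  ∀ C D : Finset W, C ⊆ D → D.card ≤ k → ∀ t, rng t = C →
      r t = ∑ u with rng u = D ∧ t ⊆ u, r u

lemma subset_graphOn_iff {V W : Type} {t : Finset (V × W)} {D : Finset V} {F : V → W} :
    t ⊆ graphOn D F ↔ dom t ⊆ D ∧ graphOn (dom t) F = t := by
  constructor
  · intro h
    refine ⟨fun v hv => ?_, ?_⟩
    · unfold dom at hv
      obtain ⟨p, hp, rfl⟩ := Finset.mem_image.1 hv
      exact (mem_graphOn.1 (h hp)).1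
    · ext p
      rw [mem_graphOn]
      constructor
      · rintro ⟨h1, h2⟩
        unfold dom at h1
        obtain ⟨q, hq, hqp⟩ := Finset.mem_image.1 h1
        have hq' := (mem_graphOn.1 (h hq)).2
        have : q = p := Prod.ext hqp (by rw [hq', h2, hqp])
        exact this ▸ hq
      · intro hp
        exact ⟨Finset.mem_image_of_mem _ hp, (mem_graphOn.1 (h hp)).2⟩
  · rintro ⟨h1, h2⟩
    rw [← h2]
    intro p hp
    rw [mem_graphOn] at hp ⊢
    exact ⟨h1 hp.1, hp.2⟩

lemma graphOn_symm_rng {V W : Type} (F : V ≃ W) (D : Finset W) :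
    rng (graphOn (D.map F.symm.toEmbedding) F) = D := by
  rw [rng_graphOn]
  ext w
  simp only [Finset.mem_image, Finset.mem_map_equiv, Equiv.symm_symm]
  constructor
  · rintro ⟨v, hv, rfl⟩; exact hv
  · intro hw; exact ⟨F.symm w, by simpa using hw, by simp⟩

lemma dom_of_rng {V W : Type} {F : V ≃ W} {C : Finset V} {D : Finset W}
    (h : rng (graphOn C F) = D) : C = D.map F.symm.toEmbedding := by
  rw [rng_graphOn] at h
  ext v
  rw [Finset.mem_map_equiv, Equiv.symm_symm, ← h]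
  constructor
  · intro hv; exact Finset.mem_image_of_mem _ hv
  · intro hv
    obtain ⟨v', hv', hvv⟩ := Finset.mem_image.1 hv
    exact F.injective hvv ▸ hv'

/-- an abstract family of global maps gives a family that is compatible in the range -/
theorem fam_compat' {V W : Type} [Fintype V] [Fintype W] {𝓐 : Type} {k n : ℕ}
    (Y : Finset V → Finset 𝓐) (F : 𝓐 → V ≃ W)
    (hy : ∀ C : Finset V, C.card ≤ k → (Y C).card ∣ n)
    (hy0 : ∀ C : Finset V, C.card ≤ k → 0 < (Y C).card)
    (hprop : ∀ C D : Finset V, C ⊆ D → D.card ≤ k → ∀ t,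
      fibc (Y C) (fun f => graphOn C (F f)) t * (Y D).card =
        fibc (Y D) (fun f => graphOn C (F f)) t * (Y C).card)
    (hidx : ∀ f f' (D : Finset W), Y (D.map (F f).symm.toEmbedding) =
      Y (D.map (F f').symm.toEmbedding)) :
    Compat' k (fun t : Finset (V × W) => if (dom t).card ≤ k then
      ((fibc (Y (dom t)) (fun f => graphOn (dom t) (F f)) t * (n / (Y (dom t)).card) : ℕ) : ℤ)
      else 0) := by
  intro C' D' hCD hD t ht
  beta_reduce
  by_cases hex : ∃ f₁, graphOn (dom t) (F f₁) = t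
  · obtain ⟨f₁, hf₁⟩ := hex
    set C := dom t with hC
    set D₁ := D'.map (F f₁).symm.toEmbedding with hD₁
    have hD₁c : D₁.card ≤ k := by rw [hD₁, Finset.card_map]; exact hD
    have hdom : ∀ f, graphOn C (F f) = t → C = C'.map (F f).symm.toEmbedding := by
      intro f hf
      exact dom_of_rng (by rw [hf]; exact ht)
    have hCD₁ : C ⊆ D₁ := by
      rw [hdom f₁ hf₁, hD₁]
      exact Finset.map_subset_map.2 hCD
    have hCk : C.card ≤ k := (Finset.card_le_card hCD₁).trans hD₁c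
    rw [if_pos hCk]
    have h1 : ∀ u ∈ (univ.filter fun u : Finset (V × W) => rng u = D' ∧ t ⊆ u),
        (if (dom u).card ≤ k then ((fibc (Y (dom u)) (fun f => graphOn (dom u) (F f)) u *
          (n / (Y (dom u)).card) : ℕ) : ℤ) else 0) =
        ((fibc (Y D₁) (fun f => graphOn (D'.map (F f).symm.toEmbedding) (F f)) u *
          (n / (Y D₁).card) : ℕ) : ℤ) := by
      intro u hu
      simp only [mem_filter, mem_univ, true_and] at hu
      obtain ⟨hu1, hu2⟩ := hu
      by_cases hex' : ∃ f, graphOn (dom u) (F f) = u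
      · obtain ⟨f, hf⟩ := hex'
        have h2 : dom u = D'.map (F f).symm.toEmbedding :=
          dom_of_rng (by rw [hf]; exact hu1)
        have h3 : Y (dom u) = Y D₁ := by rw [h2]; exact hidx _ _ _
        have h4 : (dom u).card ≤ k := by rw [h2, Finset.card_map]; exact hD
        rw [if_pos h4, h3]
        have h5 : fibc (Y D₁) (fun f => graphOn (dom u) (F f)) u =
            fibc (Y D₁) (fun f => graphOn (D'.map (F f).symm.toEmbedding) (F f)) u := by
          refine fibc_congr fun f' _ => ?_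
          constructor
          · intro h6
            have h7 : dom u = D'.map (F f').symm.toEmbedding :=
              dom_of_rng (by rw [h6]; exact hu1)
            rw [← h7]; exact h6
          · intro h6
            have h7 : dom u = D'.map (F f').symm.toEmbedding := by
              rw [← h6, dom_graphOn]
            rw [h7]; exact h6
        rw [h5]
      · have e1 : fibc (Y (dom u)) (fun f => graphOn (dom u) (F f)) u = 0 :=
          fibc_zero fun f _ hf => hex' ⟨f, hf⟩
        have e2 : fibc (Y D₁) (fun f => graphOn (D'.map (F f).symm.toEmbedding) (F f)) u = 0 := by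
          refine fibc_zero fun f _ hf => hex' ⟨f, ?_⟩
          have h7 : dom u = D'.map (F f).symm.toEmbedding := by
            rw [← hf, dom_graphOn]
          rw [h7]; exact hf
        rw [e1, e2]; simp
    rw [Finset.sum_congr rfl h1, ← Nat.cast_sum, ← Finset.sum_mul]
    have h8 : (∑ u with rng u = D' ∧ t ⊆ u,
        fibc (Y D₁) (fun f => graphOn (D'.map (F f).symm.toEmbedding) (F f)) u) =
        fibc (Y D₁) (fun f => graphOn C (F f)) t := by
      unfold fibc
      beta_reduce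
      symm
      rw [Finset.card_eq_sum_card_fiberwise
        (f := fun f => graphOn (D'.map (F f).symm.toEmbedding) (F f))
        (t := univ.filter fun u : Finset (V × W) => rng u = D' ∧ t ⊆ u)]
      · refine Finset.sum_congr rfl fun u hu => ?_
        simp only [mem_filter, mem_univ, true_and] at hu
        refine congrArg Finset.card ?_
        ext f
        simp only [mem_filter]
        constructor
        · rintro ⟨⟨h3, _⟩, h4⟩; exact ⟨h3, h4⟩
        · rintro ⟨h3, h4⟩
          refine ⟨⟨h3, ?_⟩, h4⟩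
          rw [← h4] at hu
          exact (subset_graphOn_iff.1 hu.2).2
      · intro f hf
        simp only [coe_filter, mem_univ, true_and, Set.mem_ofPred_eq] at hf ⊢
        refine ⟨graphOn_symm_rng _ _, subset_graphOn_iff.2 ⟨?_, hf.2⟩⟩
        rw [← hC, hdom f hf.2]
        exact Finset.map_subset_map.2 hCD
    rw [h8]
    congr 1
    have h5 := hprop C D₁ hCD₁ hD₁c t
    obtain ⟨m, hm⟩ := hy C hCk
    obtain ⟨m', hm'⟩ := hy D₁ hD₁c
    have e1 : n / (Y C).card = m := by rw [hm, Nat.mul_div_cancel_left _ (hy0 C hCk)]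
    have e2 : n / (Y D₁).card = m' := by rw [hm', Nat.mul_div_cancel_left _ (hy0 D₁ hD₁c)]
    rw [e1, e2]
    have h6 : (Y C).card * m = (Y D₁).card * m' := hm.symm.trans hm'
    refine Nat.eq_of_mul_eq_mul_left (Nat.mul_pos (hy0 C hCk) (hy0 D₁ hD₁c)) ?_
    calc ((Y C).card * (Y D₁).card) * (fibc (Y C) (fun f => graphOn C (F f)) t * m)
        = (fibc (Y C) (fun f => graphOn C (F f)) t * (Y D₁).card) * ((Y C).card * m) := by
          ring
      _ = (fibc (Y D₁) (fun f => graphOn C (F f)) t * (Y C).card) *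
          ((Y D₁).card * m') := by rw [h5, h6]
      _ = ((Y C).card * (Y D₁).card) *
          (fibc (Y D₁) (fun f => graphOn C (F f)) t * m') := by ring
  · have e1 : fibc (Y (dom t)) (fun f => graphOn (dom t) (F f)) t = 0 :=
      fibc_zero fun f _ hf => hex ⟨f, hf⟩
    rw [e1]
    symm
    have : ∀ u ∈ (univ.filter fun u : Finset (V × W) => rng u = D' ∧ t ⊆ u),
        (if (dom u).card ≤ k then ((fibc (Y (dom u)) (fun f => graphOn (dom u) (F f)) u *
          (n / (Y (dom u)).card) : ℕ) : ℤ) else 0) = 0 := by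
      intro u hu
      simp only [mem_filter, mem_univ, true_and] at hu
      have e2 : fibc (Y (dom u)) (fun f => graphOn (dom u) (F f)) u = 0 := by
        refine fibc_zero fun f _ hf => hex ⟨f, ?_⟩
        have h2 := hu.2
        rw [← hf] at h2
        exact (subset_graphOn_iff.1 h2).2
      rw [e2]; simp
    rw [Finset.sum_eq_zero this]
    simp

/-- a frame gives a compatible family -/
theorem frame_fam [Fintype V] {κA κB : V → V → V → Fin N} {k : ℕ} (M : Sys κA κB (3 * k))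
    {C₀ : Finset (GV V N)} {g₀ : M.Gd} {𝓐 : Type} [AddCommGroup 𝓐] [Fintype 𝓐]
    (Fr : Frame (3 * k) M.φ M.Good (suppS C₀) g₀ 𝓐) (hC₀ : C₀.card ≤ k) :
    ∃ r : Finset (GV V N × GV V N) → ℤ,
      (∀ t, t ∉ M.S k → r t = 0) ∧
      (∀ t, dom t = C₀ ∨ rng t = rng (graphOn C₀ (hat N (M.φ g₀))) →
        r t = if t = graphOn C₀ (hat N (M.φ g₀)) then
        (Fintype.card 𝓐 : ℤ) else 0) ∧ Compat k r ∧ Compat' k r := by
  set n := Fintype.card 𝓐 with hn
  -- basic data
  let F : 𝓐 → GV V N ≃ GV V N := fun f => hat N (M.φ (Fr.Ψ f))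
  let Y : Finset (GV V N) → Finset 𝓐 := fun C => univ.filter (· ∈ Fr.Y (suppS C))
  have hmem : ∀ C f, f ∈ Y C ↔ f ∈ Fr.Y (suppS C) := by intro C f; simp [Y]
  have haff : ∀ C, Aff (Y C) := by
    intro C f₁ f₂ f₃ h₁ h₂ h₃
    rw [hmem] at h₁ h₂ h₃ ⊢
    exact Fr.aff _ _ _ _ h₁ h₂ h₃
  have hne : ∀ C : Finset (GV V N), C.card ≤ k → (Y C).Nonempty := by
    intro C hC
    obtain ⟨f, hf⟩ := Fr.ne _ ((card_suppS C).trans (Nat.mul_le_mul_left 3 hC))
    exact ⟨f, (hmem C f).2 hf⟩
  have hy : ∀ C : Finset (GV V N), C.card ≤ k → (Y C).card ∣ n := fun C hC =>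
    Aff.dvd (haff C) (hne C hC)
  have hy0 : ∀ C : Finset (GV V N), C.card ≤ k → 0 < (Y C).card := fun C hC =>
    Finset.card_pos.2 (hne C hC)
  have htr : ∀ (C : Finset (GV V N)) (f f' d : 𝓐), graphOn C (F f) = graphOn C (F f') →
      graphOn C (F (f + d)) = graphOn C (F (f' + d)) := by
    intro C f f' d h
    have h' := graphOn_hat_iff.1 h
    exact graphOn_hat_iff.2 fun p hp => Fr.transl f f' d p (h' p hp)
  have hprop : ∀ C D : Finset (GV V N), C ⊆ D → D.card ≤ k → ∀ t,
      fibc (Y C) (fun f => graphOn C (F f)) t * (Y D).card =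
        fibc (Y D) (fun f => graphOn C (F f)) t * (Y C).card := by
    intro C D hCD hD t
    have hD3 : (suppS D).card ≤ 3 * k := (card_suppS D).trans (Nat.mul_le_mul_left 3 hD)
    exact fibre_prop (haff C) (haff D) (fun f => graphOn C (F f)) (htr C)
      (fun f hf => by
        obtain ⟨f', hf', h⟩ := Fr.surj _ _ (suppS_mono hCD) hD3 f ((hmem _ _).1 hf)
        exact ⟨f', (hmem _ _).2 hf', graphOn_hat_iff.2 h⟩)
      (fun f hf => by
        obtain ⟨f', hf', h⟩ := Fr.res _ _ (suppS_mono hCD) hD3 f ((hmem _ _).1 hf)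
        exact ⟨f', (hmem _ _).2 hf', graphOn_hat_iff.2 h⟩) t
  have hidx : ∀ f f' (D : Finset (GV V N)), Y (D.map (F f).symm.toEmbedding) =
      Y (D.map (F f').symm.toEmbedding) := by
    intro f f' D
    have h1 : ∀ f, suppS (D.map (F f).symm.toEmbedding) =
        (suppS D).map (M.φ (Fr.Ψ f)).symm.toEmbedding := fun f => suppS_hat_symm D _
    have h2 := Fr.idx f f' (suppS D)
    ext e
    rw [hmem, hmem, h1, h1, h2]
  refine ⟨fun t => if (dom t).card ≤ k then
      ((fibc (Y (dom t)) (fun f => graphOn (dom t) (F f)) t * (n / (Y (dom t)).card) : ℕ) : ℤ)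
      else 0, ?_, ?_, fam_compat Y (fun f => F f) hy hy0 hprop, fam_compat' Y F hy hy0 hprop hidx⟩
  · intro t ht
    by_cases hk : (dom t).card ≤ k
    · simp only
      rw [if_pos hk]
      have : fibc (Y (dom t)) (fun f => graphOn (dom t) (F f)) t = 0 := by
        refine fibc_zero fun f hf hf' => ht ?_
        exact ⟨dom t, Fr.Ψ f, hk, (Fr.good _ _ ((hmem _ _).1 hf)).1, hf'.symm⟩
      rw [this]; simp
    · simp only
      rw [if_neg hk]
  · intro t ht
    have h1 : ∀ C : Finset (GV V N), ∀ f ∈ Y C,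
        graphOn C₀ (F f) = graphOn C₀ (hat N (M.φ g₀)) := by
      intro C f hf
      exact graphOn_hat_iff.2 (Fr.good _ _ ((hmem _ _).1 hf)).2
    have hdomt : ∀ f ∈ Y (dom t), graphOn (dom t) (F f) = t → dom t = C₀ := by
      intro f hf hft
      rcases ht with ht | ht
      · exact ht
      · have h2 : rng (graphOn (dom t) (F f)) = rng (graphOn C₀ (F f)) := by
          rw [hft, ht, h1 _ f hf]
        have h3 := dom_of_rng h2
        have h4 := dom_of_rng (rfl : rng (graphOn C₀ (F f)) = rng (graphOn C₀ (F f)))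
        rw [h3]; exact h4.symm
    by_cases hts : t = graphOn C₀ (hat N (M.φ g₀))
    · have ht' : dom t = C₀ := by rw [hts, dom_graphOn]
      have hk : (dom t).card ≤ k := ht' ▸ hC₀
      simp only
      rw [if_pos hk, if_pos hts, ht']
      have : fibc (Y C₀) (fun f => graphOn C₀ (F f)) t = (Y C₀).card := by
        refine fibc_full fun f hf => ?_
        rw [h1 _ f hf, hts]
      rw [this, Nat.mul_div_cancel' (hy C₀ hC₀)]
    · rw [if_neg hts]
      have : fibc (Y (dom t)) (fun f => graphOn (dom t) (F f)) t = 0 := by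
        refine fibc_zero fun f hf hf' => hts ?_
        have h2 := hdomt f hf hf'
        rw [h2] at hf'
        exact hf'.symm.trans (h1 _ f hf)
      simp only
      rw [this]; simp

/-- two-sided extendability -/
theorem sys_ext2 [Fintype V] {κA κB : V → V → V → Fin N} {k : ℕ} (M : Sys κA κB (3 * k)) :
    ∀ s ∈ M.S k, ZExt2 k (M.S k) s := by
  rintro s ⟨C₀, g₀, hC₀, hg₀, rfl⟩
  obtain ⟨𝓐, _, _, 𝓑, _, _, hco, ⟨Fa⟩, ⟨Fb⟩⟩ :=
    M.frames _ g₀ hg₀ ((card_suppS C₀).trans (Nat.mul_le_mul_left 3 hC₀))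
  obtain ⟨r₁, a1, a2, a3, a4⟩ := frame_fam M Fa hC₀
  obtain ⟨r₂, b1, b2, b3, b4⟩ := frame_fam M Fb hC₀
  rw [Nat.card_eq_fintype_card, Nat.card_eq_fintype_card] at hco
  obtain ⟨u, v, huv⟩ := (Nat.isCoprime_iff_coprime.2 hco)
  refine ⟨fun t => u * r₁ t + v * r₂ t, ?_, ?_, ?_, ?_⟩
  · intro t ht; simp [a1 t ht, b1 t ht]
  · intro t ht
    rw [dom_graphOn] at ht
    simp only
    rw [a2 t ht, b2 t ht]
    split_ifs with h
    · exact huv
    · simp
  · intro C D hCD hD t ht
    simp only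
    rw [a3 C D hCD hD t ht, b3 C D hCD hD t ht, Finset.mul_sum, Finset.mul_sum,
      ← Finset.sum_add_distrib]
  · intro C D hCD hD t ht
    simp only
    rw [a4 C D hCD hD t ht, b4 C D hCD hD t ht, Finset.mul_sum, Finset.mul_sum,
      ← Finset.sum_add_distrib]

theorem sys_ext [Fintype V] {κA κB : V → V → V → Fin N} {k : ℕ} (M : Sys κA κB (3 * k)) :
    ∀ s ∈ M.S k, ZExt k (M.S k) s := by
  intro s hs
  obtain ⟨r, h1, h2, h3, -⟩ := sys_ext2 M s hs
  exact ⟨r, h1, fun t ht => h2 t (Or.inl ht), h3⟩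

end Pool.Agent.CoWL
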