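import Pool.Agent.CoWL.SysForth
import Pool.Agent.CoWL.SysExt

/-!
Systems give pairs of graphs that cohomological Weisfeiler-Leman does not distinguish.
-/

namespace Pool.Agent.CoWL

open Finset Classical

variable {V : Type} {N : ℕ}

private lemma mem_graphOn' {A B : Type} {C : Finset A} {f : A → B} {p : A × B} :
    p ∈ graphOn C f ↔ p.1 ∈ C ∧ f p.1 = p.2 := by
  unfold graphOn
  rw [mem_image]
  constructor
  · rintro ⟨v, hv, rfl⟩; exact ⟨hv, rfl⟩
  · rintro ⟨h1, h2⟩; exact ⟨p.1, h1, by rw [h2]⟩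

private lemma mem_inv' {A B : Type} {s : Finset (A × B)} {p : B × A} :
    p ∈ inv s ↔ (p.2, p.1) ∈ s := by
  unfold inv
  rw [mem_image]
  constructor
  · rintro ⟨⟨a, b⟩, h, rfl⟩; exact h
  · intro h; exact ⟨(p.2, p.1), h, rfl⟩

private lemma inv_inv' {A B : Type} (s : Finset (A × B)) : inv (inv s) = s := by
  ext p
  rw [mem_inv', mem_inv']

private lemma inv_graphOn {A B : Type} (C : Finset A) (f : A ≃ B) :
    inv (graphOn C f) = graphOn (C.map f.toEmbedding) f.symm := by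
  ext p
  rw [mem_inv', mem_graphOn', mem_graphOn', mem_map_equiv]
  constructor
  · rintro ⟨h1, h2⟩
    dsimp only at h1 h2
    have : f.symm p.1 = p.2 := by rw [← h2]; simp
    exact ⟨by rw [this]; exact h1, this⟩
  · rintro ⟨h1, h2⟩
    dsimp only
    rw [← h2]
    exact ⟨h1, by simp⟩

private lemma hat_symm' (φ : V ≃ V) : (hat N φ).symm = hat N φ.symm := rfl

private lemma supp_hat' (φ : V ≃ V) (w : GV V N) :
    supp (hat N φ w) = (supp w).map φ.toEmbedding := by
  rcases w with ⟨p | ⟨⟨p, q, r⟩, l⟩, o⟩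
  · simp [supp, hat]
  · simp [supp, hat, mapT]

private lemma suppS_map (φ : V ≃ V) (C : Finset (GV V N)) :
    suppS (C.map (hat N φ).toEmbedding) = (suppS C).map φ.toEmbedding := by
  unfold suppS
  ext v
  rw [mem_biUnion, mem_map_equiv, mem_biUnion]
  constructor
  · rintro ⟨w, hw, hv⟩
    rw [mem_map] at hw
    obtain ⟨w, hw, rfl⟩ := hw
    refine ⟨w, hw, ?_⟩
    have hv' : v ∈ supp (hat N φ w) := hv
    rw [supp_hat', mem_map_equiv] at hv'
    exact hv'
  · rintro ⟨w, hw, hv⟩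
    refine ⟨hat N φ w, mem_map_of_mem _ hw, ?_⟩
    rw [supp_hat', mem_map_equiv]
    exact hv

private lemma inv_mem {κA κB : V → V → V → Fin N} {k : ℕ} (M : Sys κA κB (3 * k))
    (M' : Sys κB κA (3 * k))
    (hi : ∀ D g, M.Good D g → ∃ g', M'.Good (D.map (M.φ g).toEmbedding) g' ∧
      M'.φ g' = (M.φ g).symm) {s : Finset (GV V N × GV V N)} (hs : s ∈ M.S k) :
    inv s ∈ M'.S k := by
  obtain ⟨C, g, hC, hg, rfl⟩ := hs
  obtain ⟨g', hg', he⟩ := hi _ g hg
  refine ⟨C.map (hat N (M.φ g)).toEmbedding, g', by rw [card_map]; exact hC, ?_, ?_⟩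
  · rw [suppS_map]; exact hg'
  · rw [inv_graphOn, hat_symm', he]

theorem sys_stable [Fintype V] {κA κB : V → V → V → Fin N} {k : ℕ} (M : Sys κA κB (3 * k))
    (M' : Sys κB κA (3 * k))
    (hi : ∀ D g, M.Good D g → ∃ g', M'.Good (D.map (M.φ g).toEmbedding) g' ∧
      M'.φ g' = (M.φ g).symm)
    (hi' : ∀ D g, M'.Good D g → ∃ g', M.Good (D.map (M'.φ g).toEmbedding) g' ∧
      M.φ g' = (M'.φ g).symm) :
    Stable k (Gr κA) (Gr κB) (M.S k) := by
  have hS : {t | inv t ∈ M.S k} = M'.S k := by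
    ext t
    constructor
    · intro h
      have := inv_mem M M' hi h
      rwa [inv_inv'] at this
    · intro h
      exact inv_mem M' M hi' h
  refine ⟨?_, ?_, ?_, ?_, sys_ext M, ?_⟩
  · rintro s ⟨C, g, hC, -, rfl⟩
    refine le_trans ?_ hC
    refine Finset.card_le_card_of_injOn Prod.fst ?_ ?_
    · intro p hp
      exact (mem_graphOn'.1 hp).1
    · intro p hp q hq h
      have hp := (mem_graphOn'.1 hp).2
      have hq := (mem_graphOn'.1 hq).2
      exact Prod.ext h (by rw [← hp, ← hq, h])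
  · rintro s ⟨C, g, hC, hg, rfl⟩ p hp q hq
    rw [mem_graphOn'] at hp hq
    rw [← hp.2, ← hq.2]
    refine ⟨(hat N (M.φ g)).injective.eq_iff.symm, ?_⟩
    refine hat_adj (M.φ g) (suppS C) (fun p hp q hq r hr => M.col _ _ hg p hp q hq r hr) ?_ ?_
    · unfold suppS; exact subset_biUnion_of_mem supp hp.1
    · unfold suppS; exact subset_biUnion_of_mem supp hq.1
  · rintro s ⟨C, g, hC, hg, rfl⟩ t ht
    refine ⟨C.filter fun v => (v, hat N (M.φ g) v) ∈ t, g, (card_filter_le _ _).trans hC,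
      M.mono _ _ _ ?_ hg, ?_⟩
    · unfold suppS
      exact biUnion_subset_biUnion_of_subset_left _ (filter_subset _ _)
    · ext p
      rw [mem_graphOn', mem_filter]
      constructor
      · intro hp
        have h1 := ht hp
        rw [mem_graphOn'] at h1
        refine ⟨⟨h1.1, ?_⟩, h1.2⟩
        rw [h1.2]; exact hp
      · rintro ⟨⟨h1, h2⟩, h3⟩
        rw [h3] at h2
        exact h2
  · intro s hs hk
    obtain ⟨f, hf⟩ := sys_forth M s hs hk
    refine ⟨f, fun v => ?_⟩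
    have key : ∀ s₁ s₂ : Finset (GV V N × GV V N), (∀ p, p ∈ s₁ ↔ p ∈ s₂) → s₁ ∈ M.S k →
        s₂ ∈ M.S k := fun s₁ s₂ h h1 => by
      have h2 : s₁ = s₂ := Finset.ext h
      rwa [h2] at h1
    refine key _ _ (fun p => ?_) (hf v)
    exact Iff.trans (@Finset.mem_insert _ (_) _ _ _) (Iff.symm (@Finset.mem_insert _ (_) _ _ _))
  · intro s hs
    rw [hS]
    exact sys_ext M' _ (inv_mem M M' hi hs)

end Pool.Agent.CoWL
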