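import Pool.Agent.CoWL.BaseNonIso
import Pool.Agent.CoWL.BaseForth
import Pool.Agent.CoWL.BaseFrames
import Pool.Agent.CoWL.SysCohom

/-!
Cohomological Weisfeiler-Leman does not solve graph isomorphism.
-/

namespace Pool.Agent.CoWL

open Finset Classical

variable {a : ℕ}

/-- the system of the two structures -/
noncomputable def baseSys (ch ch' : E a → ZMod 2) (hch : ∑ i, ch i + ∑ i, ch' i = 1) {K : ℕ}
    (ha : 5 * 4 ^ (2 * K) < 2 * a) : Sys (kap ch) (kap ch') K where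
  Gd := Gd a
  φ := phi
  Good := Good ch ch'
  mono := fun D D' g hD h => h.mono hD
  col := fun D g h p hp q hq r hr => h.col hp hq hr
  forth := fun D g h hD => base_forth (n := K) (lt_of_le_of_lt
    (Nat.mul_le_mul_left 5 (Nat.pow_le_pow_right (by norm_num) (by omega))) ha) h hD
  frames := fun D g h hD => by
    refine ⟨E a → E a → ZMod 2, inferInstance, inferInstance, Finset (E a) → ZMod 3,
      inferInstance, inferInstance, ?_, frame2 ha h hD, frame3 hch ha h hD⟩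
    simp only [Nat.card_eq_fintype_card, Fintype.card_pi, ZMod.card, Finset.prod_const]
    rw [← pow_mul]
    exact Nat.Coprime.pow _ _ (by norm_num)

theorem main (k : ℕ) : ∃ (V : Type) (_ : Fintype V) (G H : SimpleGraph V),
    IsEmpty (G ≃g H) ∧ CohomEquiv k G H := by
  obtain ⟨a, ha⟩ : ∃ a : ℕ, 5 * 4 ^ (2 * (3 * k)) < 2 * a := ⟨5 * 4 ^ (2 * (3 * k)), by
    have : 0 < 4 ^ (2 * (3 * k)) := by positivity
    omega⟩
  have ha0 : 0 < a := by
    rcases Nat.eq_zero_or_pos a with h | h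
    · subst h; simp at ha
    · exact h
  let i0 : E a := (⟨0, ha0⟩, true)
  let ch : E a → ZMod 2 := 0
  let ch' : E a → ZMod 2 := Pi.single i0 1
  have hch : ∑ i, ch i + ∑ i, ch' i = 1 := by simp [ch, ch']
  have hch' : ∑ i, ch' i + ∑ i, ch i = 1 := by rw [add_comm]; exact hch
  refine ⟨GV (Pt a) NC, inferInstance, Gr (kap ch), Gr (kap ch'), ⟨fun e => ?_⟩, ?_⟩
  · obtain ⟨ψ, hψ⟩ := iso_of_gr e
    exact base_not_iso hch ψ hψ
  · let M := baseSys ch ch' hch ha
    let M' := baseSys ch' ch hch' ha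
    refine ⟨M.S k, ?_, sys_stable M M' ?_ ?_⟩
    · obtain ⟨x, hx⟩ := exists_lnk (1 : Equiv.Perm (E a))
      obtain ⟨w, hw⟩ := P3_nonempty (a := a) (π := 1) (by simp)
      refine ⟨graphOn ∅ (hat NC (phi ⟨1, x, w⟩)), ∅, (⟨1, x, w⟩ : Gd a), by simp, ?_, rfl⟩
      refine ⟨hx, ?_, 1, ?_, Or.inl rfl, w, by simpa using hw, ?_⟩ <;> simp [suppS, Inv]
    · intro D g hg
      exact ⟨Gd.inv g, hg.inv, phi_inv g⟩
    · intro D g hg
      exact ⟨Gd.inv g, hg.inv, phi_inv g⟩

end Pool.Agent.CoWL
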