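import Pool.Agent.CoWL.Main

/-!
The main theorem with a bound for the size of the graphs.
-/

namespace Pool.Agent.CoWL

open Finset Classical

/-- the points as a sum type -/
def ptEquiv (a : ℕ) : Pt a ≃ E a ⊕ (E a × Finset (E a) × ZMod 2) ⊕
    (Finset (E a) × Finset (E a) × ZMod 3) where
  toFun
    | Pt.el i => Sum.inl i
    | Pt.p2 i Z v => Sum.inr (Sum.inl (i, Z, v))
    | Pt.p3 A B v => Sum.inr (Sum.inr (A, B, v))
  invFun
    | Sum.inl i => Pt.el i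
    | Sum.inr (Sum.inl (i, Z, v)) => Pt.p2 i Z v
    | Sum.inr (Sum.inr (A, B, v)) => Pt.p3 A B v
  left_inv := by rintro (i | ⟨i, Z, v⟩ | ⟨A, B, v⟩) <;> rfl
  right_inv := by rintro (i | ⟨i, Z, v⟩ | ⟨A, B, v⟩) <;> rfl

lemma card_Pt (a : ℕ) : Fintype.card (Pt a) ≤ 2 ^ (4 * a + 3) := by
  rw [Fintype.card_congr (ptEquiv a)]
  simp only [Fintype.card_sum, Fintype.card_prod, Fintype.card_fin, Fintype.card_bool,
    Fintype.card_finset, ZMod.card]
  have h1 : a * 2 ≤ 2 ^ (a * 2) := Nat.lt_two_pow_self.le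
  have h2 : (2 : ℕ) ^ (4 * a + 3) = 8 * (2 ^ (a * 2) * 2 ^ (a * 2)) := by
    rw [← pow_add, pow_add]; ring
  rw [h2]
  have h3 : 1 ≤ 2 ^ (a * 2) := Nat.one_le_two_pow
  set q := 2 ^ (a * 2)
  have h4 : a * 2 * (q * 2) ≤ q * (q * 2) := Nat.mul_le_mul_right _ h1
  have h5 : a * 2 ≤ q * q := h1.trans (Nat.le_mul_of_pos_left q h3)
  nlinarith

lemma card_GV {a : ℕ} (ha : 5 ≤ a) : Fintype.card (GV (Pt a) NC) ≤ 2 ^ (18 * a) := by
  have hP := card_Pt a
  have hNC : NC = 2 ^ 15 := by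
    unfold NC
    simp
  have h1 : Fintype.card (GV (Pt a) NC) =
      (Fintype.card (Pt a) + (Fintype.card (Pt a) * (Fintype.card (Pt a) *
        Fintype.card (Pt a))) * 3) * (NC + 5 + 1) := by
    simp only [Fintype.card_prod, Fintype.card_sum, Fintype.card_option, Fintype.card_fin]
  rw [h1, hNC]
  set P := 2 ^ (4 * a + 3) with hPdef
  set n := Fintype.card (Pt a)
  have hP1 : 1 ≤ P := Nat.one_le_two_pow
  have h2 : n * (n * n) ≤ P * (P * P) := Nat.mul_le_mul hP (Nat.mul_le_mul hP hP)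
  have h3 : n ≤ P * (P * P) := hP.trans (Nat.le_mul_of_pos_right P (by positivity))
  have h4 : (n + n * (n * n) * 3) * (2 ^ 15 + 5 + 1) ≤ (4 * (P * (P * P))) * 2 ^ 16 := by
    refine Nat.mul_le_mul (by omega) (by norm_num)
  refine h4.trans ?_
  have h5 : (4 * (P * (P * P))) * 2 ^ 16 = 2 ^ (12 * a + 27) := by
    rw [hPdef, ← pow_add, ← pow_add]
    rw [show (4 : ℕ) = 2 ^ 2 by norm_num, ← pow_add, ← pow_add]
    congr 1; ring
  rw [h5]
  exact Nat.pow_le_pow_right (by norm_num) (by omega)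

/-- Cohomological Weisfeiler-Leman does not solve graph isomorphism, with a size bound, and
with integer families that are compatible in the domain and in the range. -/
theorem main_size (k : ℕ) : ∃ (V : Type) (_ : Fintype V) (G H : SimpleGraph V),
    Fintype.card V ≤ 2 ^ 2 ^ (12 * k + 7) ∧ IsEmpty (G ≃g H) ∧
    ∃ S : Set (Finset (V × V)), S.Nonempty ∧ Stable k G H S ∧ ∀ s ∈ S, ZExt2 k S s := by
  set a : ℕ := 5 * 4 ^ (2 * (3 * k)) with hadef
  have hpos : 0 < 4 ^ (2 * (3 * k)) := by positivity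
  have ha : 5 * 4 ^ (2 * (3 * k)) < 2 * a := by omega
  have ha5 : 5 ≤ a := by omega
  let i0 : E a := (⟨0, by omega⟩, true)
  let ch : E a → ZMod 2 := 0
  let ch' : E a → ZMod 2 := Pi.single i0 1
  have hch : ∑ i, ch i + ∑ i, ch' i = 1 := by simp [ch, ch']
  have hch' : ∑ i, ch' i + ∑ i, ch i = 1 := by rw [add_comm]; exact hch
  refine ⟨GV (Pt a) NC, inferInstance, Gr (kap ch), Gr (kap ch'), ?_, ⟨fun e => ?_⟩, ?_⟩
  · refine (card_GV ha5).trans (Nat.pow_le_pow_right (by norm_num) ?_)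
    have h1 : (4 : ℕ) ^ (2 * (3 * k)) = 2 ^ (12 * k) := by
      rw [show (4 : ℕ) = 2 ^ 2 by norm_num, ← pow_mul]; congr 1; ring
    rw [hadef, h1, pow_add]
    have h2 : (2 : ℕ) ^ 7 = 128 := by norm_num
    rw [h2]
    have h3 : 0 < 2 ^ (12 * k) := by positivity
    omega
  · obtain ⟨ψ, hψ⟩ := iso_of_gr e
    exact base_not_iso hch ψ hψ
  · let M := baseSys ch ch' hch ha
    let M' := baseSys ch' ch hch' ha
    refine ⟨M.S k, ?_, sys_stable M M' ?_ ?_, sys_ext2 M⟩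
    · obtain ⟨x, hx⟩ := exists_lnk (1 : Equiv.Perm (E a))
      obtain ⟨w, hw⟩ := P3_nonempty (a := a) (π := 1) (by simp)
      refine ⟨graphOn ∅ (hat NC (phi ⟨1, x, w⟩)), ∅, (⟨1, x, w⟩ : Gd a), by simp, ?_, rfl⟩
      refine ⟨hx, ?_, 1, ?_, Or.inl rfl, w, by simpa using hw, ?_⟩ <;> simp [suppS, Inv]
    · intro D g hg
      exact ⟨Gd.inv g, hg.inv, phi_inv g⟩
    · intro D g hg
      exact ⟨Gd.inv g, hg.inv, phi_inv g⟩

end Pool.Agent.CoWL
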