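import Pool.Agent.CoWL.Gadget

/-!
The sections of the gadget graphs given by a system.
-/

namespace Pool.Agent.CoWL

open Finset Classical

variable {V : Type} {N : ℕ}

/-- the sections of the gadget graphs given by a system -/
def Sys.S {κA κB : V → V → V → Fin N} {K : ℕ} (M : Sys κA κB K) (k : ℕ) :
    Set (Finset (GV V N × GV V N)) :=
  {s | ∃ C g, C.card ≤ k ∧ M.Good (suppS C) g ∧ s = graphOn C (hat N (M.φ g))}

end Pool.Agent.CoWL
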