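import Pool.Agent.CoWL.SysDefs

/-!
The bijective extension property for the gadget graphs.
-/

namespace Pool.Agent.CoWL

open Finset Classical

variable {V : Type} {N : ℕ}

private lemma hat_congr {φ φ' : V ≃ V} {w : GV V N} (h : ∀ q ∈ supp w, φ q = φ' q) :
    hat N φ w = hat N φ' w := by
  rcases w with ⟨p | ⟨t, l⟩, o⟩
  · have h1 : φ p = φ' p := h p (by simp [supp])
    simp [hat, h1]
  · have h1 : φ t.1 = φ' t.1 := h t.1 (by simp [supp])
    have h2 : φ t.2.1 = φ' t.2.1 := h t.2.1 (by simp [supp])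
    have h3 : φ t.2.2 = φ' t.2.2 := h t.2.2 (by simp [supp])
    simp [hat, mapT, Prod.ext_iff, h1, h2, h3]

private lemma supp_sub {C : Finset (GV V N)} {w : GV V N} (hw : w ∈ C) : supp w ⊆ suppS C := by
  unfold suppS
  exact Finset.subset_biUnion_of_mem supp hw

private lemma step {κA κB : V → V → V → Fin N} {k : ℕ} (M : Sys κA κB (3 * k))
    {C : Finset (GV V N)} {g g' : M.Gd} {D : Finset V} (hC : C.card < k) (v w : GV V N)
    (hD : suppS C ⊆ D) (hv : supp v ⊆ D) (hg' : M.Good D g')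
    (hq : ∀ q ∈ suppS C, M.φ g' q = M.φ g q) (hw : hat N (M.φ g') v = w) :
    insert (v, w) (graphOn C (hat N (M.φ g))) ∈ M.S k := by
  refine ⟨insert v C, g', (Finset.card_insert_le _ _).trans hC, M.mono _ _ _ ?_ hg', ?_⟩
  · unfold suppS
    rw [Finset.biUnion_insert]
    exact Finset.union_subset hv hD
  · have key : ∀ u ∈ C, hat N (M.φ g) u = hat N (M.φ g') u := fun u hu =>
      hat_congr fun q hq' => (hq q (supp_sub hu hq')).symm
    ext x
    simp only [graphOn, mem_insert, mem_image]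
    constructor
    · rintro (rfl | ⟨u, hu, rfl⟩)
      · exact ⟨v, Or.inl rfl, by rw [hw]⟩
      · exact ⟨u, Or.inr hu, by rw [key u hu]⟩
    · rintro ⟨u, rfl | hu, rfl⟩
      · exact Or.inl (by rw [hw])
      · exact Or.inr ⟨u, hu, by rw [key u hu]⟩

theorem sys_forth {κA κB : V → V → V → Fin N} {k : ℕ} (M : Sys κA κB (3 * k)) :
    ∀ s ∈ M.S k, s.card < k → ∃ f : GV V N ≃ GV V N, ∀ v, insert (v, f v) s ∈ M.S k := by
  rintro s ⟨C, g, -, hg, rfl⟩ hs
  have hC : C.card < k := by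
    refine lt_of_le_of_lt ?_ hs
    refine Finset.card_le_card_of_injOn (fun v => (v, hat N (M.φ g) v)) ?_ ?_
    · intro v hv
      simp only [graphOn, coe_image, Set.mem_image]
      exact ⟨v, hv, rfl⟩
    · intro u _ v _ huv
      exact (Prod.ext_iff.1 huv).1
  set D := suppS C with hDdef
  have hD : D.card ≤ 3 * C.card := card_suppS C
  have hc1 : ∀ p (D : Finset V), (insert p D).card ≤ D.card + 1 := fun p D =>
    Finset.card_insert_le _ _
  obtain ⟨f₁, h₁⟩ := M.forth D g hg (by omega)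
  choose g₁ hg₁ hq₁ hf₁ using h₁
  have h2 : ∀ p, ∃ f : V ≃ V, ∀ p', ∃ g', M.Good (insert p' (insert p D)) g' ∧
      (∀ q ∈ insert p D, M.φ g' q = M.φ (g₁ p) q) ∧ M.φ g' p' = f p' := by
    intro p
    exact M.forth (insert p D) (g₁ p) (hg₁ p) (by have := hc1 p D; omega)
  choose f₂ h₂ using h2
  choose g₂ hg₂ hq₂ hf₂ using h₂
  have h3 : ∀ p p', ∃ f : V ≃ V, ∀ p'', ∃ g', M.Good (insert p'' (insert p' (insert p D))) g' ∧
      (∀ q ∈ insert p' (insert p D), M.φ g' q = M.φ (g₂ p p') q) ∧ M.φ g' p'' = f p'' := by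
    intro p p'
    exact M.forth (insert p' (insert p D)) (g₂ p p') (hg₂ p p')
      (by have := hc1 p D; have := hc1 p' (insert p D); omega)
  choose f₃ h₃ using h3
  choose g₃ hg₃ hq₃ hf₃ using h₃
  let F : (V × V × V) ≃ (V × V × V) :=
    Equiv.prodShear f₁ fun p => Equiv.prodShear (f₂ p) fun p' => f₃ p p'
  refine ⟨Equiv.prodCongr (Equiv.sumCongr f₁ (Equiv.prodCongr F (Equiv.refl (Fin 3))))
    (Equiv.refl (Option (Fin (N + 5)))), ?_⟩
  rintro ⟨p | ⟨⟨p, p', p''⟩, l⟩, o⟩
  · refine step M (g' := g₁ p) (D := insert p D) hC _ _ (Finset.subset_insert _ _) ?_ (hg₁ p)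
      (fun q hq => hq₁ p q hq) ?_
    · simp [supp]
    · simp [hat, hf₁]
  · refine step M (g' := g₃ p p' p'') (D := insert p'' (insert p' (insert p D))) hC _ _ ?_ ?_
      (hg₃ p p' p'') ?_ ?_
    · exact ((Finset.subset_insert _ _).trans (Finset.subset_insert _ _)).trans
        (Finset.subset_insert _ _)
    · intro q hq
      simp only [supp, mem_insert, mem_singleton] at hq ⊢
      tauto
    · intro q hq
      rw [hq₃ p p' p'' q (mem_insert_of_mem (mem_insert_of_mem hq)),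
        hq₂ p p' q (mem_insert_of_mem hq), hq₁ p q hq]
    · have e1 : M.φ (g₃ p p' p'') p = f₁ p := by
        rw [hq₃ p p' p'' p (mem_insert_of_mem (mem_insert_self _ _)),
          hq₂ p p' p (mem_insert_self _ _), hf₁]
      have e2 : M.φ (g₃ p p' p'') p' = f₂ p p' := by
        rw [hq₃ p p' p'' p' (mem_insert_self _ _), hf₂]
      have e3 : M.φ (g₃ p p' p'') p'' = f₃ p p' p'' := hf₃ p p' p''
      simp [hat, mapT, F, Equiv.prodShear, e1, e2, e3]

end Pool.Agent.CoWL
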